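import Mathlib
import Pool.Agent.V11260.Noise2

/-!
# Response of differences of families of transports to the noise
-/

open MeasureTheory Matrix Filter
open scoped Matrix.Norms.Frobenius ContDiff Topology
open Pool.Agent.H906R3.YM Pool.Agent.W793.YM Pool.Agent.Y14 Pool.Agent.V11260

namespace Pool.Agent.V11322

set_option linter.unusedSectionVars false
set_option linter.unusedVariables false

noncomputable section

variable {N : ℕ} {E : Type*} [DecidableEq E] {J : Finset E} [Fintype E] {x : IJ J N → ℝ} {δ : ℝ}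

/-- the strengths of the links when the link `e` is replaced by the noise -/
def al0 (e : E) (f : E) : ℝ := if f = e then 0 else 1

/-- the increment -/
def Dn {O : Type*} (S : Finset O) (P Q : O → List E) (w : O → ℝ) (x : IJ J N → ℝ) (δ : ℝ) (e : E)
    (T : Finset E) (s : IJ J N → Bool) : Mat N :=
  ∑ o ∈ S.filter (fun o => e ∈ P o ++ Q o),
    w o • gq J (nv x (al0 e) (iS (insert e T)) δ s) (P o) (Q o)

/-- **orthogonal increments** -/
theorem incr {O : Type*} (S : Finset O) {P Q : O → List E}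
    (hn : ∀ o ∈ S, (P o ++ Q o).Nodup) (w : O → ℝ) {c : E → ℝ}
    (hc : ∀ (e : E) (T : Finset E), e ∉ T →
      av (fun s : IJ J N → Bool => ‖Dn S P Q w x δ e T s‖ ^ 2) ≤ c e) (T : Finset E) :
    av (fun s : IJ J N → Bool => ‖∑ o ∈ S, w o • gq J (nv x (fun _ => 1) (iS T) δ s) (P o) (Q o) -
      ∑ o ∈ S, w o • gq J x (P o) (Q o)‖ ^ 2) ≤ ∑ e ∈ T, c e := by
  obtain ⟨F, hF⟩ : ∃ F : Finset E → (IJ J N → Bool) → Mat N, F = fun T s =>
    ∑ o ∈ S, w o • gq J (nv x (fun _ => 1) (iS T) δ s) (P o) (Q o) := ⟨_, rfl⟩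
  have key : ∀ T : Finset E, av (fun s => ‖F T s - F ∅ s‖ ^ 2) ≤ ∑ e ∈ T, c e := by
    intro T
    induction T using Finset.induction_on with
    | empty => simp [av_const]
    | insert e T he ih =>
      -- the increment
      obtain ⟨α, hα⟩ : ∃ α : E → ℝ, α = al0 e := ⟨_, rfl⟩
      obtain ⟨D, hD⟩ : ∃ D : (IJ J N → Bool) → Mat N, D = fun s =>
        ∑ o ∈ S.filter (fun o => e ∈ P o ++ Q o),
          w o • gq J (nv x α (iS (insert e T)) δ s) (P o) (Q o) := ⟨_, rfl⟩
      have hmx : ∀ s f, f ≠ e → mx J (nv x (fun _ => 1) (iS (insert e T)) δ s) f =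
          mx J (nv x (fun _ => 1) (iS T) δ s) f := by
        intro s f hf
        rw [mx_nv, mx_nv]
        unfold iS
        simp only [Finset.mem_insert, hf, false_or]
      have hmx' : ∀ s f, f ≠ e → mx J (nv x (fun _ => 1) (iS (insert e T)) δ s) f =
          mx J (nv x α (iS (insert e T)) δ s) f := by
        intro s f hf
        rw [mx_nv, mx_nv, hα]
        unfold al0
        simp only [hf, if_false]
      have hmxe : ∀ s, mx J (nv x (fun _ => 1) (iS (insert e T)) δ s) e =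
          mx J (nv x (fun _ => 1) (iS T) δ s) e + mx J (nv x α (iS (insert e T)) δ s) e := by
        intro s
        rw [mx_nv, mx_nv, mx_nv, hα]
        unfold iS al0
        simp [he]
      have hdec : ∀ s, F (insert e T) s = F T s + D s := by
        intro s
        rw [hF, hD]
        simp only
        rw [Finset.sum_filter, ← Finset.sum_add_distrib]
        refine Finset.sum_congr rfl fun o ho => ?_
        split_ifs with h
        · rw [← smul_add]
          congr 1
          exact gq_split (hn o ho) h (fun f _ hf => hmx s f hf) (fun f _ hf => hmx' s f hf)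
            (hmxe s)
        · rw [add_zero]
          congr 1
          exact gq_mx fun f hf => hmx s f fun h2 => h (h2 ▸ hf)
      -- orthogonality
      have hfl : ∀ s, F T (fl (fun i : IJ J N => i.1.1 = e) s) = F T s := by
        intro s
        rw [hF]
        simp only
        refine Finset.sum_congr rfl fun o _ => ?_
        congr 1
        refine gq_mx fun f _ => ?_
        rw [mx_nv, mx_nv, mx_sg_fl (N := N) (J := J) δ (fun e' => e' = e) s f]
        by_cases hf : f = e
        · subst hf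
          unfold iS
          simp [he]
        · simp only [hf, if_false]
      have hf0 : ∀ s, F ∅ (fl (fun i : IJ J N => i.1.1 = e) s) = F ∅ s := by
        intro s
        rw [hF]
        simp only
        refine Finset.sum_congr rfl fun o _ => ?_
        congr 1
        refine gq_mx fun f _ => ?_
        rw [mx_nv, mx_nv]
        unfold iS
        simp
      have hDfl : ∀ s, D (fl (fun i : IJ J N => i.1.1 = e) s) = -D s := by
        intro s
        rw [hD]
        simp only
        rw [← Finset.sum_neg_distrib]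
        refine Finset.sum_congr rfl fun o ho => ?_
        obtain ⟨ho1, ho2⟩ := Finset.mem_filter.1 ho
        rw [← smul_neg]
        congr 1
        obtain ⟨y, hy⟩ : ∃ y, y = nv x α (iS (insert e T)) δ (fl (fun i : IJ J N => i.1.1 = e) s) :=
          ⟨_, rfl⟩
        obtain ⟨y', hy'⟩ : ∃ y, y = nv x α (iS (insert e T)) δ s := ⟨_, rfl⟩
        rw [← hy, ← hy']
        have e1 : ∀ f, f ≠ e → mx J y f = mx J y' f := by
          intro f hf
          rw [hy, hy', mx_nv, mx_nv, mx_sg_fl (N := N) (J := J) δ (fun e' => e' = e) s f]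
          simp only [hf, if_false]
        have e2 : mx J y e = -mx J y' e := by
          rw [hy, hy', mx_nv, mx_nv, mx_sg_fl (N := N) (J := J) δ (fun e' => e' = e) s e, hα]
          unfold al0
          simp
        have e3 : mx J (fun _ : IJ J N => (0 : ℝ)) e = 0 := by
          unfold mx
          split_ifs <;> simp
        obtain ⟨z, hz⟩ : ∃ z : IJ J N → ℝ, z = fun i => if i.1.1 = e then 0 else y' i :=
          ⟨_, rfl⟩
        have e4 : ∀ f, f ≠ e → mx J z f = mx J y' f := fun f hf => by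
          refine mx_congr fun i hi => ?_
          rw [hz]
          simp only
          rw [if_neg (by rw [hi]; exact hf)]
        have e5 : mx J z e = 0 := by
          rw [← e3]
          refine mx_congr fun i hi => ?_
          rw [hz]
          simp only
          rw [if_pos hi]
        have e6 : gq J z (P o) (Q o) = gq J y (P o) (Q o) + gq J y' (P o) (Q o) :=
          gq_split (hn o ho1) ho2 (fun f _ hf => by rw [e4 f hf, e1 f hf])
            (fun f _ hf => e4 f hf) (by rw [e5, e2, neg_add_cancel])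
        have e7 : gq J z (P o) (Q o) = gq J z (P o) (Q o) + gq J z (P o) (Q o) :=
          gq_split (hn o ho1) ho2 (fun f _ hf => rfl) (fun f _ hf => rfl)
            (by rw [e5, add_zero])
        have e8 : gq J z (P o) (Q o) = 0 := by
          have := e7
          rwa [left_eq_add] at this
        rw [e8] at e6
        exact eq_neg_of_add_eq_zero_left e6.symm
      have horth : av (fun s => 2 * ip (F T s - F ∅ s) (D s)) = 0 := by
        refine av_odd (S := fun i : IJ J N => i.1.1 = e) fun s => ?_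
        rw [hfl, hf0, hDfl, map_neg]
        ring
      have h1 : av (fun s => ‖F (insert e T) s - F ∅ s‖ ^ 2) =
          av (fun s => ‖F T s - F ∅ s‖ ^ 2) + av (fun s => ‖D s‖ ^ 2) := by
        have e1 : (fun s => ‖F (insert e T) s - F ∅ s‖ ^ 2) = fun s =>
            (‖F T s - F ∅ s‖ ^ 2 + 2 * ip (F T s - F ∅ s) (D s)) + ‖D s‖ ^ 2 := by
          funext s
          rw [← nsq_add, hdec]
          congr 2
          abel
        rw [e1, av_add, av_add, horth, add_zero]
      have h2 : av (fun s => ‖D s‖ ^ 2) ≤ c e := by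
        rw [hD, hα]
        exact hc e T he
      rw [h1, Finset.sum_insert he]
      linarith
  have h := key T
  have e2 : ∀ s, F ∅ s = ∑ o ∈ S, w o • gq J x (P o) (Q o) := by
    intro s
    rw [hF]
    simp only
    have : iS (∅ : Finset E) = fun _ => 0 := by
      funext e; unfold iS; simp
    rw [this, nv_zero]
  simp only [e2] at h
  rw [hF] at h
  exact h

lemma al_prod {e : E} {T : Finset E} {σ : ℝ} (hσ : 0 ≤ σ) {l : List E} (hl : l.Nodup)
    (he : e ∈ l) {ℓ : ℕ} (hℓ : l.length ≤ ℓ) :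
    (l.map fun f => al0 e f ^ 2 + σ * iS (insert e T) f ^ 2).prod ≤ σ * (1 + σ) ^ ℓ := by
  have c0 : ∀ f ∈ l, 0 ≤ al0 e f ^ 2 + σ * iS (insert e T) f ^ 2 := fun f _ => by
    positivity
  have c1 : ∀ f ∈ l, f ≠ e → al0 e f ^ 2 + σ * iS (insert e T) f ^ 2 ≤ 1 + σ := by
    intro f _ hf
    unfold iS al0
    simp only [hf, if_false]
    split_ifs
    · linarith
    · nlinarith
  have c2 : al0 e e ^ 2 + σ * iS (insert e T) e ^ 2 ≤ σ := by
    unfold iS al0
    simp
  have e3 := prod_one_le hl he c0 c1 c2 (by linarith)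
  have e4 : (1 + σ) ^ l.length ≤ (1 + σ) ^ ℓ := pow_le_pow_right₀ (by linarith) hℓ
  exact e3.trans (mul_le_mul_of_nonneg_left e4 hσ)

/-- the size of a transport with one link replaced by the noise -/
lemma gq_pure {e : E} {T : Finset E} {P Q : List E} (hn : (P ++ Q).Nodup)
    (hu : Un J x (P ++ Q)) (he : e ∈ P ++ Q) {ℓ : ℕ} (hℓ : (P ++ Q).length ≤ ℓ) :
    av (fun s : IJ J N → Bool => ‖gq J (nv x (al0 e) (iS (insert e T)) δ s) P Q‖ ^ 2) ≤
      N * (2 * N * δ ^ 2 * (1 + 2 * N * δ ^ 2) ^ ℓ) := by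
  rw [av_gq hn hu, mul_comm]
  exact mul_le_mul_of_nonneg_left (al_prod (by positivity) hn he hℓ) (Nat.cast_nonneg _)

/-- the variation of a transport -/
lemma gq_var {P Q : List E} (hn : (P ++ Q).Nodup) (hu : Un J x (P ++ Q)) {ℓ : ℕ}
    (hℓ : (P ++ Q).length ≤ ℓ) (T : Finset E) :
    av (fun s : IJ J N → Bool => ‖gq J (nv x (fun _ => 1) (iS T) δ s) P Q - gq J x P Q‖ ^ 2) ≤
      N * (2 * N * δ ^ 2 * (1 + 2 * N * δ ^ 2) ^ ℓ) * ℓ := by
  obtain ⟨B, hB⟩ : ∃ B : ℝ, B = N * (2 * N * δ ^ 2 * (1 + 2 * N * δ ^ 2) ^ ℓ) := ⟨_, rfl⟩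
  have hB0 : 0 ≤ B := by rw [hB]; positivity
  rw [← hB]
  have h := incr (J := J) (x := x) (δ := δ) (Finset.univ : Finset Unit) (P := fun _ => P)
    (Q := fun _ => Q) (fun _ _ => hn) (fun _ => 1) (c := fun e => if e ∈ P ++ Q then B else 0)
    (fun e T' he => by
      unfold Dn
      split_ifs with h
      · rw [hB]
        have e1 : (Finset.univ.filter fun _ : Unit => e ∈ P ++ Q) = Finset.univ := by
          rw [Finset.filter_eq_self]; intro _ _; exact h
        simp only [e1, one_smul, Finset.univ_unique, Finset.sum_singleton]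
        exact gq_pure hn hu h hℓ
      · have e1 : (Finset.univ.filter fun _ : Unit => e ∈ P ++ Q) = ∅ := by
          rw [Finset.filter_eq_empty_iff]; intro _ _; exact h
        simp only [e1, Finset.sum_empty]
        simp [av_const]) T
  simp only [one_smul, Finset.univ_unique, Finset.sum_singleton] at h
  refine h.trans ?_
  rw [← Finset.sum_filter, Finset.sum_const, nsmul_eq_mul, mul_comm]
  refine mul_le_mul_of_nonneg_left ?_ hB0
  have h1 : (T.filter fun e => e ∈ P ++ Q).card ≤ ((P ++ Q).toFinset).card :=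
    Finset.card_le_card fun e he => List.mem_toFinset.2 (Finset.mem_filter.1 he).2
  have h2 := h1.trans ((List.toFinset_card_le _).trans hℓ)
  exact_mod_cast h2

section weights

variable {ι : Type*}

/-- Cauchy-Schwarz with weights -/
lemma cs_w {O : Type*} (S : Finset O) {w : O → ℝ} (hw : ∀ o, 0 ≤ w o) (Z : O → Mat N) :
    ‖∑ o ∈ S, w o • Z o‖ ^ 2 ≤ (∑ o ∈ S, w o) * ∑ o ∈ S, w o * ‖Z o‖ ^ 2 := by
  have e2 : ‖∑ o ∈ S, w o • Z o‖ ≤ ∑ o ∈ S, w o * ‖Z o‖ := by
    refine (norm_sum_le _ _).trans (Finset.sum_le_sum fun o _ => ?_)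
    rw [norm_smul, Real.norm_eq_abs, abs_of_nonneg (hw o)]
  have e3 := pow_le_pow_left₀ (norm_nonneg _) e2 2
  have e4 := Finset.sum_mul_sq_le_sq_mul_sq S (fun o => Real.sqrt (w o))
    (fun o => Real.sqrt (w o) * ‖Z o‖)
  have e5 : ∀ o, Real.sqrt (w o) * Real.sqrt (w o) = w o := fun o => Real.mul_self_sqrt (hw o)
  have e6 : ∀ o, Real.sqrt (w o) ^ 2 = w o := fun o => Real.sq_sqrt (hw o)
  simp only [← mul_assoc, e5, mul_pow, e6] at e4
  exact e3.trans e4

end weights

lemma ind_sub {e : E} {Y Z : (IJ J N → Bool) → Mat N} (hY : Ind e Y) (hZ : Ind e Z) :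
    Ind e fun s => Y s - Z s := fun s s' h => by
  show Y s - Z s = Y s' - Z s'
  rw [hY s s' h, hZ s s' h]

lemma ind_gq {α γ : E → ℝ} {e : E} {P Q : List E} (he : e ∉ P ++ Q) :
    Ind e fun s : IJ J N → Bool => gq J (nv x α γ δ s) P Q :=
  ind_mul (ind_nv fun h => he (List.mem_append_left _ h))
    (ind_ct (ind_nv fun h => he (List.mem_append_right _ h)))

/-- the noise on the links before and after -/
lemma av_pre {α γ : E → ℝ} {A B : List E} (hn : (A ++ B).Nodup) (hu : Un J x (A ++ B))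
    {D : (IJ J N → Bool) → Mat N} (hD : ∀ f ∈ A ++ B, Ind f D) :
    av (fun s => ‖pm J (nv x α γ δ s) A * (D s * (pm J (nv x α γ δ s) B)ᴴ)‖ ^ 2) =
      ((A ++ B).map fun e => α e ^ 2 + 2 * N * δ ^ 2 * γ e ^ 2).prod * av (fun s => ‖D s‖ ^ 2) := by
  have hd := List.disjoint_of_nodup_append hn
  have uP : Un J x A := hu.sub fun e he => List.mem_append_left _ he
  have uQ : Un J x B := hu.sub fun e he => List.mem_append_right _ he
  have h1 := av_pm (x := x) (α := α) (γ := γ) (δ := δ) hn.of_append_left uP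
    (Z := fun s => D s * (pm J (nv x α γ δ s) B)ᴴ) (fun e he => ind_mul
      (hD e (List.mem_append_left _ he)) (ind_ct (ind_nv fun h => hd he h)))
  have h2 := av_pm (x := x) (α := α) (γ := γ) (δ := δ) hn.of_append_right uQ
    (Z := fun s => (D s)ᴴ) (fun e he => ind_ct (hD e (List.mem_append_right _ he)))
  have e1 : ∀ s, ‖D s * (pm J (nv x α γ δ s) B)ᴴ‖ = ‖pm J (nv x α γ δ s) B * (D s)ᴴ‖ := by
    intro s
    rw [← norm_ct, conjTranspose_mul, conjTranspose_conjTranspose]
  simp only [e1, norm_ct] at h1 h2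
  rw [h1, h2, List.map_append, List.prod_append]
  ring

lemma gq_app (y : IJ J N → ℝ) (A M B M2 : List E) :
    gq J y (A ++ M) (B ++ M2) = pm J y A * (gq J y M M2 * (pm J y B)ᴴ) := by
  unfold gq
  rw [pm_append, pm_append, conjTranspose_mul]
  simp only [mul_assoc]

lemma perm_app (A M B M2 : List E) : ((A ++ M) ++ (B ++ M2)).Perm ((A ++ B) ++ (M ++ M2)) := by
  rw [List.append_assoc, List.append_assoc]
  refine List.Perm.append_left A ?_
  rw [← List.append_assoc, ← List.append_assoc]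
  exact List.Perm.append_right M2 List.perm_append_comm

/-- **the response of a difference of families** -/
theorem diff_resp {O : Type*} (S : Finset O) {A B M M2 M' M2' : O → List E}
    (hn : ∀ o ∈ S, ((A o ++ M o) ++ (B o ++ M2 o)).Nodup)
    (hn' : ∀ o ∈ S, ((A o ++ M' o) ++ (B o ++ M2' o)).Nodup)
    (hu : ∀ o ∈ S, Un J x ((A o ++ M o) ++ (B o ++ M2 o)))
    (hu' : ∀ o ∈ S, Un J x ((A o ++ M' o) ++ (B o ++ M2' o)))
    {w : O → ℝ} (hw : ∀ o, 0 ≤ w o) {ℓ : ℕ}
    (hℓ : ∀ o ∈ S, ((A o ++ M o) ++ (B o ++ M2 o)).length ≤ ℓ)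
    (hℓ' : ∀ o ∈ S, ((A o ++ M' o) ++ (B o ++ M2' o)).length ≤ ℓ)
    {σ : ℝ} (hσ : σ = 2 * N * δ ^ 2) (hσℓ : σ * ℓ ≤ 1) :
    av (fun s : IJ J N → Bool => ‖∑ o ∈ S, w o • (gq J (x + sg δ s) (A o ++ M o) (B o ++ M2 o) -
        gq J (x + sg δ s) (A o ++ M' o) (B o ++ M2' o)) -
      ∑ o ∈ S, w o • (gq J x (A o ++ M o) (B o ++ M2 o) -
        gq J x (A o ++ M' o) (B o ++ M2' o))‖ ^ 2) ≤
      ∑ e, (9 * N * σ * ((∑ o ∈ S.filter (fun o => e ∈ M o ++ M2 o), w o) ^ 2 +
          (∑ o ∈ S.filter (fun o => e ∈ M' o ++ M2' o), w o) ^ 2) +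
        9 * σ * ((∑ o ∈ S.filter (fun o => e ∈ A o ++ B o), w o) *
          ∑ o ∈ S.filter (fun o => e ∈ A o ++ B o), w o *
            (3 * ‖gq J x (M o) (M2 o) - gq J x (M' o) (M2' o)‖ ^ 2 + 18 * N * σ * ℓ))) := by
  have hσ0 : 0 ≤ σ := by rw [hσ]; positivity
  have hN0 : (0 : ℝ) ≤ N := Nat.cast_nonneg _
  have h3 : (1 + σ) ^ ℓ ≤ 3 := pow_le_three hσ0 le_rfl hσℓ
  obtain ⟨P, hP⟩ : ∃ P : O × Bool → List E, P = fun p => bif p.2 then A p.1 ++ M p.1 else
    A p.1 ++ M' p.1 := ⟨_, rfl⟩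
  obtain ⟨Q, hQ⟩ : ∃ Q : O × Bool → List E, Q = fun p => bif p.2 then B p.1 ++ M2 p.1 else
    B p.1 ++ M2' p.1 := ⟨_, rfl⟩
  obtain ⟨v, hv⟩ : ∃ v : O × Bool → ℝ, v = fun p => bif p.2 then w p.1 else -w p.1 := ⟨_, rfl⟩
  have hsum : ∀ y : IJ J N → ℝ, ∑ p ∈ S ×ˢ (Finset.univ : Finset Bool),
      v p • gq J y (P p) (Q p) = ∑ o ∈ S, w o • (gq J y (A o ++ M o) (B o ++ M2 o) -
        gq J y (A o ++ M' o) (B o ++ M2' o)) := by
    intro y
    rw [Finset.sum_product]
    refine Finset.sum_congr rfl fun o _ => ?_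
    rw [Fintype.sum_bool, hP, hQ, hv]
    simp only [cond_true, cond_false]
    rw [smul_sub, neg_smul, sub_eq_add_neg]
  have hmem : ∀ (e : E) (A M B M2 : List E), e ∈ (A ++ M) ++ (B ++ M2) ↔
      e ∈ A ++ B ∨ e ∈ M ++ M2 := by
    intro e A M B M2
    simp only [List.mem_append]
    tauto
  have hpn : ∀ o ∈ S, ((A o ++ B o) ++ (M o ++ M2 o)).Nodup := fun o ho =>
    (perm_app (A o) (M o) (B o) (M2 o)).nodup_iff.1 (hn o ho)
  have hpn' : ∀ o ∈ S, ((A o ++ B o) ++ (M' o ++ M2' o)).Nodup := fun o ho =>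
    (perm_app (A o) (M' o) (B o) (M2' o)).nodup_iff.1 (hn' o ho)
  have hpu : ∀ o ∈ S, Un J x ((A o ++ B o) ++ (M o ++ M2 o)) := fun o ho =>
    (hu o ho).sub fun f hf => (perm_app (A o) (M o) (B o) (M2 o)).mem_iff.2 hf
  have hpu' : ∀ o ∈ S, Un J x ((A o ++ B o) ++ (M' o ++ M2' o)) := fun o ho =>
    (hu' o ho).sub fun f hf => (perm_app (A o) (M' o) (B o) (M2' o)).mem_iff.2 hf
  have hpl : ∀ o ∈ S, ((A o ++ B o) ++ (M o ++ M2 o)).length ≤ ℓ := fun o ho => by
    rw [← (perm_app (A o) (M o) (B o) (M2 o)).length_eq]; exact hℓ o ho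
  have hpl' : ∀ o ∈ S, ((A o ++ B o) ++ (M' o ++ M2' o)).length ≤ ℓ := fun o ho => by
    rw [← (perm_app (A o) (M' o) (B o) (M2' o)).length_eq]; exact hℓ' o ho
  have h := incr (J := J) (x := x) (δ := δ) (S ×ˢ (Finset.univ : Finset Bool)) (P := P) (Q := Q)
    (fun p hp => by
      obtain ⟨o, b⟩ := p
      have ho := (Finset.mem_product.1 hp).1
      rw [hP, hQ]
      cases b
      · exact hn' o ho
      · exact hn o ho) v
    (c := fun e => 9 * N * σ * ((∑ o ∈ S.filter (fun o => e ∈ M o ++ M2 o), w o) ^ 2 +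
          (∑ o ∈ S.filter (fun o => e ∈ M' o ++ M2' o), w o) ^ 2) +
        9 * σ * ((∑ o ∈ S.filter (fun o => e ∈ A o ++ B o), w o) *
          ∑ o ∈ S.filter (fun o => e ∈ A o ++ B o), w o *
            (3 * ‖gq J x (M o) (M2 o) - gq J x (M' o) (M2' o)‖ ^ 2 + 18 * N * σ * ℓ)))
    (fun e T he => ?_) Finset.univ
  · have e1 : iS (Finset.univ : Finset E) = fun _ => 1 := by
      funext e; unfold iS; simp
    simp only [e1, nv_one, hsum] at h
    exact h
  · -- the increment
    obtain ⟨y, hy⟩ : ∃ y : (IJ J N → Bool) → IJ J N → ℝ,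
      y = fun s => nv x (al0 e) (iS (insert e T)) δ s := ⟨_, rfl⟩
    obtain ⟨Sc, hSc⟩ : ∃ Sc, Sc = S.filter fun o => e ∈ A o ++ B o := ⟨_, rfl⟩
    obtain ⟨Sm, hSm⟩ : ∃ Sm, Sm = S.filter fun o => e ∈ M o ++ M2 o := ⟨_, rfl⟩
    obtain ⟨Sn, hSn⟩ : ∃ Sn, Sn = S.filter fun o => e ∈ M' o ++ M2' o := ⟨_, rfl⟩
    have hdec : ∀ s, Dn (S ×ˢ (Finset.univ : Finset Bool)) P Q v x δ e T s =
        ∑ o ∈ Sc, w o • (gq J (y s) (A o ++ M o) (B o ++ M2 o) -
          gq J (y s) (A o ++ M' o) (B o ++ M2' o)) +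
        ∑ o ∈ Sm, w o • gq J (y s) (A o ++ M o) (B o ++ M2 o) -
        ∑ o ∈ Sn, w o • gq J (y s) (A o ++ M' o) (B o ++ M2' o) := by
      intro s
      unfold Dn
      rw [Finset.sum_filter, Finset.sum_product, hSc, hSm, hSn, Finset.sum_filter,
        Finset.sum_filter, Finset.sum_filter, ← Finset.sum_add_distrib, ← Finset.sum_sub_distrib]
      refine Finset.sum_congr rfl fun o ho => ?_
      rw [Fintype.sum_bool, hP, hQ, hv, hy]
      simp only [cond_true, cond_false, hmem]
      have d1 := List.disjoint_of_nodup_append (hpn o ho)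
      have d2 := List.disjoint_of_nodup_append (hpn' o ho)
      by_cases hc : e ∈ A o ++ B o
      · have h1 : e ∉ M o ++ M2 o := fun h => d1 hc h
        have h2 : e ∉ M' o ++ M2' o := fun h => d2 hc h
        simp only [hc, h1, h2, true_or, if_true, if_false, add_zero, sub_zero]
        rw [smul_sub, neg_smul, sub_eq_add_neg]
      · simp only [hc, false_or, if_false, zero_add]
        by_cases h1 : e ∈ M o ++ M2 o
        · by_cases h2 : e ∈ M' o ++ M2' o
          · simp only [h1, h2, if_true]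
            rw [neg_smul, sub_eq_add_neg]
          · simp only [h1, h2, if_true, if_false, add_zero, sub_zero]
        · by_cases h2 : e ∈ M' o ++ M2' o
          · simp only [h1, h2, if_true, if_false, zero_add, zero_sub]
            rw [neg_smul]
          · simp only [h1, h2, if_false, zero_add, sub_zero]
    obtain ⟨X1, hX1⟩ : ∃ X1 : (IJ J N → Bool) → Mat N, X1 = fun s =>
      ∑ o ∈ Sc, w o • (gq J (y s) (A o ++ M o) (B o ++ M2 o) -
          gq J (y s) (A o ++ M' o) (B o ++ M2' o)) := ⟨_, rfl⟩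
    obtain ⟨X2, hX2⟩ : ∃ X2 : (IJ J N → Bool) → Mat N, X2 = fun s =>
      ∑ o ∈ Sm, w o • gq J (y s) (A o ++ M o) (B o ++ M2 o) := ⟨_, rfl⟩
    obtain ⟨X3, hX3⟩ : ∃ X3 : (IJ J N → Bool) → Mat N, X3 = fun s =>
      ∑ o ∈ Sn, w o • gq J (y s) (A o ++ M' o) (B o ++ M2' o) := ⟨_, rfl⟩
    have hpt : ∀ s, ‖Dn (S ×ˢ (Finset.univ : Finset Bool)) P Q v x δ e T s‖ ^ 2 ≤
        3 * ‖X1 s‖ ^ 2 + 3 * ‖X2 s‖ ^ 2 + 3 * ‖X3 s‖ ^ 2 := by
      intro s
      have e1 : Dn (S ×ˢ (Finset.univ : Finset Bool)) P Q v x δ e T s = X1 s + X2 s - X3 s := by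
        rw [hdec, hX1, hX2, hX3]
      rw [e1]
      have t1 := norm_sub_le (X1 s + X2 s) (X3 s)
      have t2 := norm_add_le (X1 s) (X2 s)
      have n0 := norm_nonneg (X1 s + X2 s - X3 s)
      have t3 : ‖X1 s + X2 s - X3 s‖ ^ 2 ≤ (‖X1 s‖ + ‖X2 s‖ + ‖X3 s‖) ^ 2 :=
        pow_le_pow_left₀ n0 (by linarith) 2
      nlinarith [sq_nonneg (‖X1 s‖ - ‖X2 s‖), sq_nonneg (‖X2 s‖ - ‖X3 s‖),
        sq_nonneg (‖X1 s‖ - ‖X3 s‖)]
    have hav : av (fun s => ‖Dn (S ×ˢ (Finset.univ : Finset Bool)) P Q v x δ e T s‖ ^ 2) ≤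
        3 * av (fun s => ‖X1 s‖ ^ 2) + 3 * av (fun s => ‖X2 s‖ ^ 2) +
          3 * av (fun s => ‖X3 s‖ ^ 2) := by
      refine (av_mono hpt).trans (le_of_eq ?_)
      rw [av_add, av_add, av_smul, av_smul, av_smul]
    -- the middle parts
    have h2 : av (fun s => ‖X2 s‖ ^ 2) ≤ 3 * N * σ * (∑ o ∈ Sm, w o) ^ 2 := by
      have j0 : 0 ≤ ∑ o ∈ Sm, w o := Finset.sum_nonneg fun o _ => hw o
      have e1 : ∀ s, ‖X2 s‖ ^ 2 ≤ (∑ o ∈ Sm, w o) * ∑ o ∈ Sm, w o *
          ‖gq J (y s) (A o ++ M o) (B o ++ M2 o)‖ ^ 2 := fun s => by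
        rw [hX2]; exact cs_w Sm hw _
      refine (av_mono e1).trans ?_
      rw [av_smul, av_sum]
      have e2 : ∀ o ∈ Sm, av (fun s => w o * ‖gq J (y s) (A o ++ M o) (B o ++ M2 o)‖ ^ 2) ≤
          w o * (3 * N * σ) := by
        intro o ho
        rw [hSm] at ho
        obtain ⟨ho1, ho2⟩ := Finset.mem_filter.1 ho
        rw [av_smul]
        refine mul_le_mul_of_nonneg_left ?_ (hw o)
        rw [hy]
        refine (gq_pure (hn o ho1) (hu o ho1) ((hmem e _ _ _ _).2 (Or.inr ho2))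
          (hℓ o ho1)).trans ?_
        rw [← hσ]
        have := mul_le_mul_of_nonneg_left h3 (mul_nonneg hN0 hσ0)
        linarith
      calc _ ≤ (∑ o ∈ Sm, w o) * ∑ o ∈ Sm, w o * (3 * N * σ) :=
            mul_le_mul_of_nonneg_left (Finset.sum_le_sum e2) j0
        _ = _ := by rw [← Finset.sum_mul]; ring
    have h2' : av (fun s => ‖X3 s‖ ^ 2) ≤ 3 * N * σ * (∑ o ∈ Sn, w o) ^ 2 := by
      have j0 : 0 ≤ ∑ o ∈ Sn, w o := Finset.sum_nonneg fun o _ => hw o
      have e1 : ∀ s, ‖X3 s‖ ^ 2 ≤ (∑ o ∈ Sn, w o) * ∑ o ∈ Sn, w o *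
          ‖gq J (y s) (A o ++ M' o) (B o ++ M2' o)‖ ^ 2 := fun s => by
        rw [hX3]; exact cs_w Sn hw _
      refine (av_mono e1).trans ?_
      rw [av_smul, av_sum]
      have e2 : ∀ o ∈ Sn, av (fun s => w o * ‖gq J (y s) (A o ++ M' o) (B o ++ M2' o)‖ ^ 2) ≤
          w o * (3 * N * σ) := by
        intro o ho
        rw [hSn] at ho
        obtain ⟨ho1, ho2⟩ := Finset.mem_filter.1 ho
        rw [av_smul]
        refine mul_le_mul_of_nonneg_left ?_ (hw o)
        rw [hy]
        refine (gq_pure (hn' o ho1) (hu' o ho1) ((hmem e _ _ _ _).2 (Or.inr ho2))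
          (hℓ' o ho1)).trans ?_
        rw [← hσ]
        have := mul_le_mul_of_nonneg_left h3 (mul_nonneg hN0 hσ0)
        linarith
      calc _ ≤ (∑ o ∈ Sn, w o) * ∑ o ∈ Sn, w o * (3 * N * σ) :=
            mul_le_mul_of_nonneg_left (Finset.sum_le_sum e2) j0
        _ = _ := by rw [← Finset.sum_mul]; ring
    -- the common part
    have h1 : av (fun s => ‖X1 s‖ ^ 2) ≤ 3 * σ * ((∑ o ∈ Sc, w o) * ∑ o ∈ Sc, w o *
        (3 * ‖gq J x (M o) (M2 o) - gq J x (M' o) (M2' o)‖ ^ 2 + 18 * N * σ * ℓ)) := by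
      have j0 : 0 ≤ ∑ o ∈ Sc, w o := Finset.sum_nonneg fun o _ => hw o
      have e1 : ∀ s, ‖X1 s‖ ^ 2 ≤ (∑ o ∈ Sc, w o) * ∑ o ∈ Sc, w o *
          ‖gq J (y s) (A o ++ M o) (B o ++ M2 o) -
            gq J (y s) (A o ++ M' o) (B o ++ M2' o)‖ ^ 2 := fun s => by
        rw [hX1]; exact cs_w Sc hw _
      refine (av_mono e1).trans ?_
      rw [av_smul, av_sum]
      have e2 : ∀ o ∈ Sc, av (fun s => w o * ‖gq J (y s) (A o ++ M o) (B o ++ M2 o) -
            gq J (y s) (A o ++ M' o) (B o ++ M2' o)‖ ^ 2) ≤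
          w o * (3 * σ * (3 * ‖gq J x (M o) (M2 o) - gq J x (M' o) (M2' o)‖ ^ 2 +
            18 * N * σ * ℓ)) := by
        intro o ho
        rw [hSc] at ho
        obtain ⟨ho1, ho2⟩ := Finset.mem_filter.1 ho
        rw [av_smul]
        refine mul_le_mul_of_nonneg_left ?_ (hw o)
        have d1 := List.disjoint_of_nodup_append (hpn o ho1)
        have d2 := List.disjoint_of_nodup_append (hpn' o ho1)
        obtain ⟨D, hD⟩ : ∃ D : (IJ J N → Bool) → Mat N, D = fun s =>
          gq J (y s) (M o) (M2 o) - gq J (y s) (M' o) (M2' o) := ⟨_, rfl⟩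
        have f1 : ∀ s, gq J (y s) (A o ++ M o) (B o ++ M2 o) -
            gq J (y s) (A o ++ M' o) (B o ++ M2' o) =
            pm J (y s) (A o) * (D s * (pm J (y s) (B o))ᴴ) := by
          intro s
          rw [gq_app, gq_app, hD, sub_mul, mul_sub]
        simp only [f1]
        have f2 : av (fun s => ‖pm J (y s) (A o) * (D s * (pm J (y s) (B o))ᴴ)‖ ^ 2) =
            ((A o ++ B o).map fun f => al0 e f ^ 2 + 2 * N * δ ^ 2 *
              iS (insert e T) f ^ 2).prod * av (fun s => ‖D s‖ ^ 2) := by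
          rw [hy]
          refine av_pre (hpn o ho1).of_append_left
            ((hpu o ho1).sub fun f hf => List.mem_append_left _ hf) fun f hf => ?_
          rw [hD, hy]
          exact ind_sub (ind_gq fun h => d1 hf h) (ind_gq fun h => d2 hf h)
        rw [f2, ← hσ]
        have f3 := al_prod (e := e) (T := T) hσ0 (hpn o ho1).of_append_left ho2 (ℓ := ℓ) (by
          have := hpl o ho1
          rw [List.length_append] at this
          omega)
        have f4 : σ * (1 + σ) ^ ℓ ≤ 3 * σ := by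
          have := mul_le_mul_of_nonneg_left h3 hσ0
          linarith
        have f5 : 0 ≤ av (fun s => ‖D s‖ ^ 2) := av_nonneg fun s => sq_nonneg _
        -- the size of `D`
        have f6 : av (fun s => ‖D s‖ ^ 2) ≤ 3 * ‖gq J x (M o) (M2 o) -
            gq J x (M' o) (M2' o)‖ ^ 2 + 18 * N * σ * ℓ := by
          have hne : ∀ {P Q : List E}, e ∉ P ++ Q → ∀ s, gq J (y s) P Q =
              gq J (nv x (fun _ => 1) (iS T) δ s) P Q := by
            intro P Q h s
            rw [hy]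
            refine gq_mx fun f hf => ?_
            have hfe : f ≠ e := fun h2 => h (h2 ▸ hf)
            rw [mx_nv, mx_nv]
            unfold al0 iS
            simp only [hfe, if_false, Finset.mem_insert, false_or]
          have g1 := gq_var (J := J) (x := x) (δ := δ) (P := M o) (Q := M2 o) (ℓ := ℓ)
            (hpn o ho1).of_append_right
            ((hpu o ho1).sub fun f hf => List.mem_append_right _ hf) (by
              have := hpl o ho1
              rw [List.length_append] at this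
              omega) T
          have g2 := gq_var (J := J) (x := x) (δ := δ) (P := M' o) (Q := M2' o) (ℓ := ℓ)
            (hpn' o ho1).of_append_right
            ((hpu' o ho1).sub fun f hf => List.mem_append_right _ hf) (by
              have := hpl' o ho1
              rw [List.length_append] at this
              omega) T
          rw [← hσ] at g1 g2
          have g3 : N * (σ * (1 + σ) ^ ℓ) * (ℓ : ℝ) ≤ 3 * N * σ * ℓ := by
            have h4 := mul_le_mul_of_nonneg_left f4 hN0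
            have h5 := mul_le_mul_of_nonneg_right h4 (Nat.cast_nonneg ℓ : (0 : ℝ) ≤ ℓ)
            linarith
          obtain ⟨a, ha⟩ : ∃ a : (IJ J N → Bool) → Mat N, a = fun s =>
            gq J (nv x (fun _ => 1) (iS T) δ s) (M o) (M2 o) - gq J x (M o) (M2 o) := ⟨_, rfl⟩
          obtain ⟨b, hb⟩ : ∃ b : (IJ J N → Bool) → Mat N, b = fun s =>
            gq J (nv x (fun _ => 1) (iS T) δ s) (M' o) (M2' o) - gq J x (M' o) (M2' o) :=
            ⟨_, rfl⟩
          obtain ⟨c, hc⟩ : ∃ c : Mat N, c = gq J x (M o) (M2 o) - gq J x (M' o) (M2' o) :=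
            ⟨_, rfl⟩
          have g4 : ∀ s, D s = c + a s - b s := by
            intro s
            rw [hD, ha, hb, hc]
            simp only
            rw [hne (fun h => d1 ho2 h) s, hne (fun h => d2 ho2 h) s]
            abel
          have g5 : ∀ s, ‖D s‖ ^ 2 ≤ 3 * ‖c‖ ^ 2 + 3 * ‖a s‖ ^ 2 + 3 * ‖b s‖ ^ 2 := by
            intro s
            rw [g4]
            have t1 := norm_sub_le (c + a s) (b s)
            have t2 := norm_add_le c (a s)
            have n0 := norm_nonneg (c + a s - b s)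
            have t3 : ‖c + a s - b s‖ ^ 2 ≤ (‖c‖ + ‖a s‖ + ‖b s‖) ^ 2 :=
              pow_le_pow_left₀ n0 (by linarith) 2
            nlinarith [sq_nonneg (‖c‖ - ‖a s‖), sq_nonneg (‖a s‖ - ‖b s‖),
              sq_nonneg (‖c‖ - ‖b s‖)]
          refine (av_mono g5).trans ?_
          rw [av_add, av_add, av_const, av_smul, av_smul, ← hc]
          have g6 : av (fun s => ‖a s‖ ^ 2) ≤ 3 * N * σ * ℓ := by
            rw [ha]; exact g1.trans g3
          have g7 : av (fun s => ‖b s‖ ^ 2) ≤ 3 * N * σ * ℓ := by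
            rw [hb]; exact g2.trans g3
          linarith
        exact mul_le_mul (f3.trans f4) f6 f5 (by positivity)
      calc _ ≤ (∑ o ∈ Sc, w o) * ∑ o ∈ Sc, w o * (3 * σ * (3 * ‖gq J x (M o) (M2 o) -
            gq J x (M' o) (M2' o)‖ ^ 2 + 18 * N * σ * ℓ)) :=
            mul_le_mul_of_nonneg_left (Finset.sum_le_sum e2) j0
        _ = _ := by
            have e3 : ∀ o, w o * (3 * σ * (3 * ‖gq J x (M o) (M2 o) -
                gq J x (M' o) (M2' o)‖ ^ 2 + 18 * N * σ * ℓ)) = 3 * σ * (w o *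
                (3 * ‖gq J x (M o) (M2 o) - gq J x (M' o) (M2' o)‖ ^ 2 + 18 * N * σ * ℓ)) :=
              fun o => by ring
            rw [Finset.sum_congr rfl fun o _ => e3 o, ← Finset.mul_sum]
            ring
    refine hav.trans ?_
    rw [← hSc, ← hSm, ← hSn]
    linarith

end

end Pool.Agent.V11322
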