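import Mathlib
import Pool.Agent.Y14.Shift
import Pool.Agent.V11260.Fan

/-!
# The shift of the links in a box, with hierarchical frames
-/

open MeasureTheory Matrix Filter
open scoped Matrix.Norms.Frobenius Topology
open Pool.Agent.H906R3.YM hiding Pl
open Pool.Agent.W793.YM Pool.Agent.TH618.YM Pool.Agent.Y14 Pool.Agent.V11260

namespace Pool.Agent.V11322

set_option linter.unusedSectionVars false
set_option linter.unusedVariables false

noncomputable section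

/-! ### hierarchical words -/

section words

variable {d : ℕ}

/-- the word which leads to the point `y`, along dyadic steps of decreasing size -/
def hw (i : Fin d) : ℕ → (Fin d → ℕ) → List (Fin d)
  | 0, _ => []
  | k + 1, y => cmb (fun j => y j / 2 ^ k * 2 ^ k) (od i) ++ hw i k (fun j => y j % 2 ^ k)

lemma not_mem_cmb {v : Fin d → ℕ} {τ : Fin d} (h : v τ = 0) (K : List (Fin d)) :
    τ ∉ cmb v K := fun h1 => (mem_cmb h1).2 h

lemma not_mem_hw {i τ : Fin d} {k : ℕ} {y : Fin d → ℕ} (h : y τ = 0) : τ ∉ hw i k y := by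
  induction k generalizing y with
  | zero => simp [hw]
  | succ k ih =>
    rw [hw, List.mem_append, not_or]
    exact ⟨not_mem_cmb (by simp [h]) _, ih (by simp [h])⟩

/-- the number of the levels -/
def lv (q : ℕ) : ℕ := Nat.log 2 q + 3

lemma lv_pow (K : ℕ) : lv (2 ^ K) = K + 3 := by
  unfold lv
  rw [Nat.log_pow (by norm_num)]

end words

variable {e m : ℕ} [NeZero m]

/-- the word of the frame at the point with the coordinates `v` -/
def wd (q : ℕ) (v : Fin (e + 3) → ℕ) : List (Fin (e + 3)) :=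
  List.replicate (v 0) 0 ++ hw 0 (lv q) (Function.update v 0 0)

/-- the weight of the shift -/
def kk (q : ℕ) (x : Fin (e + 3) → ZMod (2 * m)) : ℝ :=
  if 2 * q ≤ wv x 0 ∧ wv x 0 < 3 * q then ∏ j ∈ Finset.univ.erase (0 : Fin (e + 3)), tnt q (wv x j)
  else 0

lemma kk_nonneg (q : ℕ) (x : Fin (e + 3) → ZMod (2 * m)) : 0 ≤ kk q x := by
  unfold kk
  split_ifs
  · exact Finset.prod_nonneg fun _ _ => tnt_nonneg _ _
  · exact le_rfl

lemma kk_le (q : ℕ) (x : Fin (e + 3) → ZMod (2 * m)) : kk q x ≤ 1 := by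
  unfold kk
  split_ifs
  · exact Finset.prod_le_one (fun _ _ => tnt_nonneg _ _) fun _ _ => tnt_le _ _
  · exact zero_le_one

lemma kk_ne {q : ℕ} (hq : 1 ≤ q) {x : Fin (e + 3) → ZMod (2 * m)} (h : kk q x ≠ 0) :
    (2 * q ≤ wv x 0 ∧ wv x 0 < 3 * q) ∧ ∀ j, j ≠ 0 → 0 < wv x j ∧ wv x j < 4 * q := by
  unfold kk at h
  split_ifs at h with h1
  · refine ⟨h1, fun j hj => tnt_ne hq fun h2 => h ?_⟩
    exact Finset.prod_eq_zero (Finset.mem_erase.2 ⟨hj, Finset.mem_univ _⟩) h2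
  · exact absurd rfl h

lemma kk_lip {q : ℕ} (hq : 1 ≤ q) {x : Fin (e + 3) → ZMod (2 * m)} {j : Fin (e + 3)} (hj : j ≠ 0)
    (h : wv x j + 1 < 2 * m) : |kk q x - kk q (x + eT j)| ≤ 1 / (2 * q) := by
  have h0 : wv (x + eT j) 0 = wv x 0 := wv_add_ne hj.symm
  have hw := wv_add (x := x) (k := j) h
  have hq0 : (0 : ℝ) ≤ 1 / (2 * q) := by positivity
  unfold kk
  rw [h0]
  split_ifs with h1
  · have hje : j ∈ Finset.univ.erase (0 : Fin (e + 3)) :=
      Finset.mem_erase.2 ⟨hj, Finset.mem_univ _⟩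
    rw [← Finset.mul_prod_erase _ _ hje, ← Finset.mul_prod_erase _ _ hje]
    have h2 : ∏ x_1 ∈ (Finset.univ.erase (0 : Fin (e + 3))).erase j, tnt q (wv (x + eT j) x_1) =
        ∏ x_1 ∈ (Finset.univ.erase (0 : Fin (e + 3))).erase j, tnt q (wv x x_1) := by
      refine Finset.prod_congr rfl fun i hi => ?_
      rw [wv_add_ne (Finset.mem_erase.1 hi).1]
    have h3 : wv (x + eT j) j = wv x j + 1 := by
      rw [hw, Pi.add_apply, es_same]
    rw [h2, h3, ← sub_mul, abs_mul]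
    have h4 : |∏ x_1 ∈ (Finset.univ.erase (0 : Fin (e + 3))).erase j, tnt q (wv x x_1)| ≤ 1 := by
      rw [abs_of_nonneg (Finset.prod_nonneg fun _ _ => tnt_nonneg _ _)]
      exact Finset.prod_le_one (fun _ _ => tnt_nonneg _ _) fun _ _ => tnt_le _ _
    calc _ ≤ (1 / (2 * q) : ℝ) * 1 := mul_le_mul (tnt_lip hq) h4 (abs_nonneg _) hq0
      _ = _ := mul_one _
  · rw [sub_self, abs_zero]; exact hq0

lemma kk_low {q : ℕ} (hq : 1 ≤ q) {x : Fin (e + 3) → ZMod (2 * m)} (h : 2 * q ≤ wv x 0 ∧ wv x 0 < 3 * q)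
    (h' : ∀ j, j ≠ 0 → q ≤ wv x j ∧ wv x j ≤ 3 * q) : (1 / 2 : ℝ) ^ (e + 2) ≤ kk q x := by
  unfold kk
  rw [if_pos h]
  have h1 : (1 / 2 : ℝ) ^ (e + 2) = ∏ _j ∈ Finset.univ.erase (0 : Fin (e + 3)), (1 / 2 : ℝ) := by
    rw [Finset.prod_const, Finset.card_erase_of_mem (Finset.mem_univ _), Finset.card_univ,
      Fintype.card_fin]
    rfl
  rw [h1]
  refine Finset.prod_le_prod (fun _ _ => by norm_num) fun j hj => ?_
  have := h' j (Finset.mem_erase.1 hj).1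
  exact tnt_low hq this.1 this.2

/-! ### the shift -/

section alg

variable {G : Type*} [Group G] [TopologicalSpace G] {N n : ℕ} (L : LD G N n)

/-- the transport from the origin along the word of the frame -/
def TT (q : ℕ) (U : Ed (e + 3) (2 * m) → G) (x : Fin (e + 3) → ZMod (2 * m)) : G :=
  tp eT U 0 (wd q (wv x))

/-- the factor -/
def hh (q : ℕ) (a : Fin n) (s : ℝ) (U : Ed (e + 3) (2 * m) → G)
    (x : Fin (e + 3) → ZMod (2 * m)) : G :=
  (TT q U x)⁻¹ * L.ex a (s * kk q x) * TT q U x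

/-- the shift -/
def Ps (q : ℕ) (a : Fin n) (s : ℝ) (U : Ed (e + 3) (2 * m) → G) : Ed (e + 3) (2 * m) → G :=
  fun f => if f.2 = 0 then hh L q a s U f.1 * U f else U f

variable {L}

lemma hh_one {q : ℕ} {a : Fin n} {s : ℝ} {U : Ed (e + 3) (2 * m) → G}
    {x : Fin (e + 3) → ZMod (2 * m)} (h : kk q x = 0) : hh L q a s U x = 1 := by
  unfold hh
  rw [h, mul_zero, L.ex_zero]
  group

lemma Ps_eq {q : ℕ} {a : Fin n} {s : ℝ} {U : Ed (e + 3) (2 * m) → G} {f : Ed (e + 3) (2 * m)}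
    (h : ¬(f.2 = 0 ∧ kk q f.1 ≠ 0)) : Ps L q a s U f = U f := by
  unfold Ps
  split_ifs with h1
  · have h2 : kk q f.1 = 0 := by
      by_contra h3
      exact h ⟨h1, h3⟩
    rw [hh_one h2, one_mul]
  · rfl

lemma kk_axis {q : ℕ} (hq : 1 ≤ q) {x : Fin (e + 3) → ZMod (2 * m)} {j : Fin (e + 3)} (hj : j ≠ 0)
    (h : x j = 0) : kk q x = 0 := by
  by_contra h1
  have h2 := ((kk_ne hq h1).2 j hj).1
  unfold wv at h2
  rw [h, ZMod.val_zero] at h2
  omega

lemma smul_zero_coord (s : ℕ) {j : Fin (e + 3)} (hj : j ≠ 0) :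
    ((0 : Fin (e + 3) → ZMod (2 * m)) + s • eT 0 : Fin (e + 3) → ZMod (2 * m)) j = 0 := by
  simp [eT, hj]

/-- the links of the word of the frame are not shifted -/
lemma wd_unsh {q : ℕ} (hq : 1 ≤ q) {v : Fin (e + 3) → ℕ} {f : Ed (e + 3) (2 * m)}
    (h : f ∈ lk eT 0 (wd q v)) : ¬(f.2 = 0 ∧ kk q f.1 ≠ 0) := by
  rintro ⟨h1, h2⟩
  unfold wd at h
  rw [lk_append, List.mem_append] at h
  rcases h with h | h
  · obtain ⟨_, s, _, hs⟩ := mem_lk_rep h
    refine h2 (kk_axis hq one_ne ?_)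
    rw [hs]
    exact smul_zero_coord s one_ne
  · have h3 := lk_dir h
    rw [h1] at h3
    exact not_mem_hw (by simp) h3

lemma TT_congr {q : ℕ} (hq : 1 ≤ q) {U U' : Ed (e + 3) (2 * m) → G}
    (h : ∀ f : Ed (e + 3) (2 * m), ¬(f.2 = 0 ∧ kk q f.1 ≠ 0) → U f = U' f)
    (x : Fin (e + 3) → ZMod (2 * m)) : TT q U x = TT q U' x :=
  tp_congr fun f hf => h f (wd_unsh hq hf)

lemma TT_Ps {q : ℕ} (hq : 1 ≤ q) (a : Fin n) (s : ℝ) (U : Ed (e + 3) (2 * m) → G)
    (x : Fin (e + 3) → ZMod (2 * m)) : TT q (Ps L q a s U) x = TT q U x :=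
  TT_congr hq (fun f hf => Ps_eq hf) x

lemma Ps_Ps {q : ℕ} (hq : 1 ≤ q) (a : Fin n) (s t : ℝ) (U : Ed (e + 3) (2 * m) → G) :
    Ps L q a s (Ps L q a t U) = Ps L q a (s + t) U := by
  funext f
  have h1 : ∀ (r : ℝ) (V : Ed (e + 3) (2 * m) → G), Ps L q a r V f =
      if f.2 = 0 then (TT q V f.1)⁻¹ * L.ex a (r * kk q f.1) * TT q V f.1 * V f else V f :=
    fun r V => rfl
  rw [h1 s, h1 t, h1 (s + t), TT_Ps hq]
  split_ifs with h
  · rw [add_mul, L.ex_add]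
    group
  · rfl

lemma Ps_zero (q : ℕ) (a : Fin n) (U : Ed (e + 3) (2 * m) → G) : Ps L q a 0 U = U := by
  funext f
  unfold Ps hh
  rw [zero_mul, L.ex_zero]
  split_ifs
  · group
  · rfl

lemma hh_neg (q : ℕ) (a : Fin n) (s : ℝ) (U : Ed (e + 3) (2 * m) → G)
    (x : Fin (e + 3) → ZMod (2 * m)) : hh L q a (-s) U x = (hh L q a s U x)⁻¹ := by
  unfold hh
  rw [neg_mul, ex_neg']
  group

end alg

end

end Pool.Agent.V11322
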