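import Mathlib
import Pool.Agent.V11260.Core
import Pool.Agent.Y14.Energy
import Pool.Agent.V11322.YM.Sh2

/-!
# Hierarchical words: sorting and neighbours
-/

open MeasureTheory Matrix Filter
open scoped Matrix.Norms.Frobenius Topology
open Pool.Agent.H906R3.YM hiding Pl
open Pool.Agent.W793.YM Pool.Agent.TH618.YM Pool.Agent.Y14 Pool.Agent.V11260

namespace Pool.Agent.V11322

set_option linter.unusedSectionVars false
set_option linter.unusedVariables false

noncomputable section

/-! ### the carry scale -/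

/-- the scale of the carry when `t` is increased by one -/
def cs : ℕ → ℕ → ℕ
  | 0, _ => 1
  | k + 1, t => if t % 2 ^ k = 2 ^ k - 1 then 2 ^ (k + 1) else cs k (t % 2 ^ k)

lemma cs_sum (k : ℕ) : ∑ t ∈ Finset.range (2 ^ k), cs k t ≤ (2 * k + 1) * 2 ^ k := by
  induction k with
  | zero => simp [cs]
  | succ k ih =>
    have h1 : ∀ t < 2 ^ k, ∀ s, s % 2 ^ k = t → cs (k + 1) s ≤ cs k t +
        if t = 2 ^ k - 1 then 2 ^ (k + 1) else 0 := by
      intro t ht s hs
      rw [cs, hs]
      split_ifs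
      · omega
      · omega
    have e1 : 2 ^ (k + 1) = 2 ^ k + 2 ^ k := by ring
    have h2 : ∑ t ∈ Finset.range (2 ^ k), (cs k t + if t = 2 ^ k - 1 then 2 ^ (k + 1) else 0) ≤
        (2 * k + 1) * 2 ^ k + 2 ^ (k + 1) := by
      rw [Finset.sum_add_distrib]
      refine Nat.add_le_add ih ?_
      rw [Finset.sum_ite_eq']
      split_ifs
      · exact le_rfl
      · exact Nat.zero_le _
    have h3 : ∑ t ∈ Finset.range (2 ^ k), cs (k + 1) t ≤ (2 * k + 1) * 2 ^ k + 2 ^ (k + 1) := by
      refine le_trans (Finset.sum_le_sum fun t ht => ?_) h2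
      exact h1 t (Finset.mem_range.1 ht) t (Nat.mod_eq_of_lt (Finset.mem_range.1 ht))
    have h4 : ∑ t ∈ Finset.range (2 ^ k), cs (k + 1) (2 ^ k + t) ≤
        (2 * k + 1) * 2 ^ k + 2 ^ (k + 1) := by
      refine le_trans (Finset.sum_le_sum fun t ht => ?_) h2
      refine h1 t (Finset.mem_range.1 ht) _ ?_
      rw [Nat.add_mod_left]
      exact Nat.mod_eq_of_lt (Finset.mem_range.1 ht)
    have h5 : Finset.range (2 ^ (k + 1)) = Finset.range (2 ^ k + 2 ^ k) := by rw [e1]
    rw [h5, Finset.sum_range_add]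
    calc _ ≤ ((2 * k + 1) * 2 ^ k + 2 ^ (k + 1)) + ((2 * k + 1) * 2 ^ k + 2 ^ (k + 1)) :=
          Nat.add_le_add h3 h4
      _ = (2 * (k + 1) + 1) * 2 ^ (k + 1) := by rw [e1]; ring

section words

variable {d : ℕ}

lemma dsp_hw {l : ℕ} (i : Fin d) {k : ℕ} {y : Fin d → ℕ} (hy : ∀ j, y j < 2 ^ k) :
    (dsp eT (hw i k y) : Fin d → ZMod l) = ct l y := by
  induction k generalizing y with
  | zero =>
    have h1 : y = fun _ => 0 := funext fun j => by have := hy j; omega
    rw [hw, dsp_nil, h1]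
    funext j
    simp [ct]
  | succ k ih =>
    rw [hw, dsp_append, ih fun j => Nat.mod_lt _ (by positivity),
      dsp_cmb _ (od_nodup i), od_toFinset, sum_eT, ← V11260.ct_add]
    congr 1
    funext j
    show y j / 2 ^ k * 2 ^ k + y j % 2 ^ k = y j
    rw [mul_comm]
    exact Nat.div_add_mod _ _

end words

variable {G : Type*} [Group G] [TopologicalSpace G] [IsTopologicalGroup G] [CompactSpace G]
  [SecondCountableTopology G] [MeasurableSpace G] [BorelSpace G] (μ : Measure G)
  [IsProbabilityMeasure μ] [μ.IsMulLeftInvariant] [μ.IsMulRightInvariant] [μ.IsInvInvariant]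
  {N n : ℕ} {L : LD G N n} {d m : ℕ} [NeZero m] {β : ℝ}

/-- the word of a comb is sorted -/
lemma St_cmb (i₀ : Fin d) (x : Fin d → ZMod (2 * m)) (v : Fin d → ℕ) :
    St μ L β i₀ x (cmb v (od i₀)) v 0 := by
  refine ⟨dsp_cmb_od i₀ v, ?_⟩
  simp only [dd_self, en_zero, le_refl]

/-- two sorted words one after the other -/
lemma St_pre {i₀ : Fin d} {x : Fin d → ZMod (2 * m)} {w w' : List (Fin d)} {v v' : Fin d → ℕ}
    {b b' : ℝ} {ρ : ℕ} {B : ℝ} (hB : 0 ≤ B)
    (hb : ∀ i j : Fin d, i ≠ j → ∀ a b, a ≤ ρ → b ≤ ρ → sR μ L m β i j a b ≤ B)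
    (hv : ∀ k, v k + v' k ≤ ρ) (h : St μ L β i₀ x w v b)
    (h' : St μ L β i₀ (x + ct (2 * m) v) w' v' b') :
    St μ L β i₀ x (w ++ w') (fun k => v k + v' k) (b + b' + d * (d * B)) := by
  have h1 := h.cmb μ (v' := v') hB hb (fun k => by have := hv k; omega) (K := od i₀)
    (fun k _ => hv k) (od_nodup i₀)
  have e0 : (fun k => v k + if k ∈ od i₀ then v' k else 0) = fun k => v k + v' k := by
    funext k
    rw [if_pos (mem_od i₀ k)]
  rw [e0, od_length] at h1
  obtain ⟨g1, g2⟩ := h1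
  obtain ⟨f1, f2⟩ := h
  obtain ⟨k1, k2⟩ := h'
  refine ⟨?_, ?_⟩
  · rw [dsp_append, f1, k1, ← V11260.ct_add]
  · refine (en_tri μ (L := L) (β := β) (tp_cont (u := eT) x (w ++ w'))
      (tp_cont (G := G) (u := eT) x (w ++ cmb v' (od i₀))) (tp_cont (u := eT) x _)).trans ?_
    have s1 : (fun U : Ed d (2 * m) → G => dd L (tp eT U x (w ++ w'))
        (tp eT U x (w ++ cmb v' (od i₀)))) = fun U => dd L (tp eT U (x + ct (2 * m) v) w')
        (tp eT U (x + ct (2 * m) v) (cmb v' (od i₀))) := by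
      funext U
      rw [tp_append, tp_append, f1, dd_lmul]
    rw [s1]
    have := add_le_add k2 g2
    linarith

/-- the hierarchical words are sorted -/
lemma hw_St {i₀ : Fin d} {b₀ : ℝ} (hb₀ : 0 ≤ b₀) {k : ℕ}
    (hb : ∀ k' ≤ k, ∀ i j : Fin d, i ≠ j → ∀ a b, a ≤ 2 ^ k' → b ≤ 2 ^ k' →
      sR μ L m β i j a b ≤ b₀ * Real.sqrt (2 ^ k')) {y : Fin d → ℕ} (hy : ∀ j, y j < 2 ^ k)
    (x : Fin d → ZMod (2 * m)) :
    St μ L β i₀ x (hw i₀ k y) y
      (d ^ 2 * (b₀ * ∑ i ∈ Finset.range k, Real.sqrt (2 ^ (i + 2)))) := by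
  induction k generalizing y x with
  | zero =>
    have h1 : y = fun _ => 0 := funext fun j => by have := hy j; omega
    refine ⟨dsp_hw i₀ hy, ?_⟩
    rw [hw, h1, cmb_zero]
    simp only [dd_self, en_zero, Finset.range_zero, Finset.sum_empty, mul_zero, le_refl]
  | succ k ih =>
    have h1 := St_cmb μ (L := L) (β := β) i₀ x (fun j => y j / 2 ^ k * 2 ^ k)
    have h2 := ih (fun k' hk' => hb k' (by omega)) (y := fun j => y j % 2 ^ k)
      (fun j => Nat.mod_lt _ (by positivity))
      (x + ct (2 * m) fun j => y j / 2 ^ k * 2 ^ k)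
    have e1 : ∀ j, y j / 2 ^ k * 2 ^ k + y j % 2 ^ k = y j := fun j => by
      rw [mul_comm]; exact Nat.div_add_mod _ _
    have h3 := St_pre μ (B := b₀ * Real.sqrt (2 ^ (k + 2))) (ρ := 2 ^ (k + 1))
      (mul_nonneg hb₀ (Real.sqrt_nonneg _)) (fun i j hij a b ha hb' => by
        refine (hb (k + 1) le_rfl i j hij a b ha hb').trans
          (mul_le_mul_of_nonneg_left (Real.sqrt_le_sqrt ?_) hb₀)
        exact pow_le_pow_right₀ (by norm_num) (by omega)) (fun j => by
        rw [e1]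
        exact (hy j).le) h1 h2
    rw [hw]
    refine h3.mono μ e1 (le_of_eq ?_)
    rw [Finset.sum_range_succ]
    ring

/-- the constant of the neighbours -/
lemma geo' {b₀ : ℝ} (hb₀ : 0 ≤ b₀) (k : ℕ) (hd : 1 ≤ d) :
    2 * ((d : ℝ) ^ 2 * (b₀ * ∑ i ∈ Finset.range k, Real.sqrt (2 ^ (i + 2)))) +
      d * (b₀ * Real.sqrt (2 ^ k)) ≤ 11 * d ^ 2 * b₀ * Real.sqrt (2 ^ k) := by
  have h1 := geo k
  have hd1 : (1 : ℝ) ≤ d := by exact_mod_cast hd
  have h2 := mul_le_mul_of_nonneg_left h1 (by positivity : 0 ≤ 2 * (d : ℝ) ^ 2 * b₀)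
  have h3 : 0 ≤ b₀ * Real.sqrt (2 ^ k) := mul_nonneg hb₀ (Real.sqrt_nonneg _)
  have h4 : (d : ℝ) ≤ d ^ 2 := by nlinarith
  have h5 := mul_le_mul_of_nonneg_right h4 h3
  linarith

/-- neighbouring hierarchical words -/
lemma hw_nb {i₀ j : Fin d} {b₀ : ℝ} (hb₀ : 0 ≤ b₀) {k : ℕ}
    (hb : ∀ k' ≤ k, ∀ i j : Fin d, i ≠ j → ∀ a b, a ≤ 2 ^ k' → b ≤ 2 ^ k' →
      sR μ L m β i j a b ≤ b₀ * Real.sqrt (2 ^ k')) {y : Fin d → ℕ} (hy : ∀ i, y i < 2 ^ k)
    (hj : y j + 1 < 2 ^ k) (x : Fin d → ZMod (2 * m)) :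
    en μ L β (fun U : Ed d (2 * m) → G => dd L (tp eT U x (hw i₀ k y ++ List.replicate 1 j))
      (tp eT U x (hw i₀ k fun i => y i + if i = j then 1 else 0))) ≤
      11 * d ^ 2 * b₀ * Real.sqrt (cs k (y j)) := by
  have hd : 1 ≤ d := Nat.one_le_of_lt (Fin.pos j)
  induction k generalizing y x with
  | zero => simp at hj
  | succ k ih =>
    have hpk : 0 < 2 ^ k := by positivity
    have hml := Nat.mod_lt (y j) hpk
    rw [cs]
    split_ifs with hc
    · -- a carry
      have s1 := hw_St μ (L := L) (β := β) (i₀ := i₀) hb₀ hb hy x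
      have s2 := s1.rep μ (nn := 1) (ρ := 2 ^ (k + 1)) Nat.one_le_two_pow
        (mul_nonneg hb₀ (Real.sqrt_nonneg _)) (hb (k + 1) le_rfl) (fun i => (hy i).le) j
      have s3 := hw_St μ (L := L) (β := β) (i₀ := i₀) hb₀ hb
        (y := fun i => y i + if i = j then 1 else 0) (fun i => by
          by_cases hi : i = j
          · subst hi; simpa using hj
          · simpa [hi] using hy i) x
      refine (en_tri μ (L := L) (β := β) (tp_cont (u := eT) x _)
        (tp_cont (G := G) (u := eT) x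
          (cmb (fun i => y i + if i = j then 1 else 0) (od i₀))) (tp_cont (u := eT) x _)).trans ?_
      have e1 := s2.2
      have e2 := s3.2
      have e3 : (fun U : Ed d (2 * m) → G => dd L
          (tp eT U x (cmb (fun i => y i + if i = j then 1 else 0) (od i₀)))
          (tp eT U x (hw i₀ (k + 1) fun i => y i + if i = j then 1 else 0))) = fun U => dd L
          (tp eT U x (hw i₀ (k + 1) fun i => y i + if i = j then 1 else 0))
          (tp eT U x (cmb (fun i => y i + if i = j then 1 else 0) (od i₀))) := by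
        funext U; rw [dd_comm]
      rw [e3]
      have e4 := geo' (d := d) hb₀ (k + 1) hd
      have e5 : ((2 ^ (k + 1) : ℕ) : ℝ) = 2 ^ (k + 1) := by push_cast; rfl
      rw [e5]
      refine (add_le_add e1 e2).trans ?_
      linarith
    · -- no carry
      have hlt : y j % 2 ^ k + 1 < 2 ^ k := by omega
      have h1 := ih (fun k' hk' => hb k' (by omega)) (y := fun i => y i % 2 ^ k)
        (fun i => Nat.mod_lt _ hpk) hlt
        (x + dsp eT (cmb (fun i => y i / 2 ^ k * 2 ^ k) (od i₀)))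
      have hdm : 2 ^ k * (y j / 2 ^ k) + y j % 2 ^ k = y j := Nat.div_add_mod _ _
      have e1 : (y j + 1) / 2 ^ k = y j / 2 ^ k := by
        have : y j + 1 = 2 ^ k * (y j / 2 ^ k) + (y j % 2 ^ k + 1) := by omega
        rw [this, Nat.mul_add_div hpk, Nat.div_eq_of_lt hlt, add_zero]
      have e2 : (y j + 1) % 2 ^ k = y j % 2 ^ k + 1 := by
        have : y j + 1 = 2 ^ k * (y j / 2 ^ k) + (y j % 2 ^ k + 1) := by omega
        rw [this, Nat.mul_add_mod, Nat.mod_eq_of_lt hlt]
      have e3 : hw i₀ (k + 1) (fun i => y i + if i = j then 1 else 0) =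
          cmb (fun i => y i / 2 ^ k * 2 ^ k) (od i₀) ++
          hw i₀ k (fun i => y i % 2 ^ k + if i = j then 1 else 0) := by
        rw [hw]
        congr 1
        · congr 1
          funext i
          by_cases hi : i = j
          · subst hi; simp only [if_true]; rw [e1]
          · simp [hi]
        · congr 1
          funext i
          by_cases hi : i = j
          · subst hi; simp only [if_true]; rw [e2]
          · simp [hi]
      have e4 : (fun U : Ed d (2 * m) → G => dd L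
          (tp eT U x (hw i₀ (k + 1) y ++ List.replicate 1 j))
          (tp eT U x (hw i₀ (k + 1) fun i => y i + if i = j then 1 else 0))) = fun U => dd L
          (tp eT U (x + dsp eT (cmb (fun i => y i / 2 ^ k * 2 ^ k) (od i₀)))
            (hw i₀ k (fun i => y i % 2 ^ k) ++ List.replicate 1 j))
          (tp eT U (x + dsp eT (cmb (fun i => y i / 2 ^ k * 2 ^ k) (od i₀)))
            (hw i₀ k fun i => y i % 2 ^ k + if i = j then 1 else 0)) := by
        funext U
        rw [e3, hw, List.append_assoc, tp_append x (cmb _ _), tp_append x (cmb _ _), dd_lmul]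
      rw [e4]
      exact h1

end

end Pool.Agent.V11322
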