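import Mathlib
import Pool.Agent.Y14.Energy
import Pool.Agent.V11322.YM.Hier

/-!
# The energy of the shift
-/

open MeasureTheory Matrix Filter
open scoped Matrix.Norms.Frobenius Topology
open Pool.Agent.H906R3.YM hiding Pl
open Pool.Agent.W793.YM Pool.Agent.TH618.YM Pool.Agent.Y14 Pool.Agent.V11260

namespace Pool.Agent.V11322

set_option linter.unusedSectionVars false
set_option linter.unusedVariables false

noncomputable section

variable {G : Type*} [Group G] [TopologicalSpace G] [IsTopologicalGroup G] [CompactSpace G]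
  [SecondCountableTopology G] [MeasurableSpace G] [BorelSpace G] (μ : Measure G)
  [IsProbabilityMeasure μ] [μ.IsMulLeftInvariant] [μ.IsMulRightInvariant] [μ.IsInvInvariant]
  {N n : ℕ} {L : LD G N n} {e m : ℕ} [NeZero m] {q : ℕ} {β : ℝ}

lemma plq_Ps0 (a : Fin n) (s : ℝ) (U : Ed (e + 3) (2 * m) → G) (x : Fin (e + 3) → ZMod (2 * m))
    {j : Fin (e + 3)} (hj : j ≠ 0) : plqT (Ps L q a s U) x 0 j =
      hh L q a s U x * plqT U x 0 j * (U (x, j) * hh L q a s U (x + eT j) * (U (x, j))⁻¹)⁻¹ := by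
  unfold plqT Ps
  simp only [if_true, if_neg hj]
  group

lemma plq_Ps1 (a : Fin n) (s : ℝ) (U : Ed (e + 3) (2 * m) → G) (x : Fin (e + 3) → ZMod (2 * m))
    {i j : Fin (e + 3)} (hi : i ≠ 0) (hj : j ≠ 0) : plqT (Ps L q a s U) x i j = plqT U x i j := by
  unfold plqT Ps
  simp only [if_neg hi, if_neg hj]

/-- the second difference of the energy of a plaquette -/
def D2 (L : LD G N n) (q : ℕ) (a : Fin n) (s : ℝ) (U : Ed (e + 3) (2 * m) → G)
    (x : Fin (e + 3) → ZMod (2 * m)) (j : Fin (e + 3)) : ℝ :=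
  we L (plqT (Ps L q a s U) x 0 j) + we L (plqT (Ps L q a (-s) U) x 0 j) -
    2 * we L (plqT U x 0 j)

/-- the bound -/
def Bd (L : LD G N n) (q : ℕ) (s : ℝ) (U : Ed (e + 3) (2 * m) → G)
    (x : Fin (e + 3) → ZMod (2 * m)) (j : Fin (e + 3)) : ℝ :=
  s ^ 2 * (1 / (q : ℝ) ^ 2 + 16 * dd L (TT q U x * U (x, j)) (TT q U (x + eT j)) ^ 2 +
    dv L (plqT U x 0 j) ^ 2)

lemma D2_zero (a : Fin n) (s : ℝ) (U : Ed (e + 3) (2 * m) → G) {x : Fin (e + 3) → ZMod (2 * m)}
    {j : Fin (e + 3)} (hj : j ≠ 0) (h1 : kk q x = 0) (h2 : kk q (x + eT j) = 0) :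
    D2 L q a s U x j = 0 := by
  unfold D2
  rw [plq_Ps0 _ _ _ _ hj, plq_Ps0 _ _ _ _ hj, hh_one h1, hh_one h1, hh_one h2, hh_one h2]
  simp
  ring

lemma D2_le (hq : 1 ≤ q) (a : Fin n) (s : ℝ) (U : Ed (e + 3) (2 * m) → G)
    {x : Fin (e + 3) → ZMod (2 * m)} {j : Fin (e + 3)} (hj : j ≠ 0) (hx : wv x j + 1 < 2 * m) :
    D2 L q a s U x j ≤ Bd L q s U x j := by
  obtain ⟨h, hh1⟩ : ∃ h, h = hh L q a s U x := ⟨_, rfl⟩
  obtain ⟨h', hh2⟩ : ∃ h', h' = U (x, j) * hh L q a s U (x + eT j) * (U (x, j))⁻¹ := ⟨_, rfl⟩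
  obtain ⟨P, hP⟩ : ∃ P, P = plqT U x 0 j := ⟨_, rfl⟩
  obtain ⟨g, hg⟩ : ∃ g, g = TT q U x * U (x, j) * (TT q U (x + eT j))⁻¹ := ⟨_, rfl⟩
  have e1 : D2 L q a s U x j = we L (h * P * h'⁻¹) + we L (h⁻¹ * P * h') - 2 * we L P := by
    unfold D2
    rw [plq_Ps0 _ _ _ _ hj, plq_Ps0 _ _ _ _ hj, hh_neg, hh_neg, ← hh1, ← hP]
    have e2 : (U (x, j) * (hh L q a s U (x + eT j))⁻¹ * (U (x, j))⁻¹)⁻¹ = h' := by
      rw [hh2]; group
    rw [e2, ← hh2]
  have hgd : dd L (TT q U x * U (x, j)) (TT q U (x + eT j)) = dv L g := by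
    rw [dd_dv, hg]
  have hq1 : (1 : ℝ) ≤ q := by exact_mod_cast hq
  have hq0 : (0 : ℝ) < q := by linarith
  obtain ⟨k, hk⟩ : ∃ k, k = kk q x := ⟨_, rfl⟩
  obtain ⟨k', hk'⟩ : ∃ k', k' = kk q (x + eT j) := ⟨_, rfl⟩
  have hk1 : |k - k'| ≤ 1 / (2 * q) := by rw [hk, hk']; exact kk_lip hq hj hx
  have hk0 : |k| ≤ 1 := by rw [hk, abs_of_nonneg (kk_nonneg q x)]; exact kk_le q x
  have hk0' : |k'| ≤ 1 := by rw [hk', abs_of_nonneg (kk_nonneg q _)]; exact kk_le q _
  have hs0 := abs_nonneg s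
  have dvg := dv_nonneg (L := L) g
  have dh : dv L h ≤ |s| := by
    rw [hh1]
    unfold hh
    have h1 := dv_conj (L := L) (TT q U x)⁻¹ (L.ex a (s * kk q x))
    rw [inv_inv] at h1
    rw [h1]
    refine (dv_ex a _).trans ?_
    rw [abs_mul, ← hk]
    exact mul_le_of_le_one_right hs0 hk0
  have dh' : dv L h' ≤ |s| := by
    rw [hh2, dv_conj]
    unfold hh
    have h1 := dv_conj (L := L) (TT q U (x + eT j))⁻¹ (L.ex a (s * kk q (x + eT j)))
    rw [inv_inv] at h1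
    rw [h1]
    refine (dv_ex a _).trans ?_
    rw [abs_mul, ← hk']
    exact mul_le_of_le_one_right hs0 hk0'
  have dhh : dd L h h' ≤ |s| * (1 / (2 * q) + 2 * dv L g) := by
    have h1 : dd L h h' = dd L (L.ex a (s * k)) (g * L.ex a (s * k') * g⁻¹) := by
      have h2 : h = (TT q U x)⁻¹ * (L.ex a (s * k) * TT q U x) := by
        rw [hh1, hk]; unfold hh; group
      have h3 : h' = (TT q U x)⁻¹ * (g * L.ex a (s * k') * g⁻¹ * TT q U x) := by
        rw [hh2, hk', hg]; unfold hh; group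
      rw [h2, h3, dd_lmul, dd_rmul]
    rw [h1]
    have h4 := dd_tri (L := L) (L.ex a (s * k)) (L.ex a (s * k')) (g * L.ex a (s * k') * g⁻¹)
    have h5 := dd_ex (L := L) a (s * k) (s * k')
    have h6 := dd_conj (L := L) g (L.ex a (s * k'))
    have h7 := dv_ex (L := L) a (s * k')
    rw [← mul_sub, abs_mul] at h5
    rw [abs_mul] at h7
    have h8 : |s| * |k - k'| ≤ |s| * (1 / (2 * q)) := mul_le_mul_of_nonneg_left hk1 hs0
    have h9 : |s| * |k'| ≤ |s| := mul_le_of_le_one_right hs0 hk0'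
    have h10 : 2 * dv L (L.ex a (s * k')) * dv L g ≤ 2 * |s| * dv L g := by
      refine mul_le_mul_of_nonneg_right ?_ dvg
      linarith
    calc _ ≤ _ := h4
      _ ≤ |s| * (1 / (2 * q)) + 2 * |s| * dv L g := by linarith
      _ = _ := by ring
  have hsd := second_diff (L := L) h h' P
  rw [← e1] at hsd
  have dn := dd_nonneg (L := L) h h'
  have pn := dv_nonneg (L := L) P
  have h11 : dd L h h' ^ 2 ≤ s ^ 2 * (1 / (2 * (q : ℝ) ^ 2) + 8 * dv L g ^ 2) := by
    calc dd L h h' ^ 2 ≤ (|s| * (1 / (2 * q) + 2 * dv L g)) ^ 2 := pow_le_pow_left₀ dn dhh 2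
      _ = s ^ 2 * (1 / (2 * q) + 2 * dv L g) ^ 2 := by rw [mul_pow, sq_abs]
      _ ≤ s ^ 2 * (2 * (1 / (2 * (q : ℝ))) ^ 2 + 2 * (2 * dv L g) ^ 2) := by
          refine mul_le_mul_of_nonneg_left ?_ (sq_nonneg s)
          nlinarith [sq_nonneg (1 / (2 * (q : ℝ)) - 2 * dv L g)]
      _ = _ := by field_simp; ring
  have h12 : dv L P * (dd L h h' * (dv L h + dv L h')) ≤ dd L h h' ^ 2 + s ^ 2 * dv L P ^ 2 := by
    have h13 : dv L P * (dd L h h' * (dv L h + dv L h')) ≤ dv L P * (dd L h h' * (2 * |s|)) := by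
      refine mul_le_mul_of_nonneg_left (mul_le_mul_of_nonneg_left ?_ dn) pn
      linarith
    have h14 : s ^ 2 = |s| ^ 2 := (sq_abs s).symm
    rw [h14]
    nlinarith [sq_nonneg (dd L h h' - |s| * dv L P)]
  unfold Bd
  rw [hgd, ← hP]
  have h15 : s ^ 2 * (1 / (2 * (q : ℝ) ^ 2) + 8 * dv L g ^ 2) +
      s ^ 2 * (1 / (2 * (q : ℝ) ^ 2) + 8 * dv L g ^ 2) =
      s ^ 2 * (1 / (q : ℝ) ^ 2 + 16 * dv L g ^ 2) := by
    field_simp; ring
  linarith

lemma kk_box (hq : 1 ≤ q) (hqm : 4 * q + 1 < 2 * m) {x : Fin (e + 3) → ZMod (2 * m)}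
    {j : Fin (e + 3)} (hj : j ≠ 0) (h : x ∉ SS e m q) :
    kk q x = 0 ∧ kk q (x + eT j) = 0 := by
  have h1 : ¬∀ i, wv x i ≤ 4 * q := fun h2 => h (Finset.mem_filter.2 ⟨Finset.mem_univ _, h2⟩)
  constructor
  · by_contra h2
    refine h1 fun i => ?_
    have h3 := kk_ne hq h2
    by_cases hi : i = 0
    · subst hi; omega
    · have := h3.2 i hi; omega
  · by_contra h2
    refine h1 fun i => ?_
    have h3 := kk_ne hq h2
    by_cases hi : i = 0
    · subst hi
      rw [wv_add_ne hj.symm] at h3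
      omega
    · by_cases hij : i = j
      · subst hij
        have h4 := (h3.2 i hi)
        have h5 : wv (x + eT i) i = if wv x i + 1 = 2 * m then 0 else wv x i + 1 := by
          unfold wv
          rw [Pi.add_apply]
          have : (eT i : Fin (e + 3) → ZMod (2 * m)) i = 1 := by simp [eT]
          rw [this]
          exact val_add_one' _
        split_ifs at h5 <;> omega
      · have h4 := h3.2 i hi
        rw [wv_add_ne hij] at h4
        omega

lemma Bd_nonneg (s : ℝ) (U : Ed (e + 3) (2 * m) → G) (x : Fin (e + 3) → ZMod (2 * m))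
    (j : Fin (e + 3)) : 0 ≤ Bd L q s U x j := by
  unfold Bd
  positivity

/-- the second difference of the action -/
theorem act_second (hq : 1 ≤ q) (hqm : 4 * q + 1 < 2 * m) (a : Fin n) (s : ℝ)
    (U : Ed (e + 3) (2 * m) → G) :
    act L (Ps L q a s U) + act L (Ps L q a (-s) U) - 2 * act L U ≤
      ∑ x ∈ SS e m q, ∑ j ∈ Finset.univ.erase (0 : Fin (e + 3)), Bd L q s U x j := by
  unfold act
  rw [Finset.mul_sum, ← Finset.sum_add_distrib, ← Finset.sum_sub_distrib]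
  have h1 : ∀ x : Fin (e + 3) → ZMod (2 * m),
      (∑ i, ∑ j, if i < j then we L (plqT (Ps L q a s U) x i j) else 0) +
        (∑ i, ∑ j, if i < j then we L (plqT (Ps L q a (-s) U) x i j) else 0) -
        2 * (∑ i, ∑ j, if i < j then we L (plqT U x i j) else 0) =
      ∑ j ∈ Finset.univ.erase (0 : Fin (e + 3)), D2 L q a s U x j := by
    intro x
    rw [Finset.mul_sum, ← Finset.sum_add_distrib, ← Finset.sum_sub_distrib,
      Finset.sum_eq_single (0 : Fin (e + 3))]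
    · rw [Finset.mul_sum, ← Finset.sum_add_distrib, ← Finset.sum_sub_distrib,
        ← Finset.add_sum_erase _ _ (Finset.mem_univ (0 : Fin (e + 3)))]
      simp only [lt_irrefl, if_false, mul_zero, add_zero, sub_zero, zero_add]
      refine Finset.sum_congr rfl fun j hj => ?_
      have hj0 : (0 : Fin (e + 3)) < j := Fin.pos_iff_ne_zero.2 (Finset.mem_erase.1 hj).1
      rw [if_pos hj0, if_pos hj0, if_pos hj0]
      rfl
    · intro i _ hi
      rw [Finset.mul_sum, ← Finset.sum_add_distrib, ← Finset.sum_sub_distrib]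
      refine Finset.sum_eq_zero fun j _ => ?_
      split_ifs with hij
      · have hj : j ≠ 0 := by
          rintro rfl
          exact absurd hij (Fin.not_lt_zero i)
        rw [plq_Ps1 _ _ _ _ hi hj, plq_Ps1 _ _ _ _ hi hj]
        ring
      · ring
    · simp
  rw [Finset.sum_congr rfl fun x _ => h1 x]
  rw [← Finset.sum_subset (Finset.subset_univ (SS e m q))]
  · refine Finset.sum_le_sum fun x hx => Finset.sum_le_sum fun j hj => ?_
    refine D2_le hq a s U (Finset.mem_erase.1 hj).1 ?_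
    have := (Finset.mem_filter.1 hx).2 j
    omega
  · intro x _ hx
    refine Finset.sum_eq_zero fun j hj => ?_
    have hj0 := (Finset.mem_erase.1 hj).1
    obtain ⟨h2, h3⟩ := kk_box hq hqm hj0 hx
    exact D2_zero a s U hj0 h2 h3

/-- the strip between the words of neighbouring points -/
lemma strip_en {b₀ : ℝ} (hb₀ : 0 ≤ b₀) {k : ℕ} (hk : lv q = k)
    (hb : ∀ k' ≤ k, ∀ i j : Fin (e + 3), i ≠ j → ∀ a b, a ≤ 2 ^ k' → b ≤ 2 ^ k' →
      sR μ L m β i j a b ≤ b₀ * Real.sqrt (2 ^ k'))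
    (hq4 : 4 * q + 1 < 2 ^ k) (hqm : 4 * q + 1 < 2 * m)
    {x : Fin (e + 3) → ZMod (2 * m)} (hx : x ∈ SS e m q) {j : Fin (e + 3)} (hj : j ≠ 0) :
    EX μ L β (fun U : Ed (e + 3) (2 * m) → G =>
      dd L (TT q U x * U (x, j)) (TT q U (x + eT j)) ^ 2) ≤
      (11 * ((e + 3 : ℕ) : ℝ) ^ 2 * b₀) ^ 2 * cs k (wv x j) := by
  have hx' := (Finset.mem_filter.1 hx).2
  obtain ⟨y, hy⟩ : ∃ y, y = Function.update (wv x) 0 0 := ⟨_, rfl⟩
  have hyj : y j = wv x j := by rw [hy, Function.update_of_ne hj]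
  have hyl : ∀ i, y i < 2 ^ k := by
    intro i
    rw [hy]
    by_cases hi : i = 0
    · subst hi; simp
    · rw [Function.update_of_ne hi]
      have := hx' i
      omega
  have hwj := hx' j
  have h1 := hw_nb μ (L := L) (β := β) (i₀ := 0) (j := j) hb₀ hb hyl (by rw [hyj]; omega)
    (wv x 0 • eT 0)
  rw [hyj] at h1
  have hwv : wv (x + eT j) = fun i => wv x i + if i = j then 1 else 0 := by
    rw [wv_add (by omega)]
    funext i
    by_cases hi : i = j
    · subst hi; simp [es_same]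
    · simp [es_ne hi, hi]
  have hct : ct (2 * m) y = x - wv x 0 • eT 0 := by
    have h2 := ct_wv (x := x)
    funext i
    have h3 := congrFun h2 i
    simp only [ct] at h3
    rw [hy]
    by_cases hi : i = 0
    · subst hi
      simp only [ct, Function.update_self, Pi.sub_apply, Pi.smul_apply]
      rw [← h3]
      simp [eT]
    · simp only [ct, Function.update_of_ne hi, Pi.sub_apply, Pi.smul_apply]
      rw [h3]
      simp [eT, hi]
  have e1 : (fun U : Ed (e + 3) (2 * m) → G =>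
      dd L (tp eT U (wv x 0 • eT 0) (hw 0 k y ++ List.replicate 1 j))
        (tp eT U (wv x 0 • eT 0) (hw 0 k fun i => y i + if i = j then 1 else 0))) =
      fun U => dd L (TT q U x * U (x, j)) (TT q U (x + eT j)) := by
    funext U
    have f1 : (x : Fin (e + 3) → ZMod (2 * m)) = wv x 0 • eT 0 + dsp eT (hw 0 k y) := by
      rw [dsp_hw 0 hyl, hct]; abel
    have f2 : U (x, j) = tp eT U (wv x 0 • eT 0 + dsp eT (hw 0 k y)) (List.replicate 1 j) := by
      rw [← f1]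
      show _ = U (x, j) * 1
      rw [mul_one]
    have f3 : wv (x + eT j) 0 = wv x 0 := wv_add_ne hj.symm
    have f4 : Function.update (wv (x + eT j)) 0 0 = fun i => y i + if i = j then 1 else 0 := by
      rw [hwv, hy]
      funext i
      by_cases hi : i = 0
      · subst hi
        rw [Function.update_self, Function.update_self, if_neg hj.symm]
      · rw [Function.update_of_ne hi, Function.update_of_ne hi]
    unfold TT wd
    rw [hk, f3, f4, f2, tp_append 0 (List.replicate (wv x 0) 0),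
      tp_append 0 (List.replicate (wv x 0) 0), dsp_rep, zero_add, mul_assoc, dd_lmul,
      tp_append _ (hw 0 k y), ← hy]
  rw [e1] at h1
  rw [← en_sq]
  have h2 := pow_le_pow_left₀ (en_nonneg μ _) h1 2
  refine h2.trans (le_of_eq ?_)
  rw [mul_pow, Real.sq_sqrt (Nat.cast_nonneg _)]

/-- sums over the box of functions of one coordinate -/
lemma sum_box {k : ℕ} (hq4 : 4 * q + 1 ≤ 2 ^ k) (j : Fin (e + 3)) :
    ∑ x ∈ SS e m q, cs k (wv x j) ≤ (4 * q + 1) ^ (e + 2) * ((2 * k + 1) * 2 ^ k) := by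
  have h1 : ∑ x ∈ SS e m q, cs k (wv x j) ≤
      ∑ y ∈ Fintype.piFinset fun _ : Fin (e + 3) => Finset.range (4 * q + 1), cs k (y j) := by
    have h2 : ∑ x ∈ SS e m q, cs k (wv x j) = ∑ y ∈ (SS e m q).image wv, cs k (y j) :=
      (Finset.sum_image (f := fun y : Fin (e + 3) → ℕ => cs k (y j))
        fun x _ y _ h => wv_inj h).symm
    rw [h2]
    refine Finset.sum_le_sum_of_subset fun y hy => ?_
    obtain ⟨x, hx, rfl⟩ := Finset.mem_image.1 hy
    have hx' := (Finset.mem_filter.1 hx).2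
    refine Fintype.mem_piFinset.2 fun i => Finset.mem_range.2 ?_
    have := hx' i
    omega
  refine h1.trans ?_
  have h2 : ∀ y : Fin (e + 3) → ℕ, cs k (y j) = ∏ i, if i = j then cs k (y i) else 1 := by
    intro y
    rw [Finset.prod_ite_eq' Finset.univ j fun i => cs k (y i)]
    simp
  simp only [h2]
  rw [← Finset.prod_univ_sum (fun _ : Fin (e + 3) => Finset.range (4 * q + 1))
    (fun i t => if i = j then cs k t else 1)]
  rw [← Finset.mul_prod_erase _ _ (Finset.mem_univ j)]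
  simp only [if_true]
  have h3 : ∏ i ∈ Finset.univ.erase j, ∑ t ∈ Finset.range (4 * q + 1),
      (if i = j then cs k t else 1) = (4 * q + 1) ^ (e + 2) := by
    have h4 : ∀ i ∈ Finset.univ.erase j, ∑ t ∈ Finset.range (4 * q + 1),
        (if i = j then cs k t else 1) = 4 * q + 1 := by
      intro i hi
      simp only [if_neg (Finset.mem_erase.1 hi).1]
      simp
    rw [Finset.prod_congr rfl h4, Finset.prod_const, Finset.card_erase_of_mem (Finset.mem_univ _),
      Finset.card_univ, Fintype.card_fin]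
    rfl
  rw [h3, mul_comm]
  refine Nat.mul_le_mul_left _ (le_trans ?_ (cs_sum k))
  exact Finset.sum_le_sum_of_subset (Finset.range_subset_range.2 hq4)

/-- the constant -/
def CE (e N : ℕ) : ℝ := 5 ^ (e + 3) * (e + 3) * (1 + 15488 * (e + 3) ^ 4 + 2 * N ^ 2)

lemma CE_pos : 0 < CE e N := by unfold CE; positivity

/-- **the energy of the shift** -/
theorem XX_bound (hm : 2 ≤ m) (hN : 1 ≤ N) {K : ℕ} (hqK : q = 2 ^ K) (hqm : 4 * q + 1 < 2 * m)
    {b₀ : ℝ} (hb₀ : 0 ≤ b₀)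
    (hb : ∀ k' ≤ K + 3, ∀ i j : Fin (e + 3), i ≠ j → ∀ a b, a ≤ 2 ^ k' → b ≤ 2 ^ k' →
      sR μ L m β i j a b ≤ b₀ * Real.sqrt (2 ^ k'))
    (h1 : (2 * K + 7 : ℝ) * b₀ ^ 2 * (q : ℝ) ^ 2 ≤ 1) (hβ : (q : ℝ) ^ 2 ≤ β) (a : Fin n) (s : ℝ) :
    EX μ L β (fun U : Ed (e + 3) (2 * m) → G => XX L β q a s U) ≤
      CE e N * (s ^ 2 * β * (q : ℝ) ^ (e + 1)) := by
  have hq : 1 ≤ q := by rw [hqK]; exact Nat.one_le_two_pow
  have hq1 : (1 : ℝ) ≤ q := by exact_mod_cast hq
  have hq0 : (0 : ℝ) < q := by linarith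
  have hβ0 : 0 < β := lt_of_lt_of_le (by positivity) hβ
  have hlv : lv q = K + 3 := by rw [hqK]; exact lv_pow K
  have h8 : 2 ^ (K + 3) = 8 * q := by rw [hqK]; ring
  have hX := fun s => XX_cont (L := L) (q := q) (e := e) (m := m) β a s
  have hXn := EX_XX_nonneg μ (L := L) (e := e) (m := m) (β := β) hq a (-s)
  have hpl : ∀ (x : Fin (e + 3) → ZMod (2 * m)) (j : Fin (e + 3)),
      Continuous fun U : Ed (e + 3) (2 * m) → G => plqT U x 0 j := fun x j => by
    unfold plqT; fun_prop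
  have hBc1 : ∀ (x : Fin (e + 3) → ZMod (2 * m)) (j : Fin (e + 3)),
      Continuous fun U : Ed (e + 3) (2 * m) → G =>
        dd L (TT q U x * U (x, j)) (TT q U (x + eT j)) ^ 2 := fun x j =>
    (dd_cont ((TT_cont x).mul (continuous_apply _)) (TT_cont _)).pow 2
  have hBc2 : ∀ (x : Fin (e + 3) → ZMod (2 * m)) (j : Fin (e + 3)),
      Continuous fun U : Ed (e + 3) (2 * m) → G => dv L (plqT U x 0 j) ^ 2 := fun x j =>
    (dv_cont.comp (hpl x j)).pow 2
  have hBc : ∀ (x : Fin (e + 3) → ZMod (2 * m)) (j : Fin (e + 3)),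
      Continuous fun U : Ed (e + 3) (2 * m) → G => Bd L q s U x j := fun x j => by
    unfold Bd
    exact continuous_const.mul ((continuous_const.add (continuous_const.mul (hBc1 x j))).add
      (hBc2 x j))
  have h2 : EX μ L β (fun U : Ed (e + 3) (2 * m) → G => XX L β q a s U) ≤
      EX μ L β (fun U : Ed (e + 3) (2 * m) → G => β *
        ∑ x ∈ SS e m q, ∑ j ∈ Finset.univ.erase (0 : Fin (e + 3)), Bd L q s U x j) := by
    have h2 : EX μ L β (fun U : Ed (e + 3) (2 * m) → G => XX L β q a s U) ≤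
        EX μ L β (fun U : Ed (e + 3) (2 * m) → G => XX L β q a s U + XX L β q a (-s) U) := by
      rw [EX_add μ (hX s) (hX (-s))]
      linarith
    refine h2.trans (EX_mono μ ((hX s).add (hX (-s))) (continuous_const.mul
      (continuous_finsetSum _ fun x _ => continuous_finsetSum _ fun j _ => hBc x j)) fun U => ?_)
    have h3 := mul_le_mul_of_nonneg_left (act_second (L := L) hq hqm a s U) hβ0.le
    refine le_trans (le_of_eq ?_) h3
    unfold XX
    ring
  obtain ⟨c, hc⟩ : ∃ c : ℝ, c = 16 * (11 * ((e + 3 : ℕ) : ℝ) ^ 2 * b₀) ^ 2 := ⟨_, rfl⟩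
  have hc0 : 0 ≤ c := by rw [hc]; positivity
  have hBe : ∀ x ∈ SS e m q, ∀ j ∈ Finset.univ.erase (0 : Fin (e + 3)),
      EX μ L β (fun U : Ed (e + 3) (2 * m) → G => Bd L q s U x j) ≤
      s ^ 2 * (1 / (q : ℝ) ^ 2 + 2 * N ^ 2 / β + c * cs (K + 3) (wv x j)) := by
    intro x hx j hj
    have hj0 := (Finset.mem_erase.1 hj).1
    unfold Bd
    have c1 : Continuous fun U : Ed (e + 3) (2 * m) → G => (1 / (q : ℝ) ^ 2 +
        16 * dd L (TT q U x * U (x, j)) (TT q U (x + eT j)) ^ 2) :=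
      continuous_const.add (continuous_const.mul (hBc1 x j))
    have c2 : Continuous fun U : Ed (e + 3) (2 * m) → G =>
        16 * dd L (TT q U x * U (x, j)) (TT q U (x + eT j)) ^ 2 := continuous_const.mul (hBc1 x j)
    rw [EX_smul, EX_add μ c1 (hBc2 x j), EX_add μ continuous_const c2, EX_smul, EX_const]
    have h4 := strip_en μ (L := L) (β := β) hb₀ hlv hb (by omega) hqm hx hj0
    have h5 := plaq_bound μ (L := L) hm hβ0 hj0.symm x
    refine mul_le_mul_of_nonneg_left ?_ (sq_nonneg s)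
    rw [hc]
    linarith
  refine h2.trans ?_
  have hs1 : EX μ L β (fun U : Ed (e + 3) (2 * m) → G =>
      ∑ x ∈ SS e m q, ∑ j ∈ Finset.univ.erase (0 : Fin (e + 3)), Bd L q s U x j) =
      ∑ x ∈ SS e m q, ∑ j ∈ Finset.univ.erase (0 : Fin (e + 3)),
        EX μ L β (fun U : Ed (e + 3) (2 * m) → G => Bd L q s U x j) := by
    rw [EX_sum μ (SS e m q) (F := fun x (U : Ed (e + 3) (2 * m) → G) =>
      ∑ j ∈ Finset.univ.erase (0 : Fin (e + 3)), Bd L q s U x j)
      fun x _ => continuous_finsetSum _ fun j _ => hBc x j]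
    refine Finset.sum_congr rfl fun x _ => ?_
    rw [EX_sum μ _ (F := fun j (U : Ed (e + 3) (2 * m) → G) => Bd L q s U x j)
      fun j _ => hBc x j]
  rw [EX_smul, hs1]
  obtain ⟨V, hV⟩ : ∃ V : ℝ, V = 1 / (q : ℝ) ^ 2 + 2 * N ^ 2 / β := ⟨_, rfl⟩
  have hV0 : 0 ≤ V := by rw [hV]; positivity
  rw [← hV] at hBe
  obtain ⟨Bx, hBx⟩ : ∃ Bx : ℝ, Bx = 5 ^ (e + 3) * (q : ℝ) ^ (e + 3) := ⟨_, rfl⟩
  have hBx0 : 0 ≤ Bx := by rw [hBx]; positivity
  have h5q : (4 * (q : ℝ) + 1) ≤ 5 * q := by linarith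
  have hone : ∀ j ∈ Finset.univ.erase (0 : Fin (e + 3)), ∑ x ∈ SS e m q,
      s ^ 2 * (V + c * cs (K + 3) (wv x j)) ≤
      s ^ 2 * (Bx * V + c * (Bx * (8 * (2 * K + 7)))) := by
    intro j _
    rw [← Finset.mul_sum, Finset.sum_add_distrib, ← Finset.mul_sum]
    refine mul_le_mul_of_nonneg_left (add_le_add ?_ (mul_le_mul_of_nonneg_left ?_ hc0))
      (sq_nonneg s)
    · rw [Finset.sum_const, nsmul_eq_mul]
      refine mul_le_mul_of_nonneg_right ?_ hV0
      have h7 : ((SS e m q).card : ℝ) ≤ (4 * q + 1) ^ (e + 3) := by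
        exact_mod_cast card_SS (e := e) (m := m) (q := q)
      refine h7.trans ?_
      rw [hBx, ← mul_pow]
      exact pow_le_pow_left₀ (by positivity) h5q _
    · have h7 : ((∑ x ∈ SS e m q, cs (K + 3) (wv x j) : ℕ) : ℝ) ≤
          ((4 * q + 1) ^ (e + 2) * ((2 * (K + 3) + 1) * 2 ^ (K + 3)) : ℕ) := by
        exact_mod_cast sum_box (e := e) (m := m) (q := q) (k := K + 3) (by omega) j
      rw [h8] at h7
      push_cast at h7
      refine h7.trans ?_
      have h9 : (4 * (q : ℝ) + 1) ^ (e + 2) ≤ (5 * q) ^ (e + 2) :=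
        pow_le_pow_left₀ (by positivity) h5q _
      have h10 : (5 : ℝ) ^ (e + 2) ≤ 5 ^ (e + 3) := pow_le_pow_right₀ (by norm_num) (by omega)
      calc _ ≤ (5 * (q : ℝ)) ^ (e + 2) * ((2 * (K + 3) + 1) * (8 * q)) :=
            mul_le_mul_of_nonneg_right h9 (by positivity)
        _ = 5 ^ (e + 2) * ((q : ℝ) ^ (e + 3) * (8 * (2 * K + 7))) := by ring
        _ ≤ 5 ^ (e + 3) * ((q : ℝ) ^ (e + 3) * (8 * (2 * K + 7))) :=
            mul_le_mul_of_nonneg_right h10 (by positivity)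
        _ = _ := by rw [hBx]; ring
  have h6 : ∑ x ∈ SS e m q, ∑ j ∈ Finset.univ.erase (0 : Fin (e + 3)),
      EX μ L β (fun U : Ed (e + 3) (2 * m) → G => Bd L q s U x j) ≤
      (e + 3) * (s ^ 2 * (Bx * V + c * (Bx * (8 * (2 * K + 7))))) := by
    calc _ ≤ ∑ x ∈ SS e m q, ∑ j ∈ Finset.univ.erase (0 : Fin (e + 3)),
          s ^ 2 * (V + c * cs (K + 3) (wv x j)) :=
          Finset.sum_le_sum fun x hx => Finset.sum_le_sum fun j hj => hBe x hx j hj
      _ = ∑ j ∈ Finset.univ.erase (0 : Fin (e + 3)), ∑ x ∈ SS e m q,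
          s ^ 2 * (V + c * cs (K + 3) (wv x j)) := Finset.sum_comm
      _ ≤ ∑ j ∈ Finset.univ.erase (0 : Fin (e + 3)),
          s ^ 2 * (Bx * V + c * (Bx * (8 * (2 * K + 7)))) := Finset.sum_le_sum hone
      _ = ((Finset.univ.erase (0 : Fin (e + 3))).card : ℝ) *
          (s ^ 2 * (Bx * V + c * (Bx * (8 * (2 * K + 7))))) := by
          rw [Finset.sum_const, nsmul_eq_mul]
      _ ≤ _ := by
          refine mul_le_mul_of_nonneg_right ?_ (by positivity)
          rw [Finset.card_erase_of_mem (Finset.mem_univ _), Finset.card_univ, Fintype.card_fin]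
          have : e + 3 - 1 = e + 2 := rfl
          rw [this]
          push_cast
          linarith
  refine (mul_le_mul_of_nonneg_left h6 hβ0.le).trans ?_
  have e1 : Bx * V = 5 ^ (e + 3) * (q : ℝ) ^ (e + 1) * (1 + 2 * N ^ 2 * ((q : ℝ) ^ 2 / β)) := by
    rw [hBx, hV]
    have : (q : ℝ) ^ (e + 3) = (q : ℝ) ^ (e + 1) * (q : ℝ) ^ 2 := by ring
    rw [this]
    field_simp
  have e2 : c * (Bx * (8 * (2 * K + 7))) = 5 ^ (e + 3) * (q : ℝ) ^ (e + 1) *
      (15488 * (e + 3) ^ 4 * ((2 * K + 7) * b₀ ^ 2 * (q : ℝ) ^ 2)) := by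
    rw [hc, hBx]
    push_cast
    ring
  have h7 : (q : ℝ) ^ 2 / β ≤ 1 := by rw [div_le_one hβ0]; exact hβ
  have h9 := mul_le_mul_of_nonneg_left h7 (show (0 : ℝ) ≤ 2 * (N : ℝ) ^ 2 by positivity)
  have h10 := mul_le_mul_of_nonneg_left h1 (show (0 : ℝ) ≤ 15488 * ((e : ℝ) + 3) ^ 4 by positivity)
  rw [e1, e2]
  calc β * ((e + 3) * (s ^ 2 * (5 ^ (e + 3) * (q : ℝ) ^ (e + 1) *
        (1 + 2 * N ^ 2 * ((q : ℝ) ^ 2 / β)) + 5 ^ (e + 3) * (q : ℝ) ^ (e + 1) *
        (15488 * (e + 3) ^ 4 * ((2 * K + 7) * b₀ ^ 2 * (q : ℝ) ^ 2))))) =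
      (β * (e + 3) * s ^ 2 * 5 ^ (e + 3) * (q : ℝ) ^ (e + 1)) *
        (1 + 2 * N ^ 2 * ((q : ℝ) ^ 2 / β) +
          15488 * (e + 3) ^ 4 * ((2 * K + 7) * b₀ ^ 2 * (q : ℝ) ^ 2)) := by ring
    _ ≤ (β * (e + 3) * s ^ 2 * 5 ^ (e + 3) * (q : ℝ) ^ (e + 1)) *
        (1 + 15488 * (e + 3) ^ 4 + 2 * N ^ 2) :=
        mul_le_mul_of_nonneg_left (by linarith) (by positivity)
    _ = _ := by unfold CE; ring

end

end Pool.Agent.V11322
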