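import Mathlib
import Pool.Agent.V11260.Step
import Pool.Agent.V11260.Coh
import Pool.Agent.Y14.Par
import Pool.Agent.V11322.YM.Sh

/-!
# The family of paths
-/

open MeasureTheory Matrix Filter
open scoped Matrix.Norms.Frobenius Topology
open Pool.Agent.H906R3.YM hiding Pl
open Pool.Agent.W793.YM Pool.Agent.TH618.YM Pool.Agent.Y14 Pool.Agent.V11260

namespace Pool.Agent.V11322

set_option linter.unusedSectionVars false
set_option linter.unusedVariables false

noncomputable section

/-- the points of the cube -/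
abbrev cu (e K : ℕ) : Finset (Fin (e + 3) → ℕ) := cube (Fin.last (e + 2)) K

/-- the direct paths -/
def PO {e : ℕ} (K q : ℕ) (z : Fin (e + 3) → ℕ) : List (Fin (e + 3)) :=
  fw 0 K z ++ List.replicate (3 * q) 0

/-- the return of the direct paths -/
def PB {e : ℕ} (K : ℕ) (z : Fin (e + 3) → ℕ) : List (Fin (e + 3)) := fw 0 K z

/-- the paths around -/
def QO {e : ℕ} (K q : ℕ) (z : Fin (e + 3) → ℕ) : List (Fin (e + 3)) :=
  fw 0 K z ++ (List.replicate (3 * q) 1 ++ List.replicate (3 * q) 0)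

/-- the return of the paths around -/
def QB {e : ℕ} (K q : ℕ) (z : Fin (e + 3) → ℕ) : List (Fin (e + 3)) :=
  fw 0 K z ++ List.replicate (3 * q) 1

/-- the weight -/
def ww (e K : ℕ) : ℝ := 1 / ((cu e K).card : ℝ)

lemma ww_pos (e K : ℕ) : 0 < ww e K := by
  unfold ww
  have := (cube_nonempty (Fin.last (e + 2)) K).card_pos
  have h : (0 : ℝ) < ((cu e K).card : ℝ) := by exact_mod_cast this
  positivity

lemma ww_sum (e K : ℕ) : ∑ _z ∈ cu e K, ww e K = 1 := by
  have := (cube_nonempty (Fin.last (e + 2)) K).card_pos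
  have h : (0 : ℝ) < ((cu e K).card : ℝ) := by exact_mod_cast this
  rw [Finset.sum_const, nsmul_eq_mul]
  unfold ww
  field_simp

lemma ww_avg {e K : ℕ} {f : (Fin (e + 3) → ℕ) → ℝ} {c : ℝ} (h : ∀ z ∈ cu e K, f z ≤ c) :
    ∑ z ∈ cu e K, ww e K * f z ≤ c := by
  calc _ ≤ ∑ _z ∈ cu e K, ww e K * c :=
        Finset.sum_le_sum fun z hz => mul_le_mul_of_nonneg_left (h z hz) (ww_pos e K).le
    _ = (∑ _z ∈ cu e K, ww e K) * c := by rw [Finset.sum_mul]
    _ = c := by rw [ww_sum, one_mul]

lemma ww_avg' {e K : ℕ} {f : (Fin (e + 3) → ℕ) → ℝ} {c : ℝ} (h : ∀ z ∈ cu e K, c ≤ f z) :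
    c ≤ ∑ z ∈ cu e K, ww e K * f z := by
  calc c = (∑ _z ∈ cu e K, ww e K) * c := by rw [ww_sum, one_mul]
    _ = ∑ _z ∈ cu e K, ww e K * c := by rw [Finset.sum_mul]
    _ ≤ _ := Finset.sum_le_sum fun z hz => mul_le_mul_of_nonneg_left (h z hz) (ww_pos e K).le

variable {e K q : ℕ}

lemma one_ne_last : (1 : Fin (e + 3)) ≠ Fin.last (e + 2) := by
  intro h; have := congrArg Fin.val h; simp at this

lemma zero_ne_last : (0 : Fin (e + 3)) ≠ Fin.last (e + 2) := by
  intro h; have := congrArg Fin.val h; simp at this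

lemma cu_last {z : Fin (e + 3) → ℕ} (hz : z ∈ cu e K) : z (Fin.last (e + 2)) = 0 :=
  (mem_cube.1 hz).1

lemma cu_ge {z : Fin (e + 3) → ℕ} (hz : z ∈ cu e K) (hq : q = 2 ^ K) {j : Fin (e + 3)}
    (hj : j ≠ Fin.last (e + 2)) : q ≤ z j ∧ z j < 2 * q := by
  have h := (mem_cube.1 hz).2 j hj
  rw [pow_succ] at h
  omega

lemma cu_lt {z : Fin (e + 3) → ℕ} (hz : z ∈ cu e K) (hq : q = 2 ^ K) (j : Fin (e + 3)) :
    z j < 2 * q := by
  have h := cube_lt hz j
  rw [pow_succ] at h
  omega

lemma count_PO (z : Fin (e + 3) → ℕ) (j : Fin (e + 3)) :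
    (PO K q z).count j = z j + if j = 0 then 3 * q else 0 := by
  unfold PO
  rw [List.count_append, count_fw, List.count_replicate]
  by_cases h : j = 0
  · subst h; simp
  · have h' : ¬(0 : Fin (e + 3)) = j := fun h1 => h h1.symm
    simp [h, h']

lemma count_QB (z : Fin (e + 3) → ℕ) (j : Fin (e + 3)) :
    (QB K q z).count j = z j + if j = 1 then 3 * q else 0 := by
  unfold QB
  rw [List.count_append, count_fw, List.count_replicate]
  by_cases h : j = 1
  · subst h; simp
  · have h' : ¬(1 : Fin (e + 3)) = j := fun h1 => h h1.symm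
    simp [h, h']

lemma count_QO (z : Fin (e + 3) → ℕ) (j : Fin (e + 3)) :
    (QO K q z).count j = z j + (if j = 1 then 3 * q else 0) + if j = 0 then 3 * q else 0 := by
  unfold QO
  rw [List.count_append, List.count_append, count_fw, List.count_replicate,
    List.count_replicate, add_assoc]
  congr 2
  · by_cases h : j = 1
    · subst h; simp
    · have h' : ¬(1 : Fin (e + 3)) = j := fun h1 => h h1.symm
      simp [h, h']
  · by_cases h : j = 0
    · subst h; simp
    · have h' : ¬(0 : Fin (e + 3)) = j := fun h1 => h h1.symm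
      simp [h, h']

lemma PO_last {z : Fin (e + 3) → ℕ} (hz : z ∈ cu e K) : Fin.last (e + 2) ∉ PO K q z := by
  rw [← List.count_eq_zero, count_PO, cu_last hz, if_neg (Ne.symm zero_ne_last)]

lemma PB_last {z : Fin (e + 3) → ℕ} (hz : z ∈ cu e K) : Fin.last (e + 2) ∉ PB K z :=
  not_mem_fw (cu_last hz)

lemma QO_last {z : Fin (e + 3) → ℕ} (hz : z ∈ cu e K) : Fin.last (e + 2) ∉ QO K q z := by
  rw [← List.count_eq_zero, count_QO, cu_last hz, if_neg (Ne.symm zero_ne_last),
    if_neg (Ne.symm one_ne_last)]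

lemma QB_last {z : Fin (e + 3) → ℕ} (hz : z ∈ cu e K) : Fin.last (e + 2) ∉ QB K q z := by
  rw [← List.count_eq_zero, count_QB, cu_last hz, if_neg (Ne.symm one_ne_last)]

section gen

variable {A : Type*} [AddCommGroup A] (u : Fin (e + 3) → A)

lemma dsp_PO (z : Fin (e + 3) → ℕ) : dsp u (PO K q z) = (3 * q) • u 0 + dsp u (PB K z) := by
  unfold PO PB
  rw [dsp_append, dsp_rep, add_comm]

lemma dsp_QO (z : Fin (e + 3) → ℕ) : dsp u (QO K q z) = (3 * q) • u 0 + dsp u (QB K q z) := by
  unfold QO QB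
  simp only [dsp_append, dsp_rep]
  abel

variable {G : Type*} [Group G] [TopologicalSpace G] {N n : ℕ} (L : LD G N n)

/-- the field -/
def phi (K q : ℕ) (U : A × Fin (e + 3) → G) (x : A) : Mat N :=
  ∑ z ∈ cu e K, ww e K • (
    L.rho (tp u U x (PO K q z)) * (L.rho (tp u U (x + (3 * q) • u 0) (PB K z)))ᴴ -
    L.rho (tp u U x (QO K q z)) * (L.rho (tp u U (x + (3 * q) • u 0) (QB K q z)))ᴴ)

variable {u L}

lemma phi_map {A' : Type*} [AddCommGroup A'] {u' : Fin (e + 3) → A'} {U : A × Fin (e + 3) → G}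
    {U' : A' × Fin (e + 3) → G} (f : A →+ A') (hu : ∀ i, f (u i) = u' i)
    (hU : ∀ e, U e = U' (f e.1, e.2)) (x : A) :
    phi u L K q U x = phi u' L K q U' (f x) := by
  unfold phi
  refine Finset.sum_congr rfl fun z _ => ?_
  rw [tp_map f hu hU, tp_map f hu hU, tp_map f hu hU, tp_map f hu hU, map_add, map_nsmul, hu]

lemma phi_shift (U : A × Fin (e + 3) → G) (z x : A) :
    phi u L K q (fun f => U (f.1 + z, f.2)) x = phi u L K q U (x + z) := by
  unfold phi
  refine Finset.sum_congr rfl fun o _ => ?_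
  rw [tp_shift, tp_shift, tp_shift, tp_shift, add_right_comm x z]

lemma phi_congr (hq : q = 2 ^ K) {U U' : A × Fin (e + 3) → G} {x : A}
    (h : ∀ w1 : List (Fin (e + 3)), (∀ j, w1.count j ≤ 5 * q) →
      w1.count (Fin.last (e + 2)) = 0 → ∀ i, i ≠ Fin.last (e + 2) →
      U (x + dsp u w1, i) = U' (x + dsp u w1, i)) : phi u L K q U x = phi u L K q U' x := by
  have key : ∀ (w0 w : List (Fin (e + 3))), (∀ j, (w0 ++ w).count j ≤ 5 * q) →
      (w0 ++ w).count (Fin.last (e + 2)) = 0 →
      tp u U (x + dsp u w0) w = tp u U' (x + dsp u w0) w := by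
    intro w0 w hw hw0
    refine tp_congr fun f hf => ?_
    obtain ⟨w1, w2, h1, h2⟩ := mem_lk hf
    have h3 : f = (x + dsp u (w0 ++ w1), f.2) :=
      Prod.ext (by rw [dsp_append, ← add_assoc]; exact h2) rfl
    rw [h1, ← List.append_assoc] at hw0
    rw [h3]
    refine h (w0 ++ w1) (fun j => ?_) ?_ f.2 ?_
    · have h4 := hw j
      rw [h1, ← List.append_assoc, List.count_append] at h4
      omega
    · rw [List.count_append] at hw0
      omega
    · intro h4
      have h5 : Fin.last (e + 2) ∈ (w0 ++ w1) ++ f.2 :: w2 := by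
        rw [h4]; simp
      exact absurd (List.count_pos_iff.2 h5) (by omega)
  unfold phi
  refine Finset.sum_congr rfl fun z hz => ?_
  have hl := cu_last hz
  have hlt := fun j => cu_lt (q := q) hz hq j
  have e0 : (x : A) = x + dsp u [] := by rw [dsp_nil, add_zero]
  have e1 : x + (3 * q) • u 0 = x + dsp u (List.replicate (3 * q) 0) := by rw [dsp_rep]
  have h01 : ¬(Fin.last (e + 2) = 0) := Ne.symm zero_ne_last
  have h11 : ¬(Fin.last (e + 2) = 1) := Ne.symm one_ne_last
  have r0 : ∀ j, (List.replicate (3 * q) (0 : Fin (e + 3))).count j =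
      if j = 0 then 3 * q else 0 := by
    intro j
    rw [List.count_replicate]
    by_cases h : j = 0
    · subst h; simp
    · have h' : ¬(0 : Fin (e + 3)) = j := fun h1 => h h1.symm
      simp [h, h']
  have k1 : tp u U x (PO K q z) = tp u U' x (PO K q z) := by
    rw [e0]
    refine key [] _ (fun j => ?_) ?_
    · rw [List.nil_append, count_PO]
      have := hlt j
      split_ifs <;> omega
    · rw [List.nil_append, count_PO, hl, if_neg h01]
  have k2 : tp u U x (QO K q z) = tp u U' x (QO K q z) := by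
    rw [e0]
    refine key [] _ (fun j => ?_) ?_
    · rw [List.nil_append, count_QO]
      have := hlt j
      by_cases hj : j = 0
      · subst hj
        rw [if_neg (Ne.symm one_ne), if_pos rfl]
        omega
      · rw [if_neg hj]
        split_ifs <;> omega
    · rw [List.nil_append, count_QO, hl, if_neg h01, if_neg h11]
  have k3 : tp u U (x + (3 * q) • u 0) (PB K z) = tp u U' (x + (3 * q) • u 0) (PB K z) := by
    rw [e1]
    refine key _ _ (fun j => ?_) ?_
    · rw [List.count_append, r0]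
      unfold PB
      rw [count_fw]
      have := hlt j
      split_ifs <;> omega
    · rw [List.count_append, r0]
      unfold PB
      rw [count_fw, hl, if_neg h01]
  have k4 : tp u U (x + (3 * q) • u 0) (QB K q z) =
      tp u U' (x + (3 * q) • u 0) (QB K q z) := by
    rw [e1]
    refine key _ _ (fun j => ?_) ?_
    · rw [List.count_append, r0, count_QB]
      have := hlt j
      by_cases hj : j = 0
      · subst hj
        rw [if_neg (Ne.symm one_ne), if_pos rfl]
        omega
      · rw [if_neg hj]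
        split_ifs <;> omega
    · rw [List.count_append, r0, count_QB, hl, if_neg h01, if_neg h11]
  rw [k1, k2, k3, k4]

lemma phi_gauge (γ : A → G) (U : A × Fin (e + 3) → G) (x : A) :
    phi u L K q (fun f => γ f.1 * U f * (γ (f.1 + u f.2))⁻¹) x =
      L.rho (γ x) * phi u L K q U x * (L.rho (γ (x + (3 * q) • u 0)))ᴴ := by
  have key : ∀ P Q : List (Fin (e + 3)), dsp u P = (3 * q) • u 0 + dsp u Q →
      L.rho (tp u (fun f => γ f.1 * U f * (γ (f.1 + u f.2))⁻¹) x P) *
        (L.rho (tp u (fun f => γ f.1 * U f * (γ (f.1 + u f.2))⁻¹) (x + (3 * q) • u 0) Q))ᴴ =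
      L.rho (γ x) * (L.rho (tp u U x P) * (L.rho (tp u U (x + (3 * q) • u 0) Q))ᴴ) *
        (L.rho (γ (x + (3 * q) • u 0)))ᴴ := by
    intro P Q hPQ
    rw [tp_gauge, tp_gauge, hPQ, ← add_assoc]
    obtain ⟨g, hg⟩ : ∃ g, g = γ (x + (3 * q) • u 0 + dsp u Q) := ⟨_, rfl⟩
    rw [← hg, map_mul, map_mul, map_mul, map_mul, L.rho_inv, conjTranspose_mul,
      conjTranspose_mul, conjTranspose_conjTranspose]
    have h1 : (L.rho g)ᴴ * L.rho g = 1 := L.unit' g
    calc _ = L.rho (γ x) * L.rho (tp u U x P) * ((L.rho g)ᴴ * L.rho g) *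
          ((L.rho (tp u U (x + (3 * q) • u 0) Q))ᴴ * (L.rho (γ (x + (3 * q) • u 0)))ᴴ) := by
          simp only [mul_assoc]
      _ = _ := by rw [h1, mul_one]; simp only [mul_assoc]
  unfold phi
  rw [Finset.mul_sum, Finset.sum_mul]
  refine Finset.sum_congr rfl fun z _ => ?_
  rw [key _ _ (dsp_PO u z), key _ _ (dsp_QO u z), mul_smul_comm, smul_mul_assoc, mul_sub, sub_mul]

end gen

end

end Pool.Agent.V11322
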