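import Mathlib
import Pool.Agent.Y14.Resp
import Pool.Agent.V11322.YM.En
import Pool.Agent.V11322.YM.Fam

/-!
# The response of the transports to the shift
-/

open MeasureTheory Matrix Filter
open scoped Matrix.Norms.Frobenius Topology
open Pool.Agent.H906R3.YM hiding Pl
open Pool.Agent.W793.YM Pool.Agent.TH618.YM Pool.Agent.Y14 Pool.Agent.V11260

namespace Pool.Agent.V11322

set_option linter.unusedSectionVars false
set_option linter.unusedVariables false

noncomputable section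

variable {G : Type*} [Group G] [TopologicalSpace G] [IsTopologicalGroup G] [CompactSpace G]
  [SecondCountableTopology G] [MeasurableSpace G] [BorelSpace G] {N n : ℕ} {L : LD G N n}
  {e m : ℕ} [NeZero m] {q : ℕ}

/-- the total weight of a segment -/
def KK (q : ℕ) (y : Fin (e + 3) → ZMod (2 * m)) (r : ℕ) : ℝ :=
  ∑ k ∈ Finset.range r, kk q (y + k • eT 0)

variable (L) in
/-- the error of the response of a segment -/
def ER (q : ℕ) (U : Ed (e + 3) (2 * m) → G) (g : G) (y : Fin (e + 3) → ZMod (2 * m)) (r : ℕ) : ℝ :=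
  ∑ k ∈ Finset.range r, 2 * kk q (y + k • eT 0) *
    dd L (g * tp eT U y (List.replicate k 0)) (TT q U (y + k • eT 0))

lemma KK_succ (y : Fin (e + 3) → ZMod (2 * m)) (r : ℕ) :
    KK q y (r + 1) = kk q y + KK q (y + eT 0) r := by
  unfold KK
  rw [Finset.sum_range_succ', zero_smul, add_zero, add_comm]
  congr 1
  refine Finset.sum_congr rfl fun k _ => ?_
  rw [add_smul, one_smul, add_comm (k • eT 0), add_assoc]

lemma ER_succ (U : Ed (e + 3) (2 * m) → G) (g : G) (y : Fin (e + 3) → ZMod (2 * m)) (r : ℕ) :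
    ER L q U g y (r + 1) = 2 * kk q y * dd L g (TT q U y) +
      ER L q U (g * U (y, 0)) (y + eT 0) r := by
  unfold ER
  rw [Finset.sum_range_succ', zero_smul, add_zero, add_comm]
  congr 1
  · rw [List.replicate_zero, tp_nil, mul_one]
  · refine Finset.sum_congr rfl fun k _ => ?_
    rw [add_smul, one_smul, add_comm (k • eT 0), add_assoc, List.replicate_succ, tp_cons,
      mul_assoc g]

/-- the response of a segment -/
lemma resp_seg (a : Fin n) (s : ℝ) (U : Ed (e + 3) (2 * m) → G) (g : G)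
    (y : Fin (e + 3) → ZMod (2 * m)) (r : ℕ) :
    dd L (g * tp eT (Ps L q a s U) y (List.replicate r 0))
      (L.ex a (s * KK q y r) * (g * tp eT U y (List.replicate r 0))) ≤ |s| * ER L q U g y r := by
  induction r generalizing g y with
  | zero =>
    unfold KK ER
    simp only [List.replicate_zero, tp_nil, Finset.range_zero, Finset.sum_empty, mul_zero,
      L.ex_zero, one_mul, dd_self, le_refl]
  | succ r ih =>
    rw [KK_succ, ER_succ, List.replicate_succ, tp_cons, tp_cons]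
    have e1 : Ps L q a s U (y, 0) = hh L q a s U y * U (y, 0) := by
      unfold Ps
      rw [if_pos rfl]
    rw [e1]
    obtain ⟨P, hP⟩ : ∃ P, P = tp eT (Ps L q a s U) (y + eT 0) (List.replicate r 0) := ⟨_, rfl⟩
    obtain ⟨P', hP'⟩ : ∃ P', P' = tp eT U (y + eT 0) (List.replicate r 0) := ⟨_, rfl⟩
    have ih' := ih (g * U (y, 0)) (y + eT 0)
    rw [← hP, ← hP'] at ih' ⊢
    obtain ⟨E, hE⟩ : ∃ E, E = L.ex a (s * KK q (y + eT 0) r) := ⟨_, rfl⟩
    obtain ⟨E0, hE0⟩ : ∃ E0, E0 = L.ex a (s * kk q y) := ⟨_, rfl⟩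
    rw [← hE] at ih'
    rw [mul_add, L.ex_add, ← hE, ← hE0]
    have e2 : g * (hh L q a s U y * U (y, 0) * P) =
        (g * hh L q a s U y * g⁻¹) * (g * U (y, 0) * P) := by group
    have e3 : E0 * E * (g * (U (y, 0) * P')) = E0 * (E * (g * U (y, 0) * P')) := by group
    rw [e2, e3]
    refine (dd_tri _ ((g * hh L q a s U y * g⁻¹) * (E * (g * U (y, 0) * P'))) _).trans ?_
    rw [dd_lmul, dd_rmul]
    have h3 : dd L (g * hh L q a s U y * g⁻¹) E0 ≤ |s| * (2 * kk q y * dd L g (TT q U y)) := by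
      have e4 : g * hh L q a s U y * g⁻¹ = (g * (TT q U y)⁻¹) * E0 * (g * (TT q U y)⁻¹)⁻¹ := by
        unfold hh
        rw [hE0]
        group
      rw [e4, dd_comm]
      refine (dd_conj _ _).trans ?_
      rw [← dd_dv]
      have h4 : dv L E0 ≤ |s| * kk q y := by
        rw [hE0]
        refine (dv_ex a _).trans (le_of_eq ?_)
        rw [abs_mul, abs_of_nonneg (kk_nonneg q y)]
      have h5 := mul_le_mul_of_nonneg_right h4 (dd_nonneg (L := L) g (TT q U y))
      linarith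
    rw [mul_add]
    linarith

/-! ### unshifted transports -/

lemma kk_hi (hq : 1 ≤ q) {w : List (Fin (e + 3))} (h : 4 * q ≤ w.count 1)
    (h' : w.count 1 < 2 * m) : kk q (dsp eT w : Fin (e + 3) → ZMod (2 * m)) = 0 := by
  by_contra h1
  have h2 := ((kk_ne hq h1).2 1 one_ne).2
  rw [wv_dsp h'] at h2
  omega

lemma kk_lo (hq : 1 ≤ q) {w : List (Fin (e + 3))} (h : w.count 1 = 0) :
    kk q (dsp eT w : Fin (e + 3) → ZMod (2 * m)) = 0 := by
  refine kk_axis hq one_ne ?_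
  rw [dsp_apply, h, Nat.cast_zero]

lemma kk_rt (hq : 1 ≤ q) {w : List (Fin (e + 3))} (h : 3 * q ≤ w.count 0)
    (h' : w.count 0 < 2 * m) : kk q (dsp eT w : Fin (e + 3) → ZMod (2 * m)) = 0 := by
  by_contra h1
  have h2 := (kk_ne hq h1).1.2
  rw [wv_dsp h'] at h2
  omega

lemma kk_lf (hq : 1 ≤ q) {w : List (Fin (e + 3))} (h : w.count 0 < 2 * q)
    (h' : w.count 0 < 2 * m) : kk q (dsp eT w : Fin (e + 3) → ZMod (2 * m)) = 0 := by
  by_contra h1
  have h2 := (kk_ne hq h1).1.1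
  rw [wv_dsp h'] at h2
  omega

lemma tp_Ps_of {a : Fin n} {s : ℝ} {U : Ed (e + 3) (2 * m) → G}
    {x : Fin (e + 3) → ZMod (2 * m)} {w : List (Fin (e + 3))}
    (h : ∀ w1 w2, w = w1 ++ 0 :: w2 → kk q (x + dsp eT w1) = 0) :
    tp eT (Ps L q a s U) x w = tp eT U x w := by
  refine tp_congr fun f hf => Ps_eq ?_
  rintro ⟨h1, h2⟩
  obtain ⟨w1, w2, h3, h4⟩ := mem_lk hf
  rw [h1] at h3
  rw [h4] at h2
  exact h2 (h w1 w2 h3)

lemma tp_Ps_hi (hq : 1 ≤ q) (a : Fin n) (s : ℝ) (U : Ed (e + 3) (2 * m) → G)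
    {c w : List (Fin (e + 3))} (hc : 4 * q ≤ c.count 1) (hw : (c ++ w).count 1 < 2 * m) :
    tp eT (Ps L q a s U) (dsp eT c) w = tp eT U (dsp eT c) w := by
  refine tp_Ps_of fun w1 w2 h => ?_
  rw [← dsp_append]
  rw [h, List.count_append, List.count_append] at hw
  exact kk_hi hq (by rw [List.count_append]; omega) (by rw [List.count_append]; omega)

lemma tp_Ps_lo (hq : 1 ≤ q) (a : Fin n) (s : ℝ) (U : Ed (e + 3) (2 * m) → G)
    {c w : List (Fin (e + 3))} (hw : (c ++ w).count 1 = 0) :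
    tp eT (Ps L q a s U) (dsp eT c) w = tp eT U (dsp eT c) w := by
  refine tp_Ps_of fun w1 w2 h => ?_
  rw [← dsp_append]
  rw [h, List.count_append, List.count_append] at hw
  exact kk_lo hq (by rw [List.count_append]; omega)

lemma tp_Ps_rt (hq : 1 ≤ q) (a : Fin n) (s : ℝ) (U : Ed (e + 3) (2 * m) → G)
    {c w : List (Fin (e + 3))} (hc : 3 * q ≤ c.count 0) (hw : (c ++ w).count 0 < 2 * m) :
    tp eT (Ps L q a s U) (dsp eT c) w = tp eT U (dsp eT c) w := by
  refine tp_Ps_of fun w1 w2 h => ?_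
  rw [← dsp_append]
  rw [h, List.count_append, List.count_append] at hw
  exact kk_rt hq (by rw [List.count_append]; omega) (by rw [List.count_append]; omega)

lemma tp_Ps_lf (hq : 1 ≤ q) (hqm : 2 * q ≤ 2 * m) (a : Fin n) (s : ℝ)
    (U : Ed (e + 3) (2 * m) → G)
    {c w : List (Fin (e + 3))} (hw : (c ++ w).count 0 ≤ 2 * q) :
    tp eT (Ps L q a s U) (dsp eT c) w = tp eT U (dsp eT c) w := by
  refine tp_Ps_of fun w1 w2 h => ?_
  rw [← dsp_append]
  rw [h, List.count_append, List.count_append, List.count_cons_self] at hw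
  exact kk_lf hq (by rw [List.count_append]; omega) (by rw [List.count_append]; omega)

lemma tp_Ps_dir (a : Fin n) (s : ℝ) (U : Ed (e + 3) (2 * m) → G)
    (x : Fin (e + 3) → ZMod (2 * m)) {i : Fin (e + 3)} (hi : i ≠ 0) (k : ℕ) :
    tp eT (Ps L q a s U) x (List.replicate k i) = tp eT U x (List.replicate k i) := by
  refine tp_congr fun f hf => Ps_eq fun h => hi ?_
  rw [← (mem_lk_rep hf).1]
  exact h.1

/-- the reference path -/
def P0 (e q : ℕ) : List (Fin (e + 3)) := Tq e q ++ List.replicate (3 * q) 0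

lemma rep0 (k : ℕ) (j : Fin (e + 3)) : (List.replicate k (0 : Fin (e + 3))).count j =
    if j = 0 then k else 0 := by
  rw [List.count_replicate]
  by_cases h : j = 0
  · subst h; simp
  · have h' : ¬(0 : Fin (e + 3)) = j := fun h1 => h h1.symm
    simp [h, h']

lemma rep1 (k : ℕ) (j : Fin (e + 3)) : (List.replicate k (1 : Fin (e + 3))).count j =
    if j = 1 then k else 0 := by
  rw [List.count_replicate]
  by_cases h : j = 1
  · subst h; simp
  · have h' : ¬(1 : Fin (e + 3)) = j := fun h1 => h h1.symm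
    simp [h, h']

lemma count_P0 (j : Fin (e + 3)) : (P0 e q).count j =
    (if j = Fin.last (e + 2) then 2 * q else 0) + if j = 0 then 3 * q else 0 := by
  unfold P0
  rw [List.count_append, count_Tq, rep0]

variable {K : ℕ}

/-- the transports of the loops -/
def gP (K q : ℕ) (z : Fin (e + 3) → ℕ) (U : Ed (e + 3) (2 * m) → G) : G :=
  tp eT U 0 (Tq e q ++ PO K q z) * (tp eT U 0 (P0 e q ++ PB K z))⁻¹

/-- the transports of the loops -/
def gQ (K q : ℕ) (z : Fin (e + 3) → ℕ) (U : Ed (e + 3) (2 * m) → G) : G :=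
  tp eT U 0 (Tq e q ++ QO K q z) * (tp eT U 0 (P0 e q ++ QB K q z))⁻¹

lemma tp_Ps_T (a : Fin n) (s : ℝ) (U : Ed (e + 3) (2 * m) → G)
    (x : Fin (e + 3) → ZMod (2 * m)) :
    tp eT (Ps L q a s U) x (Tq e q) = tp eT U x (Tq e q) := tp_Ps_dir a s U x last_ne0 _

lemma tp_Ps_P0 (hq : 1 ≤ q) (a : Fin n) (s : ℝ) (U : Ed (e + 3) (2 * m) → G) :
    tp eT (Ps L q a s U) 0 (P0 e q) = tp eT U 0 (P0 e q) := by
  unfold P0
  rw [tp2, tp2, tp_Ps_T, tp_Ps_lo hq]
  rw [List.count_append, count_Tq, rep0, if_neg (Ne.symm last_ne1), if_neg one_ne]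

/-- the transports after the box are not shifted -/
lemma tp_Ps_back (hq : 1 ≤ q) (a : Fin n) (s : ℝ) (U : Ed (e + 3) (2 * m) → G)
    {w : List (Fin (e + 3))} (hw : (P0 e q ++ w).count 0 < 2 * m) :
    tp eT (Ps L q a s U) 0 (P0 e q ++ w) = tp eT U 0 (P0 e q ++ w) := by
  rw [tp2, tp2, tp_Ps_P0 hq, tp_Ps_rt hq a s U (by
    rw [count_P0, if_neg (Ne.symm last_ne0), if_pos rfl]; omega) hw]

/-- the transports before the box are not shifted -/
lemma tp_Ps_TA (hq : 1 ≤ q) (hqK : q = 2 ^ K) (hqm : 2 * q ≤ 2 * m) (a : Fin n) (s : ℝ)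
    (U : Ed (e + 3) (2 * m) → G) {z : Fin (e + 3) → ℕ} (hz : z ∈ cu e K) :
    tp eT (Ps L q a s U) 0 (Tq e q ++ fw 0 K z) = tp eT U 0 (Tq e q ++ fw 0 K z) := by
  rw [tp2, tp2, tp_Ps_T, tp_Ps_lf hq hqm]
  rw [List.count_append, count_Tq, count_fw, if_neg (Ne.symm last_ne0)]
  have := cu_lt hz hqK 0
  omega

lemma gQ_Ps (hq : 1 ≤ q) (hqK : q = 2 ^ K) (hqm : 5 * q < 2 * m) (a : Fin n) (s : ℝ)
    (U : Ed (e + 3) (2 * m) → G) {z : Fin (e + 3) → ℕ} (hz : z ∈ cu e K) :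
    gQ K q z (Ps L q a s U) = gQ K q z U := by
  have hz0 := cu_lt hz hqK 0
  have hz1 := cu_ge hz hqK one_ne_last
  have h1 : tp eT (Ps L q a s U) 0 (Tq e q ++ QO K q z) = tp eT U 0 (Tq e q ++ QO K q z) := by
    have e1 : Tq e q ++ QO K q z = (Tq e q ++ fw 0 K z) ++ List.replicate (3 * q) 1 ++
        List.replicate (3 * q) 0 := by
      unfold QO
      simp only [List.append_assoc]
    rw [e1, tp3, tp3, tp_Ps_TA hq hqK (by omega) a s U hz, tp_Ps_dir a s U _ one_ne,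
      tp_Ps_hi hq]
    · rw [List.count_append, List.count_append, count_Tq, count_fw, rep1, if_pos rfl]
      omega
    · rw [List.count_append, List.count_append, List.count_append, count_Tq, count_fw, rep1,
        rep0, if_pos rfl, if_neg one_ne, if_neg (Ne.symm last_ne1)]
      omega
  have h2 : tp eT (Ps L q a s U) 0 (P0 e q ++ QB K q z) = tp eT U 0 (P0 e q ++ QB K q z) := by
    refine tp_Ps_back hq a s U ?_
    rw [List.count_append, count_P0, count_QB, if_neg (Ne.symm last_ne0), if_pos rfl,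
      if_neg (Ne.symm one_ne)]
    omega
  unfold gQ
  rw [h1, h2]

/-- the position of the segment -/
def yA (m : ℕ) (K q : ℕ) (z : Fin (e + 3) → ℕ) : Fin (e + 3) → ZMod (2 * m) :=
  dsp eT (Tq e q ++ fw 0 K z)

lemma gP_Ps (hq : 1 ≤ q) (hqK : q = 2 ^ K) (hqm : 5 * q < 2 * m) (a : Fin n) (s : ℝ)
    (U : Ed (e + 3) (2 * m) → G) {z : Fin (e + 3) → ℕ} (hz : z ∈ cu e K) :
    dd L (gP K q z (Ps L q a s U))
      (L.ex a (s * KK q (yA m K q z) (3 * q)) * gP K q z U) ≤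
      |s| * ER L q U (tp eT U 0 (Tq e q ++ fw 0 K z)) (yA m K q z) (3 * q) := by
  have hz0 := cu_lt hz hqK 0
  have e1 : Tq e q ++ PO K q z = (Tq e q ++ fw 0 K z) ++ List.replicate (3 * q) 0 := by
    unfold PO
    simp only [List.append_assoc]
  have h2 : tp eT (Ps L q a s U) 0 (P0 e q ++ PB K z) = tp eT U 0 (P0 e q ++ PB K z) := by
    refine tp_Ps_back hq a s U ?_
    unfold PB
    rw [List.count_append, count_P0, count_fw, if_neg (Ne.symm last_ne0), if_pos rfl]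
    omega
  unfold gP
  rw [h2, e1, tp2 _ (Tq e q ++ fw 0 K z), tp2 _ (Tq e q ++ fw 0 K z),
    tp_Ps_TA hq hqK (by omega) a s U hz]
  obtain ⟨W, hW⟩ : ∃ W, W = (tp eT U 0 (P0 e q ++ PB K z))⁻¹ := ⟨_, rfl⟩
  obtain ⟨A, hA⟩ : ∃ A, A = tp eT U 0 (Tq e q ++ fw 0 K z) := ⟨_, rfl⟩
  have hy : (dsp eT (Tq e q ++ fw 0 K z) : Fin (e + 3) → ZMod (2 * m)) = yA m K q z := rfl
  rw [← hW, ← hA, hy]
  have e2 : L.ex a (s * KK q (yA m K q z) (3 * q)) *
      (A * tp eT U (yA m K q z) (List.replicate (3 * q) 0) * W) =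
      L.ex a (s * KK q (yA m K q z) (3 * q)) *
      (A * tp eT U (yA m K q z) (List.replicate (3 * q) 0)) * W := by group
  rw [e2, dd_rmul]
  exact resp_seg a s U A (yA m K q z) (3 * q)

/-! ### the weight of a segment -/

lemma yA_add (z : Fin (e + 3) → ℕ) (k : ℕ) : yA m K q z + k • eT 0 =
    (dsp eT ((Tq e q ++ fw 0 K z) ++ List.replicate k 0) : Fin (e + 3) → ZMod (2 * m)) := by
  unfold yA
  rw [dsp_append (Tq e q ++ fw 0 K z), dsp_rep]

lemma count_seg (z : Fin (e + 3) → ℕ) (k : ℕ) (j : Fin (e + 3)) :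
    ((Tq e q ++ fw 0 K z) ++ List.replicate k 0).count j =
      (if j = Fin.last (e + 2) then 2 * q else 0) + z j + if j = 0 then k else 0 := by
  rw [List.count_append, List.count_append, count_Tq, count_fw, rep0]

lemma seg_le (hqK : q = 2 ^ K) {z : Fin (e + 3) → ℕ} (hz : z ∈ cu e K) {k : ℕ}
    (hk : k ≤ 3 * q) (j : Fin (e + 3)) :
    ((Tq e q ++ fw 0 K z) ++ List.replicate k 0).count j ≤ 5 * q := by
  rw [count_seg]
  have h1 := cu_lt hz hqK j
  by_cases h0 : j = 0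
  · subst h0
    rw [if_neg (Ne.symm last_ne0), if_pos rfl]
    omega
  · rw [if_neg h0]
    split_ifs <;> omega

/-- the part of the segment in the box -/
def Ij (q : ℕ) (z : Fin (e + 3) → ℕ) : Finset ℕ := Finset.Ico (2 * q - z 0) (3 * q - z 0)

lemma Ij_sub (z : Fin (e + 3) → ℕ) : Ij q z ⊆ Finset.range (3 * q) := by
  intro k hk
  have h := Finset.mem_Ico.1 hk
  rw [Finset.mem_range]
  omega

lemma Ij_card (hqK : q = 2 ^ K) {z : Fin (e + 3) → ℕ} (hz : z ∈ cu e K) :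
    (Ij q z).card = q := by
  unfold Ij
  rw [Nat.card_Ico]
  have h1 := cu_lt hz hqK 0
  omega

lemma kk_out (hq : 1 ≤ q) (hqK : q = 2 ^ K) (hqm : 5 * q < 2 * m) {z : Fin (e + 3) → ℕ}
    (hz : z ∈ cu e K) {k : ℕ} (hk : k < 3 * q)
    (h : k ∉ Ij q z) : kk q (yA m K q z + k • eT 0) = 0 := by
  by_contra hc
  have h1 := (kk_ne hq hc).1
  have h3 := seg_le hqK hz (k := k) (by omega) 0
  rw [yA_add, wv_dsp (by omega), count_seg, if_neg (Ne.symm last_ne0), if_pos rfl] at h1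
  refine h (Finset.mem_Ico.2 ?_)
  have h2 := cu_lt hz hqK 0
  omega

lemma kk_in (hq : 1 ≤ q) (hqK : q = 2 ^ K) (hqm : 5 * q < 2 * m) {z : Fin (e + 3) → ℕ}
    (hz : z ∈ cu e K) {k : ℕ} (h : k ∈ Ij q z) :
    (1 / 2 : ℝ) ^ (e + 2) ≤ kk q (yA m K q z + k • eT 0) := by
  have h1 := Finset.mem_Ico.1 h
  have h2 := cu_lt hz hqK 0
  have hk : k ≤ 3 * q := by omega
  rw [yA_add]
  have hw : ∀ j, wv (dsp eT ((Tq e q ++ fw 0 K z) ++ List.replicate k 0) :
      Fin (e + 3) → ZMod (2 * m)) j = (if j = Fin.last (e + 2) then 2 * q else 0) + z j +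
        if j = 0 then k else 0 := fun j => by
    have := seg_le hqK hz hk j
    rw [wv_dsp (by omega), count_seg]
  refine kk_low hq ?_ fun j hj => ?_
  · rw [hw, if_neg (Ne.symm last_ne0), if_pos rfl]
    omega
  · rw [hw, if_neg hj]
    by_cases h3 : j = Fin.last (e + 2)
    · rw [if_pos h3, h3, cu_last hz]
      omega
    · rw [if_neg h3]
      have := cu_ge hz hqK h3
      omega

lemma KK_eq (hq : 1 ≤ q) (hqK : q = 2 ^ K) (hqm : 5 * q < 2 * m) {z : Fin (e + 3) → ℕ}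
    (hz : z ∈ cu e K) :
    KK q (yA m K q z) (3 * q) = ∑ k ∈ Ij q z, kk q (yA m K q z + k • eT 0) := by
  unfold KK
  refine (Finset.sum_subset (Ij_sub z) fun k hk hk' => ?_).symm
  exact kk_out hq hqK hqm hz (Finset.mem_range.1 hk) hk'

lemma KK_le (hq : 1 ≤ q) (hqK : q = 2 ^ K) (hqm : 5 * q < 2 * m) {z : Fin (e + 3) → ℕ}
    (hz : z ∈ cu e K) : KK q (yA m K q z) (3 * q) ≤ q := by
  rw [KK_eq hq hqK hqm hz]
  calc _ ≤ ∑ _k ∈ Ij q z, (1 : ℝ) := Finset.sum_le_sum fun k _ => kk_le _ _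
    _ = q := by rw [Finset.sum_const, Ij_card hqK hz, nsmul_eq_mul, mul_one]

lemma KK_ge (hq : 1 ≤ q) (hqK : q = 2 ^ K) (hqm : 5 * q < 2 * m) {z : Fin (e + 3) → ℕ}
    (hz : z ∈ cu e K) : (1 / 2 : ℝ) ^ (e + 2) * q ≤ KK q (yA m K q z) (3 * q) := by
  rw [KK_eq hq hqK hqm hz]
  calc (1 / 2 : ℝ) ^ (e + 2) * q = ∑ _k ∈ Ij q z, (1 / 2 : ℝ) ^ (e + 2) := by
        rw [Finset.sum_const, Ij_card hqK hz, nsmul_eq_mul]; ring
    _ ≤ _ := Finset.sum_le_sum fun k hk => kk_in hq hqK hqm hz hk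

lemma KK_nonneg (y : Fin (e + 3) → ZMod (2 * m)) (r : ℕ) : 0 ≤ KK q y r :=
  Finset.sum_nonneg fun _ _ => kk_nonneg _ _

end

end Pool.Agent.V11322
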