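import Mathlib
import Pool.Agent.V11322.YM.Rs

/-!
# The loops are close to the identity
-/

open MeasureTheory Matrix Filter
open scoped Matrix.Norms.Frobenius Topology
open Pool.Agent.H906R3.YM hiding Pl
open Pool.Agent.W793.YM Pool.Agent.TH618.YM Pool.Agent.Y14 Pool.Agent.V11260

namespace Pool.Agent.V11322

set_option linter.unusedSectionVars false
set_option linter.unusedVariables false

noncomputable section

variable {G : Type*} [Group G] [TopologicalSpace G] [IsTopologicalGroup G] [CompactSpace G]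
  [SecondCountableTopology G] [MeasurableSpace G] [BorelSpace G] (μ : Measure G)
  [IsProbabilityMeasure μ] [μ.IsMulLeftInvariant] [μ.IsMulRightInvariant] [μ.IsInvInvariant]
  {N n : ℕ} {L : LD G N n} {e m : ℕ} [NeZero m] {q K : ℕ} {β : ℝ}

variable (L) in
/-- rectangles with sides of at most `2 ^ (K + 3)` are close to the identity -/
def RB (e m : ℕ) [NeZero m] (β b₀ : ℝ) (K : ℕ) : Prop :=
  ∀ k' ≤ K + 3, ∀ i j : Fin (e + 3), i ≠ j → ∀ a b, a ≤ 2 ^ k' → b ≤ 2 ^ k' →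
    sR μ L m β i j a b ≤ b₀ * Real.sqrt (2 ^ k')

variable (L) in
/-- the transport along `w` is close to the one along the comb with the same end point -/
def SC (m : ℕ) [NeZero m] (β : ℝ) (w : List (Fin (e + 3))) (b : ℝ) : Prop :=
  St μ L β 0 (0 : Fin (e + 3) → ZMod (2 * m)) w (fun k => w.count k) b

/-- the unit of the errors -/
def uu (e : ℕ) (b₀ : ℝ) (K : ℕ) : ℝ := ((e + 3 : ℕ) : ℝ) ^ 2 * (b₀ * Real.sqrt (2 ^ (K + 3)))

lemma uu_nonneg {b₀ : ℝ} (hb₀ : 0 ≤ b₀) : 0 ≤ uu e b₀ K :=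
  mul_nonneg (by positivity) (mul_nonneg hb₀ (Real.sqrt_nonneg _))

lemma d_uu {b₀ : ℝ} (hb₀ : 0 ≤ b₀) :
    ((e + 3 : ℕ) : ℝ) * (b₀ * Real.sqrt (2 ^ (K + 3))) ≤ uu e b₀ K := by
  unfold uu
  refine mul_le_mul_of_nonneg_right ?_ (mul_nonneg hb₀ (Real.sqrt_nonneg _))
  push_cast
  have : (0 : ℝ) ≤ e := Nat.cast_nonneg e
  nlinarith

lemma dd_uu {b₀ : ℝ} : ((e + 3 : ℕ) : ℝ) * (((e + 3 : ℕ) : ℝ) *
    (b₀ * Real.sqrt (2 ^ (K + 3)))) = uu e b₀ K := by
  unfold uu; ring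

lemma geo_uu {b₀ : ℝ} (hb₀ : 0 ≤ b₀) {k : ℕ} (hk : k ≤ K + 3) : ((e + 3 : ℕ) : ℝ) ^ 2 *
    (b₀ * ∑ i ∈ Finset.range k, Real.sqrt (2 ^ (i + 2))) ≤ 5 * uu e b₀ K := by
  have h1 := geo k
  have h2 : Real.sqrt ((2 : ℝ) ^ k) ≤ Real.sqrt (2 ^ (K + 3)) :=
    Real.sqrt_le_sqrt (pow_le_pow_right₀ (by norm_num) hk)
  unfold uu
  calc _ ≤ ((e + 3 : ℕ) : ℝ) ^ 2 * (b₀ * (5 * Real.sqrt (2 ^ (K + 3)))) :=
        mul_le_mul_of_nonneg_left (mul_le_mul_of_nonneg_left (by linarith) hb₀) (by positivity)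
    _ = _ := by ring

lemma SC.nil : SC μ L (e := e) m β [] 0 := by
  refine ⟨?_, ?_⟩
  · rw [dsp_nil]
    funext j
    simp [ct]
  · have h1 : (fun k => ([] : List (Fin (e + 3))).count k) = fun _ => 0 := by
      funext k; simp
    rw [h1, cmb_zero]
    simp only [dd_self, en_zero, le_refl]

lemma SC.rep {b₀ : ℝ} (hb₀ : 0 ≤ b₀) (hb : RB μ L e m β b₀ K) {nn : ℕ}
    {w : List (Fin (e + 3))} {b : ℝ} (h : SC μ L m β w b) (i : Fin (e + 3))
    (hc : ∀ k, (w ++ List.replicate nn i).count k ≤ 2 ^ (K + 3)) :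
    SC μ L m β (w ++ List.replicate nn i) (b + uu e b₀ K) := by
  have h1 : ∀ k, w.count k ≤ 2 ^ (K + 3) := fun k => by
    have := hc k; rw [List.count_append] at this; omega
  have h2 : nn ≤ 2 ^ (K + 3) := by
    have := hc i; rw [List.count_append, List.count_replicate_self] at this; omega
  refine (V11260.St.rep μ h2 (mul_nonneg hb₀ (Real.sqrt_nonneg _)) (hb (K + 3) le_rfl) h1 h
    i).mono μ (fun k => ?_) (add_le_add le_rfl (d_uu hb₀))
  rw [List.count_append, List.count_replicate]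
  congr 1
  by_cases hk : k = i
  · subst hk; simp
  · have h' : ¬i = k := fun h1 => hk h1.symm
    simp [hk, h']

lemma SC.fw {b₀ : ℝ} (hb₀ : 0 ≤ b₀) (hb : RB μ L e m β b₀ K)
    {w : List (Fin (e + 3))} {b : ℝ} (h : SC μ L m β w b) {z : Fin (e + 3) → ℕ}
    (hz : z ∈ cu e K) (hc : ∀ k, (w ++ fw 0 K z).count k ≤ 2 ^ (K + 3)) :
    SC μ L m β (w ++ V11260.fw 0 K z) (b + 6 * uu e b₀ K) := by
  have h1 : ∀ k, w.count k + z k ≤ 2 ^ (K + 3) := fun k => by
    have := hc k; rwa [List.count_append, count_fw] at this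
  have h2 := fw_St μ (L := L) (β := β) (i₀ := 0) (Bf := fun k => b₀ * Real.sqrt (2 ^ k))
    (fun k => mul_nonneg hb₀ (Real.sqrt_nonneg _)) (fun k hk => hb k (by omega)) hz
    (0 + ct (2 * m) fun k => w.count k)
  refine (St_pre μ (mul_nonneg hb₀ (Real.sqrt_nonneg _)) (hb (K + 3) le_rfl) h1 h h2).mono μ
    (fun k => ?_) ?_
  · rw [List.count_append, count_fw]
  · have h3 := geo_uu (e := e) (K := K) hb₀ (k := K) (by omega)
    rw [Finset.mul_sum] at h3
    rw [dd_uu]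
    linarith

lemma SC.cmp {w w' : List (Fin (e + 3))} {b b' : ℝ} (h : SC μ L m β w b)
    (h' : SC μ L m β w' b') (hc : ∀ k, w.count k = w'.count k) :
    en μ L β (fun U : Ed (e + 3) (2 * m) → G => dd L (tp eT U 0 w) (tp eT U 0 w')) ≤ b + b' := by
  have e1 : (fun k => w'.count k) = fun k => w.count k := funext fun k => (hc k).symm
  obtain ⟨g1, g2⟩ := h
  obtain ⟨f1, f2⟩ := h'
  rw [e1] at f2
  refine (en_tri μ (L := L) (β := β) (tp_cont (u := eT) 0 w)
    (tp_cont (G := G) (u := eT) 0 (cmb (fun k => w.count k) (od 0)))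
    (tp_cont (u := eT) 0 w')).trans (add_le_add g2 ?_)
  refine le_trans (le_of_eq ?_) f2
  congr 1
  funext U
  rw [dd_comm]

lemma SC_T {b₀ : ℝ} (hb₀ : 0 ≤ b₀) (hb : RB μ L e m β b₀ K) (hqK : q = 2 ^ K) :
    SC μ L m β (Tq e q) (uu e b₀ K) := by
  have h8 : 2 ^ (K + 3) = 8 * q := by rw [hqK]; ring
  have h := SC.rep μ (L := L) hb₀ hb (nn := 2 * q) (SC.nil μ)
    (Fin.last (e + 2)) (fun k => by
      rw [List.nil_append, h8]
      have := count_Tq (e := e) (q := q) k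
      unfold Tq at this
      rw [this]
      split_ifs <;> omega)
  rw [List.nil_append, zero_add] at h
  exact h

/-- the words of the frames are sorted -/
lemma SC_wd {b₀ : ℝ} (hb₀ : 0 ≤ b₀) (hb : RB μ L e m β b₀ K) (hqK : q = 2 ^ K)
    {v : Fin (e + 3) → ℕ} (hv : ∀ k, v k ≤ 5 * q) :
    St μ L β 0 (0 : Fin (e + 3) → ZMod (2 * m)) (wd q v) v (7 * uu e b₀ K) := by
  have h8 : 2 ^ (K + 3) = 8 * q := by rw [hqK]; ring
  have hq0 : 0 < q := by rw [hqK]; positivity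
  have h1 := SC.rep μ (L := L) hb₀ hb (nn := v 0) (SC.nil μ) 0 (fun k => by
      rw [List.nil_append, h8, rep0]
      have := hv 0
      split_ifs <;> omega)
  rw [List.nil_append, zero_add] at h1
  have hlv : lv q = K + 3 := by rw [hqK]; exact lv_pow K
  have hy : ∀ j, Function.update v 0 0 j < 2 ^ (K + 3) := by
    intro j
    rw [h8]
    by_cases hj : j = 0
    · subst hj; rw [Function.update_self]; omega
    · rw [Function.update_of_ne hj]
      have := hv j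
      omega
  have h2 := hw_St μ (L := L) (β := β) (i₀ := 0) hb₀ hb hy
    (0 + ct (2 * m) fun k => (List.replicate (v 0) (0 : Fin (e + 3))).count k)
  unfold wd
  rw [hlv]
  refine (St_pre μ (mul_nonneg hb₀ (Real.sqrt_nonneg _)) (hb (K + 3) le_rfl) (fun k => ?_)
    h1 h2).mono μ (fun k => ?_) ?_
  · rw [rep0, h8]
    by_cases hk : k = 0
    · subst hk
      rw [if_pos rfl, Function.update_self]
      have := hv 0
      omega
    · rw [if_neg hk, Function.update_of_ne hk]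
      have := hv k
      omega
  · rw [rep0]
    by_cases hk : k = 0
    · subst hk
      rw [if_pos rfl, Function.update_self, add_zero]
    · rw [if_neg hk, Function.update_of_ne hk, zero_add]
  · have h3 := geo_uu (e := e) (K := K) hb₀ (k := K + 3) le_rfl
    rw [dd_uu]
    linarith

lemma count_le_of' {w1 w2 : List (Fin (e + 3))} {ρ : ℕ} (h : ∀ k, (w1 ++ w2).count k ≤ ρ)
    (k : Fin (e + 3)) : w1.count k ≤ ρ := by
  have := h k
  rw [List.count_append] at this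
  omega

/-- the error of the segments -/
lemma seg_en {b₀ : ℝ} (hb₀ : 0 ≤ b₀) (hb : RB μ L e m β b₀ K) (hqK : q = 2 ^ K)
    (hqm : 5 * q < 2 * m) {z : Fin (e + 3) → ℕ} (hz : z ∈ cu e K) {k : ℕ} (hk : k ≤ 3 * q) :
    en μ L β (fun U : Ed (e + 3) (2 * m) → G =>
      dd L (tp eT U 0 (Tq e q ++ fw 0 K z) * tp eT U (yA m K q z) (List.replicate k 0))
        (TT q U (yA m K q z + k • eT 0))) ≤ 15 * uu e b₀ K := by
  have h8 : 2 ^ (K + 3) = 8 * q := by rw [hqK]; ring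
  have hc := seg_le hqK hz hk
  have hc8 : ∀ j, ((Tq e q ++ fw 0 K z) ++ List.replicate k 0).count j ≤ 2 ^ (K + 3) :=
    fun j => by rw [h8]; have := hc j; omega
  have h1 := SC.rep μ (L := L) hb₀ hb (SC.fw μ hb₀ hb (SC_T μ hb₀ hb hqK) hz
    (count_le_of' hc8)) 0 hc8
  obtain ⟨v, hv⟩ : ∃ v : Fin (e + 3) → ℕ, v = fun j =>
    ((Tq e q ++ fw 0 K z) ++ List.replicate k 0).count j := ⟨_, rfl⟩
  have h2 := SC_wd μ (L := L) (m := m) hb₀ hb hqK (v := v) (fun j => by rw [hv]; exact hc j)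
  have h3 : wv (yA m K q z + k • eT 0) = v := by
    rw [hv]
    funext j
    rw [yA_add, wv_dsp (by have := hc j; omega)]
  have h4 : ∀ U : Ed (e + 3) (2 * m) → G,
      tp eT U 0 (Tq e q ++ fw 0 K z) * tp eT U (yA m K q z) (List.replicate k 0) =
      tp eT U 0 ((Tq e q ++ fw 0 K z) ++ List.replicate k 0) := by
    intro U
    rw [tp2 U (Tq e q ++ fw 0 K z)]
    rfl
  unfold TT
  simp only [h3, h4]
  obtain ⟨g1, g2⟩ := h1
  obtain ⟨f1, f2⟩ := h2
  rw [← hv] at g2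
  refine (en_tri μ (L := L) (β := β) (tp_cont (u := eT) 0 _)
    (tp_cont (G := G) (u := eT) 0 (cmb v (od 0)))
    (tp_cont (u := eT) 0 _)).trans ?_
  have e1 : (fun U : Ed (e + 3) (2 * m) → G => dd L (tp eT U 0 (cmb v (od 0)))
      (tp eT U 0 (wd q v))) = fun U => dd L (tp eT U 0 (wd q v)) (tp eT U 0 (cmb v (od 0))) := by
    funext U; rw [dd_comm]
  rw [e1]
  refine (add_le_add g2 f2).trans (le_of_eq ?_)
  ring

lemma PO_count (hqK : q = 2 ^ K) {z : Fin (e + 3) → ℕ} (hz : z ∈ cu e K) (j : Fin (e + 3)) :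
    (Tq e q ++ PO K q z).count j ≤ 8 * q := by
  rw [List.count_append, count_Tq, count_PO]
  have := cu_lt hz hqK j
  split_ifs <;> omega

lemma QO_count (hqK : q = 2 ^ K) {z : Fin (e + 3) → ℕ} (hz : z ∈ cu e K) (j : Fin (e + 3)) :
    (Tq e q ++ QO K q z).count j ≤ 8 * q := by
  rw [List.count_append, count_Tq, count_QO]
  have := cu_lt hz hqK j
  by_cases h0 : j = 0
  · subst h0
    rw [if_neg (Ne.symm last_ne0), if_neg (Ne.symm one_ne), if_pos rfl]
    omega
  · rw [if_neg h0]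
    split_ifs <;> omega

lemma PB_count (hqK : q = 2 ^ K) {z : Fin (e + 3) → ℕ} (hz : z ∈ cu e K) (j : Fin (e + 3)) :
    (P0 e q ++ PB K z).count j ≤ 8 * q := by
  unfold PB
  rw [List.count_append, count_P0, count_fw]
  have := cu_lt hz hqK j
  split_ifs <;> omega

lemma QB_count (hqK : q = 2 ^ K) {z : Fin (e + 3) → ℕ} (hz : z ∈ cu e K) (j : Fin (e + 3)) :
    (P0 e q ++ QB K q z).count j ≤ 8 * q := by
  rw [List.count_append, count_P0, count_QB]
  have := cu_lt hz hqK j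
  by_cases h0 : j = 0
  · subst h0
    rw [if_neg (Ne.symm last_ne0), if_neg (Ne.symm one_ne), if_pos rfl]
    omega
  · rw [if_neg h0]
    split_ifs <;> omega

/-- the loops are close to the identity -/
lemma gP_en {b₀ : ℝ} (hb₀ : 0 ≤ b₀) (hb : RB μ L e m β b₀ K) (hqK : q = 2 ^ K)
    {z : Fin (e + 3) → ℕ} (hz : z ∈ cu e K) :
    en μ L β (fun U : Ed (e + 3) (2 * m) → G => dv L (gP K q z U)) ≤ 18 * uu e b₀ K := by
  have h8 : 2 ^ (K + 3) = 8 * q := by rw [hqK]; ring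
  have hu := uu_nonneg (e := e) (K := K) hb₀
  have e1 : Tq e q ++ PO K q z = (Tq e q ++ fw 0 K z) ++ List.replicate (3 * q) 0 := by
    unfold PO
    simp only [List.append_assoc]
  have hc := PO_count (q := q) hqK hz
  rw [e1, ← h8] at hc
  have s1 := SC.rep μ (L := L) hb₀ hb (SC.fw μ hb₀ hb (SC_T μ hb₀ hb hqK) hz
    (count_le_of' hc)) 0 hc
  rw [← e1] at s1
  have hc' := PB_count (q := q) hqK hz
  rw [← h8] at hc'
  have s2 := SC.fw μ (L := L) hb₀ hb (SC.rep μ hb₀ hb (SC_T μ hb₀ hb hqK) 0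
    (count_le_of' hc')) hz hc'
  have hf := SC.cmp μ s1 s2 fun k => by
    show (Tq e q ++ PO K q z).count k = (P0 e q ++ PB K z).count k
    unfold PB
    rw [List.count_append, List.count_append, count_P0, count_PO, count_fw, count_Tq]
    ring
  unfold gP
  simp only [← dd_dv]
  refine hf.trans ?_
  linarith

lemma gQ_en {b₀ : ℝ} (hb₀ : 0 ≤ b₀) (hb : RB μ L e m β b₀ K) (hqK : q = 2 ^ K)
    {z : Fin (e + 3) → ℕ} (hz : z ∈ cu e K) :
    en μ L β (fun U : Ed (e + 3) (2 * m) → G => dv L (gQ K q z U)) ≤ 18 * uu e b₀ K := by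
  have h8 : 2 ^ (K + 3) = 8 * q := by rw [hqK]; ring
  have hu := uu_nonneg (e := e) (K := K) hb₀
  have e1 : Tq e q ++ QO K q z = ((Tq e q ++ fw 0 K z) ++ List.replicate (3 * q) 1) ++
      List.replicate (3 * q) 0 := by
    unfold QO
    simp only [List.append_assoc]
  have hc := QO_count (q := q) hqK hz
  rw [e1, ← h8] at hc
  have c1 := count_le_of' hc
  have s1 := SC.rep μ (L := L) hb₀ hb (SC.rep μ hb₀ hb (SC.fw μ hb₀ hb (SC_T μ hb₀ hb hqK) hz
    (count_le_of' c1)) 1 c1) 0 hc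
  rw [← e1] at s1
  have e2 : P0 e q ++ QB K q z = (P0 e q ++ fw 0 K z) ++ List.replicate (3 * q) 1 := by
    unfold QB
    simp only [List.append_assoc]
  have hc' := QB_count (q := q) hqK hz
  rw [e2, ← h8] at hc'
  have c2 := count_le_of' hc'
  have s2 := SC.rep μ (L := L) hb₀ hb (SC.fw μ (L := L) hb₀ hb
    (SC.rep μ hb₀ hb (SC_T μ hb₀ hb hqK) 0 (count_le_of' c2)) hz c2) 1 hc'
  have s2' : SC μ L m β (P0 e q ++ QB K q z)
      (uu e b₀ K + uu e b₀ K + 6 * uu e b₀ K + uu e b₀ K) := by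
    rw [e2]; exact s2
  have hf := SC.cmp μ s1 s2' fun k => by
    rw [List.count_append, List.count_append, count_P0, count_QO, count_QB, count_Tq]
    ring
  unfold gQ
  simp only [← dd_dv]
  refine hf.trans ?_
  linarith

end

end Pool.Agent.V11322
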