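import Mathlib
import Pool.Agent.Y14.Psi
import Pool.Agent.V11322.YM.Rs2

/-!
# The field and its response to the shift
-/

open MeasureTheory Matrix Filter
open scoped Matrix.Norms.Frobenius Topology
open Pool.Agent.H906R3.YM hiding Pl
open Pool.Agent.W793.YM Pool.Agent.TH618.YM Pool.Agent.Y14 Pool.Agent.V11260

namespace Pool.Agent.V11322

set_option linter.unusedSectionVars false
set_option linter.unusedVariables false

noncomputable section

variable {G : Type*} [Group G] [TopologicalSpace G] [IsTopologicalGroup G] [CompactSpace G]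
  [SecondCountableTopology G] [MeasurableSpace G] [BorelSpace G] (μ : Measure G)
  [IsProbabilityMeasure μ] [μ.IsMulLeftInvariant] [μ.IsMulRightInvariant] [μ.IsInvInvariant]
  {N n : ℕ} {L : LD G N n} {e m : ℕ} [NeZero m] {q K : ℕ} {β : ℝ}

variable (L) in
/-- the field, transported to the origin -/
def psi (K q : ℕ) (U : Ed (e + 3) (2 * m) → G) : Mat N :=
  ∑ z ∈ cu e K, ww e K • (L.rho (gP K q z U) - L.rho (gQ K q z U))

lemma gP_cont (z : Fin (e + 3) → ℕ) : Continuous fun U : Ed (e + 3) (2 * m) → G => gP K q z U :=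
  (tp_cont _ _).mul (tp_cont _ _).inv

lemma gQ_cont (z : Fin (e + 3) → ℕ) : Continuous fun U : Ed (e + 3) (2 * m) → G => gQ K q z U :=
  (tp_cont _ _).mul (tp_cont _ _).inv

lemma psi_cont : Continuous fun U : Ed (e + 3) (2 * m) → G => psi L K q U := by
  refine continuous_finsetSum _ fun z _ => ?_
  have h1 : Continuous fun U : Ed (e + 3) (2 * m) → G =>
      L.rho (gP K q z U) - L.rho (gQ K q z U) :=
    (L.cont.comp (gP_cont (m := m) z)).sub (L.cont.comp (gQ_cont (m := m) z))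
  exact h1.const_smul (ww e K)

lemma psi_eq (U : Ed (e + 3) (2 * m) → G) : psi L K q U = L.rho (tp eT U 0 (Tq e q)) *
    phi eT L K q U (dsp eT (Tq e q)) * L.rho (tp eT U 0 (P0 e q))⁻¹ := by
  have hd : (dsp eT (P0 e q) : Fin (e + 3) → ZMod (2 * m)) = dsp eT (Tq e q) + (3 * q) • eT 0 := by
    unfold P0
    rw [dsp_append, dsp_rep]
  unfold psi phi
  rw [Finset.mul_sum, Finset.sum_mul]
  refine Finset.sum_congr rfl fun z _ => ?_
  rw [mul_smul_comm, smul_mul_assoc]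
  congr 1
  unfold gP gQ
  rw [tp2 U (Tq e q) (PO K q z), tp2 U (Tq e q) (QO K q z), tp2 U (P0 e q) (PB K z),
    tp2 U (P0 e q) (QB K q z), hd, mul_sub, sub_mul, _root_.mul_inv_rev,
    _root_.mul_inv_rev]
  simp only [map_mul, L.rho_inv, mul_assoc]

lemma norm_psi (U : Ed (e + 3) (2 * m) → G) :
    ‖psi L K q U‖ = ‖phi eT L K q U ((2 * q) • eT (Fin.last (e + 2)))‖ := by
  rw [psi_eq, norm_rmul, norm_lmul]
  unfold Tq
  rw [dsp_rep]

/-- the mean weight -/
def Kb (e K q m : ℕ) [NeZero m] : ℝ :=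
  ∑ z ∈ cu e K, ww e K * KK q (yA m K q z) (3 * q)

lemma Kb_le (hq : 1 ≤ q) (hqK : q = 2 ^ K) (hqm : 5 * q < 2 * m) : Kb e K q m ≤ q :=
  ww_avg fun z hz => KK_le hq hqK hqm hz

lemma Kb_ge (hq : 1 ≤ q) (hqK : q = 2 ^ K) (hqm : 5 * q < 2 * m) :
    (1 / 2 : ℝ) ^ (e + 2) * q ≤ Kb e K q m :=
  ww_avg' fun z hz => KK_ge hq hqK hqm hz

variable (L) in
/-- the error of the response -/
def Er (K q : ℕ) (s : ℝ) (U : Ed (e + 3) (2 * m) → G) : ℝ :=
  ∑ z ∈ cu e K, ww e K *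
    (ER L q U (tp eT U 0 (Tq e q ++ fw 0 K z)) (yA m K q z) (3 * q) + |s| * (q : ℝ) ^ 2 +
      q * dv L (gP K q z U))

lemma ER_nonneg (U : Ed (e + 3) (2 * m) → G) (g : G) (y : Fin (e + 3) → ZMod (2 * m)) (r : ℕ) :
    0 ≤ ER L q U g y r :=
  Finset.sum_nonneg fun _ _ => mul_nonneg (mul_nonneg zero_le_two (kk_nonneg _ _)) (dd_nonneg _ _)

lemma Er_nonneg (s : ℝ) (U : Ed (e + 3) (2 * m) → G) : 0 ≤ Er L K q s U := by
  unfold Er
  refine Finset.sum_nonneg fun z _ => mul_nonneg (ww_pos e K).le ?_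
  have h1 := ER_nonneg (L := L) (q := q) U (tp eT U 0 (Tq e q ++ fw 0 K z)) (yA m K q z) (3 * q)
  have h2 : 0 ≤ |s| * (q : ℝ) ^ 2 := by positivity
  have h3 : 0 ≤ (q : ℝ) * dv L (gP K q z U) := mul_nonneg (Nat.cast_nonneg _) (dv_nonneg _)
  linarith

/-- the response of the field -/
lemma psi_resp (hq : 1 ≤ q) (hqK : q = 2 ^ K) (hqm : 5 * q < 2 * m) (a : Fin n) (s : ℝ)
    (U : Ed (e + 3) (2 * m) → G) :
    ‖psi L K q (Ps L q a s U) - psi L K q U - (s * Kb e K q m) • L.X a‖ ≤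
      |s| * Er L K q s U := by
  have e1 : psi L K q (Ps L q a s U) - psi L K q U - (s * Kb e K q m) • L.X a =
      ∑ z ∈ cu e K, ww e K • (L.rho (gP K q z (Ps L q a s U)) -
        L.rho (gP K q z U) - (s * KK q (yA m K q z) (3 * q)) • L.X a) := by
    unfold psi Kb
    have e2 : (s * ∑ z ∈ cu e K, ww e K * KK q (yA m K q z) (3 * q)) • L.X a =
        ∑ z ∈ cu e K, ww e K • ((s * KK q (yA m K q z) (3 * q)) • L.X a) := by
      rw [Finset.mul_sum, Finset.sum_smul]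
      refine Finset.sum_congr rfl fun z _ => ?_
      rw [smul_smul]
      congr 1
      ring
    rw [e2, ← Finset.sum_sub_distrib, ← Finset.sum_sub_distrib]
    refine Finset.sum_congr rfl fun z hz => ?_
    rw [gQ_Ps hq hqK hqm a s U hz, ← smul_sub, ← smul_sub]
    congr 1
    abel
  rw [e1]
  unfold Er
  refine (norm_sum_le _ _).trans ?_
  rw [Finset.mul_sum]
  refine Finset.sum_le_sum fun z hz => ?_
  rw [norm_smul, Real.norm_eq_abs, abs_of_nonneg (ww_pos e K).le, mul_left_comm]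
  refine mul_le_mul_of_nonneg_left ?_ (ww_pos e K).le
  refine (one_resp a _ _ _).trans ?_
  have h1 := gP_Ps (L := L) hq hqK hqm a s U hz
  have h2 := KK_le hq hqK hqm hz
  have h3 := KK_nonneg (q := q) (yA m K q z) (3 * q)
  have h4 : (s * KK q (yA m K q z) (3 * q)) ^ 2 ≤ |s| * (|s| * (q : ℝ) ^ 2) := by
    rw [mul_pow, ← mul_assoc, ← sq, sq_abs]
    exact mul_le_mul_of_nonneg_left (pow_le_pow_left₀ h3 h2 2) (sq_nonneg _)
  have h5 : |s * KK q (yA m K q z) (3 * q)| * dv L (gP K q z U) ≤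
      |s| * (q * dv L (gP K q z U)) := by
    rw [abs_mul, abs_of_nonneg h3, mul_assoc]
    exact mul_le_mul_of_nonneg_left (mul_le_mul_of_nonneg_right h2 (dv_nonneg _)) (abs_nonneg _)
  rw [mul_add, mul_add]
  linarith

lemma ERd_cont (z : Fin (e + 3) → ℕ) (k : ℕ) : Continuous fun U : Ed (e + 3) (2 * m) → G =>
    dd L (tp eT U 0 (Tq e q ++ fw 0 K z) * tp eT U (yA m K q z) (List.replicate k 0))
        (TT q U (yA m K q z + k • eT 0)) :=
  dd_cont ((tp_cont _ _).mul (tp_cont _ _)) (tp_cont _ _)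

lemma ER_cont (z : Fin (e + 3) → ℕ) : Continuous fun U : Ed (e + 3) (2 * m) → G =>
    ER L q U (tp eT U 0 (Tq e q ++ fw 0 K z)) (yA m K q z) (3 * q) :=
  continuous_finsetSum _ fun k _ => continuous_const.mul (ERd_cont z k)

lemma dvP_cont (z : Fin (e + 3) → ℕ) :
    Continuous fun U : Ed (e + 3) (2 * m) → G => dv L (gP K q z U) :=
  dv_cont.comp (gP_cont z)

lemma dvQ_cont (z : Fin (e + 3) → ℕ) :
    Continuous fun U : Ed (e + 3) (2 * m) → G => dv L (gQ K q z U) :=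
  dv_cont.comp (gQ_cont z)

lemma Er_cont (s : ℝ) : Continuous (Er L K q s : (Ed (e + 3) (2 * m) → G) → ℝ) :=
  continuous_finsetSum _ fun z _ => continuous_const.mul
    (((ER_cont z).add continuous_const).add (continuous_const.mul (dvP_cont z)))

lemma ER_en {b₀ : ℝ} (hb₀ : 0 ≤ b₀) (hb : RB μ L e m β b₀ K) (hq : 1 ≤ q) (hqK : q = 2 ^ K)
    (hqm : 5 * q < 2 * m) {z : Fin (e + 3) → ℕ} (hz : z ∈ cu e K) :
    en μ L β (fun U : Ed (e + 3) (2 * m) → G =>
      ER L q U (tp eT U 0 (Tq e q ++ fw 0 K z)) (yA m K q z) (3 * q)) ≤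
      2 * q * (15 * uu e b₀ K) := by
  have hu := uu_nonneg (e := e) (K := K) hb₀
  have hu' : 0 ≤ 15 * uu e b₀ K := by positivity
  unfold ER
  refine (en_sum μ (Finset.range (3 * q)) fun k => continuous_const.mul (ERd_cont z k)).trans ?_
  have h1 : ∀ k ∈ Finset.range (3 * q), en μ L β (fun U : Ed (e + 3) (2 * m) → G =>
      2 * kk q (yA m K q z + k • eT 0) *
      dd L (tp eT U 0 (Tq e q ++ fw 0 K z) * tp eT U (yA m K q z) (List.replicate k 0))
        (TT q U (yA m K q z + k • eT 0))) ≤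
      if k ∈ Ij q z then 2 * (15 * uu e b₀ K) else 0 := by
    intro k hk
    have hk' := Finset.mem_range.1 hk
    rw [en_smul μ (mul_nonneg zero_le_two (kk_nonneg _ _))]
    split_ifs with h
    · have h2 := seg_en μ (L := L) (β := β) hb₀ hb hqK hqm hz (k := k) hk'.le
      have h3 := kk_le q (yA m K q z + k • eT 0)
      have h4 := kk_nonneg q (yA m K q z + k • eT 0)
      calc _ ≤ 2 * kk q (yA m K q z + k • eT 0) * (15 * uu e b₀ K) :=
            mul_le_mul_of_nonneg_left h2 (by linarith)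
        _ ≤ 2 * 1 * (15 * uu e b₀ K) :=
            mul_le_mul_of_nonneg_right (by linarith) hu'
        _ = _ := by ring
    · rw [kk_out hq hqK hqm hz hk' h]
      simp
  refine (Finset.sum_le_sum h1).trans (le_of_eq ?_)
  rw [← Finset.sum_filter, Finset.filter_mem_eq_inter, Finset.inter_eq_right.2 (Ij_sub z),
    Finset.sum_const, Ij_card hqK hz, nsmul_eq_mul]
  ring

/-- the error of the response -/
lemma Er_en {b₀ : ℝ} (hb₀ : 0 ≤ b₀) (hb : RB μ L e m β b₀ K) (hq : 1 ≤ q) (hqK : q = 2 ^ K)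
    (hqm : 5 * q < 2 * m) (s : ℝ) :
    en μ L β (Er L K q s : (Ed (e + 3) (2 * m) → G) → ℝ) ≤ q * (48 * uu e b₀ K + |s| * q) := by
  unfold Er
  have hc1 : ∀ z : Fin (e + 3) → ℕ, Continuous fun U : Ed (e + 3) (2 * m) → G =>
      ER L q U (tp eT U 0 (Tq e q ++ fw 0 K z)) (yA m K q z) (3 * q) + |s| * (q : ℝ) ^ 2 :=
    fun z => (ER_cont z).add continuous_const
  have hc2 : ∀ z : Fin (e + 3) → ℕ, Continuous fun U : Ed (e + 3) (2 * m) → G =>
      (q : ℝ) * dv L (gP K q z U) := fun z => continuous_const.mul (dvP_cont z)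
  refine le_trans (en_sum μ (cu e K) fun z => continuous_const.mul ((hc1 z).add (hc2 z))) ?_
  have hw : ∀ z : Fin (e + 3) → ℕ, en μ L β (fun U : Ed (e + 3) (2 * m) → G => ww e K *
      (ER L q U (tp eT U 0 (Tq e q ++ fw 0 K z)) (yA m K q z) (3 * q) + |s| * (q : ℝ) ^ 2 +
      q * dv L (gP K q z U))) = ww e K * en μ L β (fun U : Ed (e + 3) (2 * m) → G =>
      ER L q U (tp eT U 0 (Tq e q ++ fw 0 K z)) (yA m K q z) (3 * q) + |s| * (q : ℝ) ^ 2 +
      q * dv L (gP K q z U)) := fun z => en_smul μ (ww_pos e K).le _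
  rw [Finset.sum_congr rfl fun z _ => hw z]
  refine ww_avg fun z hz => ?_
  refine (en_add μ (hc1 z) (hc2 z)).trans ?_
  have h1 := en_add μ (L := L) (β := β) (ER_cont (L := L) (m := m) (K := K) (q := q) z)
    (continuous_const (y := |s| * (q : ℝ) ^ 2))
  rw [en_const μ (by positivity)] at h1
  have h2 := ER_en μ (L := L) (β := β) hb₀ hb hq hqK hqm hz
  have h3 := gP_en μ (L := L) (β := β) hb₀ hb hqK hz
  have h4 : en μ L β (fun U : Ed (e + 3) (2 * m) → G => (q : ℝ) * dv L (gP K q z U)) ≤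
      q * (18 * uu e b₀ K) := by
    rw [en_smul μ (Nat.cast_nonneg q)]
    exact mul_le_mul_of_nonneg_left h3 (Nat.cast_nonneg q)
  have h5 : (q : ℝ) * (48 * uu e b₀ K + |s| * q) =
      2 * q * (15 * uu e b₀ K) + |s| * (q : ℝ) ^ 2 + q * (18 * uu e b₀ K) := by ring
  rw [h5]
  linarith

/-! ### the part orthogonal to the Lie algebra -/

variable (L) in
/-- bound of the orthogonal part -/
def Nr (C0 : ℝ) (K q : ℕ) (U : Ed (e + 3) (2 * m) → G) : ℝ :=
  ∑ z ∈ cu e K, ww e K *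
    (Real.sqrt C0 * dv L (gP K q z U) ^ 2 + Real.sqrt C0 * dv L (gQ K q z U) ^ 2)

lemma nr_psi {C0 : ℝ} (hC0 : 0 ≤ C0)
    (hcar : ∀ g : G, dv L g ^ 2 ≤ ∑ a, fi L a g ^ 2 + C0 * dv L g ^ 4)
    (U : Ed (e + 3) (2 * m) → G) : ‖nr L (psi L K q U)‖ ≤ Nr L C0 K q U := by
  unfold psi Nr
  rw [nr_sum]
  refine (norm_sum_le _ _).trans (Finset.sum_le_sum fun z _ => ?_)
  rw [nr_smul, norm_smul, Real.norm_eq_abs, abs_of_nonneg (ww_pos e K).le]
  refine mul_le_mul_of_nonneg_left ?_ (ww_pos e K).le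
  have e1 : L.rho (gP K q z U) - L.rho (gQ K q z U) =
      (L.rho (gP K q z U) - 1) - (L.rho (gQ K q z U) - 1) := by
    abel
  rw [e1, nr_sub]
  exact (norm_sub_le _ _).trans (add_le_add (nr_rho hC0 hcar _) (nr_rho hC0 hcar _))

lemma Nr_nonneg {C0 : ℝ} (U : Ed (e + 3) (2 * m) → G) : 0 ≤ Nr L C0 K q U := by
  unfold Nr
  refine Finset.sum_nonneg fun z _ => mul_nonneg (ww_pos e K).le ?_
  have h1 := Real.sqrt_nonneg C0
  positivity

lemma Nr_cont {C0 : ℝ} : Continuous (Nr L C0 K q : (Ed (e + 3) (2 * m) → G) → ℝ) :=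
  continuous_finsetSum _ fun z _ => continuous_const.mul
    ((continuous_const.mul ((dvP_cont z).pow 2)).add (continuous_const.mul ((dvQ_cont z).pow 2)))

lemma EX_Nr {b₀ : ℝ} (hb₀ : 0 ≤ b₀) (hb : RB μ L e m β b₀ K) (hqK : q = 2 ^ K)
    {C0 : ℝ} (hC0 : 0 ≤ C0) : EX μ L β (Nr L C0 K q : (Ed (e + 3) (2 * m) → G) → ℝ) ≤
      2 * Real.sqrt C0 * (18 * uu e b₀ K) ^ 2 := by
  have hs := Real.sqrt_nonneg C0
  have c1 : ∀ z : Fin (e + 3) → ℕ, Continuous fun U : Ed (e + 3) (2 * m) → G =>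
      Real.sqrt C0 * dv L (gP K q z U) ^ 2 := fun z => continuous_const.mul ((dvP_cont z).pow 2)
  have c2 : ∀ z : Fin (e + 3) → ℕ, Continuous fun U : Ed (e + 3) (2 * m) → G =>
      Real.sqrt C0 * dv L (gQ K q z U) ^ 2 := fun z => continuous_const.mul ((dvQ_cont z).pow 2)
  unfold Nr
  have c3 : ∀ z : Fin (e + 3) → ℕ, Continuous fun U : Ed (e + 3) (2 * m) → G => ww e K *
      (Real.sqrt C0 * dv L (gP K q z U) ^ 2 + Real.sqrt C0 * dv L (gQ K q z U) ^ 2) :=
    fun z => continuous_const.mul ((c1 z).add (c2 z))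
  rw [EX_fsum μ _ c3]
  have hw : ∀ z : Fin (e + 3) → ℕ, EX μ L β (fun U : Ed (e + 3) (2 * m) → G => ww e K *
      (Real.sqrt C0 * dv L (gP K q z U) ^ 2 + Real.sqrt C0 * dv L (gQ K q z U) ^ 2)) =
      ww e K * EX μ L β (fun U : Ed (e + 3) (2 * m) → G =>
      (Real.sqrt C0 * dv L (gP K q z U) ^ 2 + Real.sqrt C0 * dv L (gQ K q z U) ^ 2)) :=
    fun z => EX_smul μ _ _
  rw [Finset.sum_congr rfl fun z _ => hw z]
  refine ww_avg fun z hz => ?_
  rw [EX_add μ (c1 z) (c2 z), EX_smul, EX_smul, ← en_sq, ← en_sq]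
  have h1 := gP_en μ (L := L) (β := β) hb₀ hb hqK hz
  have h2 := gQ_en μ (L := L) (β := β) hb₀ hb hqK hz
  have h3 := pow_le_pow_left₀ (en_nonneg μ _) h1 2
  have h4 := pow_le_pow_left₀ (en_nonneg μ _) h2 2
  nlinarith [mul_le_mul_of_nonneg_left h3 hs, mul_le_mul_of_nonneg_left h4 hs]

end

end Pool.Agent.V11322
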