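import Mathlib
import Pool.Agent.Y14.Dif3
import Pool.Agent.V11322.YM.Nz
import Pool.Agent.V11322.YM.Psi

/-!
# The variation of the observable under time shifts
-/

open MeasureTheory Matrix Filter
open scoped Matrix.Norms.Frobenius Topology
open Pool.Agent.H906R3.YM hiding Pl
open Pool.Agent.W793.YM Pool.Agent.TH618.YM Pool.Agent.Y14 Pool.Agent.V11260

namespace Pool.Agent.V11322

set_option linter.unusedSectionVars false
set_option linter.unusedVariables false

noncomputable section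

/-! ### the links of the paths -/

section links

variable {e m K q : ℕ}

lemma sum_z (hqK : q = 2 ^ K) {z : Fin (e + 3) → ℕ} (hz : z ∈ cu e K) :
    ∑ k, z k ≤ (e + 3) * (2 * q) := by
  calc ∑ k, z k ≤ ∑ _k : Fin (e + 3), 2 * q :=
        Finset.sum_le_sum fun k _ => (cu_lt hz hqK k).le
    _ = _ := by rw [Finset.sum_const, Finset.card_univ, Fintype.card_fin, smul_eq_mul]

lemma len_P (hqK : q = 2 ^ K) {z : Fin (e + 3) → ℕ} (hz : z ∈ cu e K) :
    (PO K q z).length + (PB K z).length ≤ (4 * e + 21) * q := by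
  unfold PO PB
  rw [List.length_append, length_fw, List.length_replicate]
  have := sum_z hqK hz
  nlinarith

lemma len_Q (hqK : q = 2 ^ K) {z : Fin (e + 3) → ℕ} (hz : z ∈ cu e K) :
    (QO K q z).length + (QB K q z).length ≤ (4 * e + 21) * q := by
  unfold QO QB
  rw [List.length_append, List.length_append, List.length_append, length_fw,
    List.length_replicate, List.length_replicate]
  have := sum_z hqK hz
  nlinarith

lemma P_nodup (hqK : q = 2 ^ K) {z : Fin (e + 3) → ℕ} (hz : z ∈ cu e K)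
    (hl : (4 * e + 21) * q < 2 * m) (x : Fin (e + 3) → ZMod (2 * m)) :
    (lk eT x (PO K q z) ++ lk eT (x + (3 * q) • eT 0) (PB K z)).Nodup := by
  have h2 : 2 ^ (K + 1) = 2 * q := by rw [hqK]; ring
  refine PQ_nodup zero_ne_last one_ne one_ne_last hz (by omega) ?_ x
  rw [h2]
  nlinarith

/-- equality of coordinates -/
lemma co_eq [NeZero m] {x y : ZMod (2 * m)} {a b : ℕ} (h : y = x + a) (h' : y = x + b)
    (ha : a < 2 * m) (hb : b < 2 * m) : a = b := by
  rw [h] at h'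
  have h1 := add_left_cancel h'
  have := congrArg ZMod.val h1
  rwa [ZMod.val_natCast_of_lt ha, ZMod.val_natCast_of_lt hb] at this

lemma Q_nodup [NeZero m] (hq : 1 ≤ q) (hqK : q = 2 ^ K) {z : Fin (e + 3) → ℕ} (hz : z ∈ cu e K)
    (hl : (4 * e + 21) * q < 2 * m) (x : Fin (e + 3) → ZMod (2 * m)) :
    (lk eT x (QO K q z) ++ lk eT (x + (3 * q) • eT 0) (QB K q z)).Nodup := by
  have hlen := len_Q hqK hz
  have h5 : 5 * q < 2 * m := by nlinarith
  have z0 := cu_lt hz hqK 0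
  have z1 := cu_lt hz hqK 1
  refine List.nodup_append.2 ⟨lk_nodup x (by omega), lk_nodup _ (by omega), ?_⟩
  intro f hf f' hf' hff
  subst hff
  -- the return path
  have hb : f.1 0 = x 0 + ((3 * q + z 0 : ℕ) : ZMod (2 * m)) ∧ f.2 = 1 ∨
      ∃ b : Fin (e + 3) → ℕ, (∀ j, b j ≤ z j) ∧ f.1 0 = x 0 + ((3 * q + b 0 : ℕ) : ZMod (2 * m)) ∧
        f.1 1 = x 1 + ((b 1 : ℕ) : ZMod (2 * m)) := by
    unfold QB at hf'
    rw [lk_append, List.mem_append, dsp_fw] at hf'
    rcases hf' with h | h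
    · right
      obtain ⟨b, b1, b2, -⟩ := fw_lk (j₀ := 1) one_ne hz h
      refine ⟨b, b2, ?_, ?_⟩
      · rw [b1]; simp [ct, eT, add_assoc]
      · rw [b1]; simp [ct, eT]
    · left
      obtain ⟨h1, s, hs, h2⟩ := mem_lk_rep h
      refine ⟨?_, h1⟩
      rw [h2]
      simp [ct, eT, add_assoc]
  have hb0 : ∃ b : ℕ, f.1 0 = x 0 + ((3 * q + b : ℕ) : ZMod (2 * m)) ∧ b < 2 * q := by
    rcases hb with h | ⟨b, b1, b2, b3⟩
    · exact ⟨z 0, h.1, z0⟩
    · exact ⟨b 0, b2, by have := b1 0; omega⟩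
  obtain ⟨b0, hb1, hb2⟩ := hb0
  unfold QO at hf
  rw [lk_append, List.mem_append, dsp_fw, lk_append, List.mem_append] at hf
  rcases hf with h | h | h
  · obtain ⟨a, a1, a2, -⟩ := fw_lk (j₀ := 1) one_ne hz h
    have e1 : f.1 0 = x 0 + ((a 0 : ℕ) : ZMod (2 * m)) := by
      rw [a1]; simp [ct]
    have h3 := a2 0
    have h4 := co_eq e1 hb1 (by omega) (by omega)
    omega
  · obtain ⟨h1, s, hs, h2⟩ := mem_lk_rep h
    have e1 : f.1 0 = x 0 + ((z 0 : ℕ) : ZMod (2 * m)) := by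
      rw [h2]; simp [ct, eT]
    have h4 := co_eq e1 hb1 (by omega) (by omega)
    omega
  · obtain ⟨h1, s, hs, h2⟩ := mem_lk_rep h
    have e1 : f.1 1 = x 1 + ((z 1 + 3 * q : ℕ) : ZMod (2 * m)) := by
      rw [h2, dsp_rep]; simp [ct, eT, add_assoc]
    rcases hb with h3 | ⟨b, b1, b2, b3⟩
    · rw [h1] at h3
      exact one_ne h3.2.symm
    · have h5 := b1 1
      have h4 := co_eq e1 b3 (by omega) (by omega)
      omega

end links

variable {G : Type*} [Group G] [TopologicalSpace G] [IsTopologicalGroup G] [CompactSpace G]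
  [SecondCountableTopology G] [MeasurableSpace G] [BorelSpace G] (μ : Measure G)
  [IsProbabilityMeasure μ] [μ.IsMulLeftInvariant] [μ.IsMulRightInvariant] [μ.IsInvInvariant]
  {N n : ℕ} {L : LD G N n} {e m : ℕ} [NeZero m] {q K : ℕ} {β : ℝ}

/-! ### the observable -/

variable (L) in
/-- the observable at time `0` -/
def Fq (K q : ℕ) (U : Ed (e + 3) (2 * m) → G) : ℝ := ‖phi eT L K q U 0‖

lemma phi_FF (U : Ed (e + 3) (2 * m) → G) (x : Fin (e + 3) → ZMod (2 * m)) :
    phi eT L K q U x =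
      FF L (cu e K) (fun _ => ww e K) (PO K q) (PB K) ((3 * q) • eT 0) U x -
      FF L (cu e K) (fun _ => ww e K) (QO K q) (QB K q) ((3 * q) • eT 0) U x := by
  unfold phi FF
  rw [← Finset.sum_sub_distrib]
  refine Finset.sum_congr rfl fun z _ => ?_
  rw [smul_sub]

lemma phi_cont (x : Fin (e + 3) → ZMod (2 * m)) :
    Continuous fun U : Ed (e + 3) (2 * m) → G => phi eT L K q U x := by
  have h1 : (fun U : Ed (e + 3) (2 * m) → G => phi eT L K q U x) = fun U =>
      FF L (cu e K) (fun _ => ww e K) (PO K q) (PB K) ((3 * q) • eT 0) U x -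
      FF L (cu e K) (fun _ => ww e K) (QO K q) (QB K q) ((3 * q) • eT 0) U x := by
    funext U; exact phi_FF U x
  rw [h1]
  exact (FF_cont _ _ _ _ _ x).sub (FF_cont _ _ _ _ _ x)

lemma nphi_gt (γ : (Fin (e + 3) → ZMod (2 * m)) → G) (U : Ed (e + 3) (2 * m) → G)
    (x : Fin (e + 3) → ZMod (2 * m)) : ‖phi eT L K q (gt γ U) x‖ = ‖phi eT L K q U x‖ := by
  have h := phi_gauge (u := eT) (L := L) (K := K) (q := q) γ U x
  have h1 : (gt γ U : Ed (e + 3) (2 * m) → G) =
      fun f => γ f.1 * U f * (γ (f.1 + eT f.2))⁻¹ := rfl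
  rw [h1, h, ← L.rho_inv, norm_rmul, norm_lmul]

lemma Fq_cont : Continuous fun U : Ed (e + 3) (2 * m) → G => Fq L K q U := (phi_cont 0).norm

lemma Fq_GI : GI fun U : Ed (e + 3) (2 * m) → G => Fq L K q U := fun γ U => nphi_gt γ U 0

lemma Fq_tr (z : Fin (e + 3) → ZMod (2 * m)) (U : Ed (e + 3) (2 * m) → G) :
    Fq L K q (tr z U) = ‖phi eT L K q U z‖ := by
  have h := phi_shift (u := eT) (L := L) (K := K) (q := q) U z 0
  unfold Fq
  have h1 : (tr z U : Ed (e + 3) (2 * m) → G) = fun f => U (f.1 + z, f.2) := rfl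
  rw [h1, h, zero_add]

lemma phi_fix (U : Ed (e + 3) (2 * m) → G) (x : Fin (e + 3) → ZMod (2 * m)) :
    phi eT L K q (fix (Fin.last (e + 2)) U) x = phi eT L K q U x := by
  unfold phi
  refine Finset.sum_congr rfl fun z hz => ?_
  rw [tp_fix' U x (PO_last hz), tp_fix' U x (QO_last hz), tp_fix' U _ (PB_last hz),
    tp_fix' U _ (QB_last hz)]

/-- the observable as a function of the coordinates -/
def Qf (e m K q N : ℕ) [NeZero m] (hm : 2 ≤ m)
    (y : IJ (TR (d := e + 3) hm (Fin.last (e + 2))).J N → ℝ) : Mat N :=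
  Qh N (cu e K) (fun _ => ww e K) (PO K q) (PB K) ((3 * q) • eT 0) hm (Fin.last (e + 2)) y -
  Qh N (cu e K) (fun _ => ww e K) (QO K q) (QB K q) ((3 * q) • eT 0) hm (Fin.last (e + 2)) y

lemma v_last : ((3 * q) • eT 0 : Fin (e + 3) → ZMod (2 * m)) (Fin.last (e + 2)) = 0 := by
  have h := zero_ne_last (e := e)
  simp [eT, Ne.symm h]

lemma Qf_phi (hm : 2 ≤ m) (U : Ed (e + 3) (2 * m) → G) :
    Qf e m K q N hm (cv L (TR hm (Fin.last (e + 2))) U) =
      phi eT L K q U (eT (Fin.last (e + 2))) := by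
  unfold Qf
  rw [Qh_FF hm (fun z hz => PO_last hz) (fun z hz => PB_last hz) v_last,
    Qh_FF hm (fun z hz => QO_last hz) (fun z hz => QB_last hz) v_last, phi_FF]

lemma Qf_tU (hm : 2 ≤ m) (U : Ed (e + 3) (2 * m) → G) :
    Qf e m K q N hm (cv L (TR hm (Fin.last (e + 2))) ((TR hm (Fin.last (e + 2))).tU U)) =
      phi eT L K q U 0 := by
  unfold Qf
  rw [Qh_tU hm (fun z hz => PO_last hz) (fun z hz => PB_last hz) v_last,
    Qh_tU hm (fun z hz => QO_last hz) (fun z hz => QB_last hz) v_last, phi_FF]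

lemma Qf_MM (hm : 2 ≤ m) (hq : 1 ≤ q) (hqK : q = 2 ^ K) (hl : (4 * e + 21) * q < 2 * m) :
    MM (Qf e m K q N hm) :=
  (Qh_MM (N := N) (S := cu e K) (w := fun _ => ww e K) hm
    fun z hz => P_nodup hqK hz hl _).sub
    (Qh_MM (N := N) (S := cu e K) (w := fun _ => ww e K) hm
    fun z hz => Q_nodup hq hqK hz hl _)

/-! ### the pieces of the paths -/

/-- the base point of the reflected time slice -/
def bp (e m : ℕ) : Fin (e + 3) → ZMod (2 * m) := eT (Fin.last (e + 2))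

/-- common part -/
def lA (m K : ℕ) (z : Fin (e + 3) → ℕ) : List (Ed (e + 3) (2 * m)) := lk eT (bp e m) (fw 0 K z)

/-- common part, on the return -/
def lB (m K q : ℕ) (z : Fin (e + 3) → ℕ) : List (Ed (e + 3) (2 * m)) :=
  lk eT (bp e m + (3 * q) • eT 0) (fw 0 K z)

/-- direct segment -/
def lM (m q : ℕ) (z : Fin (e + 3) → ℕ) : List (Ed (e + 3) (2 * m)) :=
  lk eT (bp e m + ct (2 * m) z) (List.replicate (3 * q) 0)

/-- segments of the path around -/
def lM' (m q : ℕ) (z : Fin (e + 3) → ℕ) : List (Ed (e + 3) (2 * m)) :=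
  lk eT (bp e m + ct (2 * m) z) (List.replicate (3 * q) 1) ++
    lk eT (bp e m + (3 * q) • eT 1 + ct (2 * m) z) (List.replicate (3 * q) 0)

/-- segment of the return of the path around -/
def lM2' (m q : ℕ) (z : Fin (e + 3) → ℕ) : List (Ed (e + 3) (2 * m)) :=
  lk eT (bp e m + (3 * q) • eT 0 + ct (2 * m) z) (List.replicate (3 * q) 1)

lemma lk_PO (z : Fin (e + 3) → ℕ) : lk eT (bp e m) (PO K q z) = lA m K z ++ lM m q z := by
  unfold PO lA lM
  rw [lk_append, dsp_fw]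

lemma lk_QO (z : Fin (e + 3) → ℕ) : lk eT (bp e m) (QO K q z) = lA m K z ++ lM' m q z := by
  unfold QO lA lM'
  rw [lk_append, dsp_fw, lk_append, dsp_rep, add_right_comm]

lemma lk_QB (z : Fin (e + 3) → ℕ) : lk eT (bp e m + (3 * q) • eT 0) (QB K q z) =
    lB m K q z ++ lM2' m q z := by
  unfold QB lB lM2'
  rw [lk_append, dsp_fw]

lemma bp_last : bp e m (Fin.last (e + 2)) = 1 := by
  unfold bp; simp [eT]

lemma ct_last {z : Fin (e + 3) → ℕ} (hz : z ∈ cu e K) :
    (ct (2 * m) z : Fin (e + 3) → ZMod (2 * m)) (Fin.last (e + 2)) = 0 := by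
  unfold ct
  rw [cu_last hz, Nat.cast_zero]

lemma not_last_rep {i : Fin (e + 3)} (hi : i ≠ Fin.last (e + 2)) (k : ℕ) :
    Fin.last (e + 2) ∉ List.replicate k i := fun h => hi (List.eq_of_mem_replicate h).symm

/-- the difference of the middle parts is a Wilson loop -/
lemma dd_mid (hm : 2 ≤ m) (U : Ed (e + 3) (2 * m) → G) {z : Fin (e + 3) → ℕ}
    (hz : z ∈ cu e K) :
    ‖gq (TR hm (Fin.last (e + 2))).J (cv L (TR hm (Fin.last (e + 2))) U) (lM m q z) [] -
      gq (TR hm (Fin.last (e + 2))).J (cv L (TR hm (Fin.last (e + 2))) U) (lM' m q z)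
        (lM2' m q z)‖ =
      dv L (rect U (bp e m + ct (2 * m) z) 0 1 (3 * q) (3 * q)) := by
  obtain ⟨y, hy⟩ : ∃ y, y = bp e m + ct (2 * m) z := ⟨_, rfl⟩
  have hyl : y (Fin.last (e + 2)) = 1 := by
    rw [hy, Pi.add_apply, bp_last, ct_last hz, add_zero]
  have e1 : lM' m q z = lk eT y (List.replicate (3 * q) 1 ++ List.replicate (3 * q) 0) := by
    unfold lM'
    rw [lk_append, dsp_rep, hy, add_right_comm]
  have e2 : lM2' m q z = lk eT (y + (3 * q) • eT 0) (List.replicate (3 * q) 1) := by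
    unfold lM2'
    rw [hy, add_right_comm]
  have e3 : lM m q z = lk eT y (List.replicate (3 * q) 0) := by
    unfold lM; rw [hy]
  have hv : (y + (3 * q) • eT 0 : Fin (e + 3) → ZMod (2 * m)) (Fin.last (e + 2)) = 1 := by
    rw [Pi.add_apply, hyl, v_last, add_zero]
  have j1 : ∀ f ∈ lk eT y (List.replicate (3 * q) 0), f ∈ (TR hm (Fin.last (e + 2))).J :=
    fun f hf => lk_J' hm (not_last_rep zero_ne_last _) hyl hf
  have j2 : ∀ f ∈ lk eT y (List.replicate (3 * q) 1 ++ List.replicate (3 * q) 0),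
      f ∈ (TR hm (Fin.last (e + 2))).J := fun f hf => lk_J' hm (by
        rw [List.mem_append, not_or]
        exact ⟨not_last_rep one_ne_last _, not_last_rep zero_ne_last _⟩) hyl hf
  have j3 : ∀ f ∈ lk eT (y + (3 * q) • eT 0) (List.replicate (3 * q) 1),
      f ∈ (TR hm (Fin.last (e + 2))).J := fun f hf => lk_J' hm (not_last_rep one_ne_last _) hv hf
  unfold gq
  rw [← hy, e1, e2, e3, pm_nil, conjTranspose_one, mul_one, pm_tp' _ U j1, pm_tp' _ U j2,
    pm_tp' _ U j3, ← rho_tp', ← rho_tp', ← rho_tp']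
  obtain ⟨a, ha⟩ : ∃ a, a = tp eT U y (List.replicate (3 * q) 0) := ⟨_, rfl⟩
  obtain ⟨b, hb⟩ : ∃ b, b = tp eT U y (List.replicate (3 * q) 1 ++ List.replicate (3 * q) 0) :=
    ⟨_, rfl⟩
  obtain ⟨c, hc⟩ : ∃ c, c = tp eT U (y + (3 * q) • eT 0) (List.replicate (3 * q) 1) := ⟨_, rfl⟩
  rw [← ha, ← hb, ← hc]
  have h1 : L.rho c * (L.rho c)ᴴ = 1 := mul_eq_one_comm.1 (L.unit' c)
  have h2 : L.rho a - L.rho b * (L.rho c)ᴴ = (L.rho (a * c) - L.rho b) * L.rho c⁻¹ := by
    rw [map_mul, sub_mul, L.rho_inv, mul_assoc, h1, mul_one]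
  rw [h2, norm_rmul, ← dd_swap, tp_append y (List.replicate (3 * q) 0), dsp_rep]
  unfold dd
  rw [← ha, ← hb, ← hc]

lemma sum_dec {α : Type*} (s : Finset α) (p : α → Prop) (h1 h2 : DecidablePred p) (g : α → ℝ) :
    ∑ z ∈ @Finset.filter α p h1 s, g z = ∑ z ∈ @Finset.filter α p h2 s, g z := by
  have h : h1 = h2 := Subsingleton.elim _ _
  rw [h]

variable (L) in
/-- the size of the error for one configuration -/
def Hb (K q : ℕ) (β : ℝ) (U : Ed (e + 3) (2 * m) → G) : ℝ :=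
  ∑ f : Ed (e + 3) (2 * m), (9 * N * (2 * N / β) *
    ((∑ z ∈ (cu e K).filter (fun z => f ∈ lM m q z ++ []), ww e K) ^ 2 +
      (∑ z ∈ (cu e K).filter (fun z => f ∈ lM' m q z ++ lM2' m q z), ww e K) ^ 2) +
    9 * (2 * N / β) * ((∑ z ∈ (cu e K).filter (fun z => f ∈ lA m K z ++ lB m K q z), ww e K) *
      ∑ z ∈ (cu e K).filter (fun z => f ∈ lA m K z ++ lB m K q z), ww e K *
        (3 * dv L (rect U (bp e m + ct (2 * m) z) 0 1 (3 * q) (3 * q)) ^ 2 +
          18 * N * (2 * N / β) * ((4 * e + 21) * q : ℕ))))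

/-- the noise bound -/
lemma av_le (hm : 2 ≤ m) (hβ : 0 < β) (hq : 1 ≤ q) (hqK : q = 2 ^ K)
    (hl : (4 * e + 21) * q < 2 * m)
    (hℓ : 2 * N / β * ((4 * e + 21) * q : ℕ) ≤ 1) (U : Ed (e + 3) (2 * m) → G) :
    av (fun s => ‖Qf e m K q N hm (cv L (TR hm (Fin.last (e + 2))) U + sg (1 / Real.sqrt β) s) -
      Qf e m K q N hm (cv L (TR hm (Fin.last (e + 2))) U)‖ ^ 2) ≤ Hb L K q β U := by
  have hβ2 : (1 / Real.sqrt β) ^ 2 = 1 / β := by
    rw [div_pow, one_pow, Real.sq_sqrt hβ.le]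
  have e1 : 2 * (N : ℝ) * (1 / β) = 2 * N / β := by ring
  have nP : ∀ z ∈ cu e K, ((lA m K z ++ lM m q z) ++ (lB m K q z ++ [])).Nodup := fun z hz => by
    have h1 := P_nodup hqK hz hl (bp e m)
    rw [lk_PO] at h1
    rw [List.append_nil]
    exact h1
  have nQ : ∀ z ∈ cu e K, ((lA m K z ++ lM' m q z) ++ (lB m K q z ++ lM2' m q z)).Nodup :=
    fun z hz => by
    have h1 := Q_nodup hq hqK hz hl (bp e m)
    rw [lk_QO, lk_QB] at h1
    exact h1
  have vl : (bp e m + (3 * q) • eT 0 : Fin (e + 3) → ZMod (2 * m)) (Fin.last (e + 2)) = 1 := by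
    rw [Pi.add_apply, bp_last, v_last, add_zero]
  have uP : ∀ z ∈ cu e K, Un (TR (d := e + 3) hm (Fin.last (e + 2))).J
      (cv L (TR hm (Fin.last (e + 2))) U)
      ((lA m K z ++ lM m q z) ++ (lB m K q z ++ [])) := fun z hz => by
    refine Un_cv' (L := L) (TR hm (Fin.last (e + 2))) U fun f hf => ?_
    rw [← lk_PO, List.append_nil, List.mem_append] at hf
    rcases hf with h | h
    · exact lk_J' hm (PO_last hz) bp_last h
    · exact lk_J' hm (PB_last hz) vl h
  have uQ : ∀ z ∈ cu e K, Un (TR (d := e + 3) hm (Fin.last (e + 2))).J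
      (cv L (TR hm (Fin.last (e + 2))) U)
      ((lA m K z ++ lM' m q z) ++ (lB m K q z ++ lM2' m q z)) := fun z hz => by
    refine Un_cv' (L := L) (TR hm (Fin.last (e + 2))) U fun f hf => ?_
    rw [← lk_QO, ← lk_QB, List.mem_append] at hf
    rcases hf with h | h
    · exact lk_J' hm (QO_last hz) bp_last h
    · exact lk_J' hm (QB_last hz) vl h
  have lP : ∀ z ∈ cu e K, ((lA m K z ++ lM m q z) ++ (lB m K q z ++ [])).length ≤
      (4 * e + 21) * q := fun z hz => by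
    rw [← lk_PO, List.append_nil, List.length_append, lk_length]
    unfold lB
    rw [lk_length]
    exact len_P hqK hz
  have lQ : ∀ z ∈ cu e K, ((lA m K z ++ lM' m q z) ++ (lB m K q z ++ lM2' m q z)).length ≤
      (4 * e + 21) * q := fun z hz => by
    rw [← lk_QO, ← lk_QB, List.length_append, lk_length, lk_length]
    exact len_Q hqK hz
  have key := diff_resp (J := (TR (d := e + 3) hm (Fin.last (e + 2))).J)
    (x := cv L (TR hm (Fin.last (e + 2))) U) (δ := 1 / Real.sqrt β) (cu e K)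
    (A := lA m K) (B := lB m K q) (M := lM m q) (M2 := fun _ => []) (M' := lM' m q)
    (M2' := lM2' m q) nP nQ uP uQ (w := fun _ => ww e K) (fun _ => (ww_pos e K).le)
    (ℓ := (4 * e + 21) * q) lP lQ (σ := 2 * N / β) (by rw [hβ2]; exact e1.symm) hℓ
  have e2 : ∀ y : IJ (TR (d := e + 3) hm (Fin.last (e + 2))).J N → ℝ, Qf e m K q N hm y =
      ∑ z ∈ cu e K, ww e K • (gq (TR hm (Fin.last (e + 2))).J y (lA m K z ++ lM m q z)
        (lB m K q z ++ []) - gq (TR hm (Fin.last (e + 2))).J y (lA m K z ++ lM' m q z)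
        (lB m K q z ++ lM2' m q z)) := by
    intro y
    unfold Qf Qh
    rw [← Finset.sum_sub_distrib]
    refine Finset.sum_congr rfl fun z _ => ?_
    rw [← smul_sub, ← lk_PO, ← lk_QO, ← lk_QB, List.append_nil]
    rfl
  simp only [← e2] at key
  refine key.trans (le_of_eq ?_)
  unfold Hb
  refine Finset.sum_congr rfl fun f _ => ?_
  congr 3
  · congr 1
    exact sum_dec _ _ _ _ _
  · congr 1
    exact sum_dec _ _ _ _ _
  · exact sum_dec _ _ _ _ _
  · refine (sum_dec _ _ _ _ _).trans (Finset.sum_congr rfl fun z hz => ?_)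
    rw [dd_mid hm U (Finset.mem_filter.1 hz).1]

lemma dvr_cont (z : Fin (e + 3) → ℕ) : Continuous fun U : Ed (e + 3) (2 * m) → G =>
    dv L (rect U (bp e m + ct (2 * m) z) 0 1 (3 * q) (3 * q)) ^ 2 :=
  (dv_cont.comp (rect_cont _ _ _ _ _)).pow 2

lemma Hb_cont : Continuous fun U : Ed (e + 3) (2 * m) → G => Hb L K q β U := by
  have h1 : ∀ (c : ℝ) (z : Fin (e + 3) → ℕ), Continuous fun U : Ed (e + 3) (2 * m) → G =>
      ww e K * (3 * dv L (rect U (bp e m + ct (2 * m) z) 0 1 (3 * q) (3 * q)) ^ 2 + c) :=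
    fun c z => continuous_const.mul ((continuous_const.mul (dvr_cont z)).add continuous_const)
  have h2 : ∀ f : Ed (e + 3) (2 * m), Continuous fun U : Ed (e + 3) (2 * m) → G =>
      ∑ z ∈ (cu e K).filter (fun z => f ∈ lA m K z ++ lB m K q z), ww e K *
        (3 * dv L (rect U (bp e m + ct (2 * m) z) 0 1 (3 * q) (3 * q)) ^ 2 +
          18 * N * (2 * N / β) * ((4 * e + 21) * q : ℕ)) := fun f =>
    continuous_finsetSum _ fun z _ => h1 _ z
  have h3 : ∀ f : Ed (e + 3) (2 * m), Continuous fun U : Ed (e + 3) (2 * m) → G =>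
    (9 * N * (2 * N / β) *
    ((∑ z ∈ (cu e K).filter (fun z => f ∈ lM m q z ++ []), ww e K) ^ 2 +
      (∑ z ∈ (cu e K).filter (fun z => f ∈ lM' m q z ++ lM2' m q z), ww e K) ^ 2) +
    9 * (2 * N / β) * ((∑ z ∈ (cu e K).filter (fun z => f ∈ lA m K z ++ lB m K q z), ww e K) *
      ∑ z ∈ (cu e K).filter (fun z => f ∈ lA m K z ++ lB m K q z), ww e K *
        (3 * dv L (rect U (bp e m + ct (2 * m) z) 0 1 (3 * q) (3 * q)) ^ 2 +
          18 * N * (2 * N / β) * ((4 * e + 21) * q : ℕ)))) := fun f =>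
    continuous_const.add (continuous_const.mul (continuous_const.mul (h2 f)))
  exact continuous_finsetSum (M := ℝ) Finset.univ fun f _ => h3 f

lemma Hb_GI : GI fun U : Ed (e + 3) (2 * m) → G => Hb L K q β U := fun γ U => by
  show Hb L K q β (gt γ U) = _
  unfold Hb
  simp only [rect_gt, dv_conj]

lemma Hb_fix (U : Ed (e + 3) (2 * m) → G) :
    Hb L K q β (fix (Fin.last (e + 2)) U) = Hb L K q β U := by
  unfold Hb
  simp only [Y14.rect_fix zero_ne_last one_ne_last]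

theorem dif_Zt (hm : 2 ≤ m) (hβ : 0 < β) (hq : 1 ≤ q) (hqK : q = 2 ^ K)
    (hl : (4 * e + 21) * q < 2 * m) (hℓ : 2 * N / β * ((4 * e + 21) * q : ℕ) ≤ 1) :
    Zt μ L β (fun U : Ed (e + 3) (2 * m) → G =>
      (Fq L K q (tr (eT (Fin.last (e + 2))) U) - Fq L K q U) ^ 2) ≤
      Zt μ L β (fun U : Ed (e + 3) (2 * m) → G => Hb L K q β U) := by
  obtain ⟨c, hc, hred⟩ := Zt_red μ (L := L) hm (Fin.last (e + 2)) β
  have c1 : Continuous fun U : Ed (e + 3) (2 * m) → G =>
      (Fq L K q (tr (eT (Fin.last (e + 2))) U) - Fq L K q U) ^ 2 :=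
    ((Fq_cont.comp (tr_cont _)).sub Fq_cont).pow 2
  have g1 : GI fun U : Ed (e + 3) (2 * m) → G =>
      (Fq L K q (tr (eT (Fin.last (e + 2))) U) - Fq L K q U) ^ 2 := fun γ U => by
    simp only [Fq_tr]
    unfold Fq
    rw [nphi_gt, nphi_gt]
  rw [hred _ c1 g1, hred _ Hb_cont Hb_GI]
  refine mul_le_mul_of_nonneg_left ?_ hc.le
  have hβ2 : (1 / Real.sqrt β) ^ 2 = 1 / β := by
    rw [div_pow, one_pow, Real.sq_sqrt hβ.le]
  have hMM := Qf_MM (e := e) (q := q) (N := N) (K := K) hm hq hqK hl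
  have cQ := mm_cont hMM
  have cQ1 : Continuous fun U : Ed (e + 3) (2 * m) → G =>
      Qf e m K q N hm (cv L (TR hm (Fin.last (e + 2))) U) := cQ.comp (cv_cont _)
  have cQ2 : Continuous fun U : Ed (e + 3) (2 * m) → G =>
      Qf e m K q N hm (cv L (TR hm (Fin.last (e + 2))) ((TR hm (Fin.last (e + 2))).tU U)) :=
    cQ1.comp (TR hm (Fin.last (e + 2))).tU_cont
  have cQ3 : ∀ s, Continuous fun U : Ed (e + 3) (2 * m) → G =>
      Qf e m K q N hm (cv L (TR hm (Fin.last (e + 2))) U + sg (1 / Real.sqrt β) s) := fun s =>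
    cQ.comp ((cv_cont _).add continuous_const)
  have h1 : (TR hm (Fin.last (e + 2))).Ew μ L β (wR L β m (Fin.last (e + 2))).1
      (fun U : Ed (e + 3) (2 * m) → G => (Fq L K q (tr (eT (Fin.last (e + 2)))
        (fix (Fin.last (e + 2)) U)) - Fq L K q (fix (Fin.last (e + 2)) U)) ^ 2) ≤
      (TR hm (Fin.last (e + 2))).Ew μ L β (wR L β m (Fin.last (e + 2))).1
      (fun U : Ed (e + 3) (2 * m) → G => ‖Qf e m K q N hm (cv L (TR hm (Fin.last (e + 2))) U) -
        Qf e m K q N hm (cv L (TR hm (Fin.last (e + 2)))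
          ((TR hm (Fin.last (e + 2))).tU U))‖ ^ 2) := by
    have e1 : (fun U : Ed (e + 3) (2 * m) → G => (Fq L K q (tr (eT (Fin.last (e + 2)))
        (fix (Fin.last (e + 2)) U)) - Fq L K q (fix (Fin.last (e + 2)) U)) ^ 2) =
        fun U => (‖Qf e m K q N hm (cv L (TR hm (Fin.last (e + 2))) U)‖ -
          ‖Qf e m K q N hm (cv L (TR hm (Fin.last (e + 2)))
            ((TR hm (Fin.last (e + 2))).tU U))‖) ^ 2 := by
      funext U
      rw [Fq_tr, phi_fix, Qf_phi, Qf_tU]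
      unfold Fq
      rw [phi_fix]
    rw [e1]
    refine Ew_mono μ _ (Sm_cont (wR L β m (Fin.last (e + 2)))) (wR_nonneg β _)
      ((cQ1.norm.sub cQ2.norm).pow 2) ((cQ1.sub cQ2).norm.pow 2) fun U => ?_
    rw [← sq_abs]
    exact pow_le_pow_left₀ (abs_nonneg _) (abs_norm_sub_norm_le _ _) 2
  refine h1.trans ?_
  refine (noise_domM μ (L := L) (TR hm (Fin.last (e + 2))) hβ hβ2 hMM
    (Sm_cont (wR L β m (Fin.last (e + 2)))) (wR_dep hm β (Fin.last (e + 2)))
    (wR_nonneg β (Fin.last (e + 2)))).trans ?_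
  refine Ew_mono μ _ (Sm_cont (wR L β m (Fin.last (e + 2)))) (wR_nonneg β _)
    (av_cont fun s => ((cQ3 s).sub cQ1).norm.pow 2) (Hb_cont.comp ?_) fun U => ?_
  · refine continuous_pi fun f => ?_
    unfold fix
    split_ifs
    · exact continuous_const
    · exact continuous_apply f
  · rw [Hb_fix]
    exact av_le hm hβ hq hqK hl hℓ U

end

end Pool.Agent.V11322
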