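import Mathlib
import Pool.Agent.V11322.YM.Df

/-!
# The bound for the variation of the observable under time shifts
-/

open MeasureTheory Matrix Filter
open scoped Matrix.Norms.Frobenius Topology
open Pool.Agent.H906R3.YM hiding Pl
open Pool.Agent.W793.YM Pool.Agent.TH618.YM Pool.Agent.Y14 Pool.Agent.V11260

namespace Pool.Agent.V11322

set_option linter.unusedSectionVars false
set_option linter.unusedVariables false

noncomputable section

section cnt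

variable {e m K q : ℕ} [NeZero m]

lemma card_cu (e K : ℕ) : ((cu e K).card : ℝ) = ((2 : ℝ) ^ K) ^ (e + 2) := by
  have h : (cu e K).card = (2 ^ K) ^ (e + 2) := card_cube (Fin.last (e + 2)) K
  rw [h]; push_cast; ring

lemma ww_eq (e K : ℕ) : ww e K = 1 / ((2 : ℝ) ^ K) ^ (e + 2) := by
  unfold ww; rw [card_cu]

lemma fil_le (C : Finset (Fin (e + 3) → ℕ))
    (Lf A B D : (Fin (e + 3) → ℕ) → List (Ed (e + 3) (2 * m))) (f : Ed (e + 3) (2 * m))
    (h : ∀ z, f ∈ Lf z → f ∈ A z ∨ f ∈ B z ∨ f ∈ D z) :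
    (C.filter (fun z => f ∈ Lf z)).card ≤ cn C A f + cn C B f + cn C D f := by
  classical
  unfold cn
  refine le_trans (Finset.card_le_card (t := (C.filter fun z => f ∈ A z) ∪
    (C.filter fun z => f ∈ B z) ∪ (C.filter fun z => f ∈ D z)) fun z hz => ?_) ?_
  · rw [Finset.mem_filter] at hz
    simp only [Finset.mem_union, Finset.mem_filter]
    have h1 := h z hz.2
    have h2 := hz.1
    tauto
  · exact (Finset.card_union_le _ _).trans (Nat.add_le_add_right (Finset.card_union_le _ _) _)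

lemma cn_nil (C : Finset (Fin (e + 3) → ℕ)) (f : Ed (e + 3) (2 * m)) :
    cn C (fun _ => ([] : List (Ed (e + 3) (2 * m)))) f = 0 := by
  unfold cn
  simp

lemma j_sq (Lf A B D : (Fin (e + 3) → ℕ) → List (Ed (e + 3) (2 * m)))
    (h : ∀ f z, f ∈ Lf z → f ∈ A z ∨ f ∈ B z ∨ f ∈ D z) {X Y Z : ℝ}
    (hA : ((∑ f, cn (cu e K) A f ^ 2 : ℕ) : ℝ) ≤ X)
    (hB : ((∑ f, cn (cu e K) B f ^ 2 : ℕ) : ℝ) ≤ Y)
    (hD : ((∑ f, cn (cu e K) D f ^ 2 : ℕ) : ℝ) ≤ Z) :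
    ∑ f : Ed (e + 3) (2 * m), (∑ z ∈ (cu e K).filter (fun z => f ∈ Lf z), ww e K) ^ 2 ≤
      ww e K ^ 2 * (3 * (X + Y + Z)) := by
  have h0 := (ww_pos e K).le
  calc _ ≤ ∑ f : Ed (e + 3) (2 * m), ww e K ^ 2 * (3 * ((cn (cu e K) A f : ℝ) ^ 2 +
        (cn (cu e K) B f : ℝ) ^ 2 + (cn (cu e K) D f : ℝ) ^ 2)) := by
        refine Finset.sum_le_sum fun f _ => ?_
        rw [Finset.sum_const, nsmul_eq_mul, mul_pow, mul_comm (_ ^ 2) (ww e K ^ 2)]
        refine mul_le_mul_of_nonneg_left ?_ (sq_nonneg _)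
        have h1 := fil_le (cu e K) Lf A B D f (h f)
        have h2 : (((cu e K).filter (fun z => f ∈ Lf z)).card : ℝ) ≤
            cn (cu e K) A f + cn (cu e K) B f + cn (cu e K) D f := by exact_mod_cast h1
        have hsq : ∀ a b c : ℝ, (a + b + c) ^ 2 ≤ 3 * (a ^ 2 + b ^ 2 + c ^ 2) := fun a b c => by
          nlinarith [sq_nonneg (a - b), sq_nonneg (b - c), sq_nonneg (a - c)]
        exact (pow_le_pow_left₀ (Nat.cast_nonneg _) h2 2).trans (hsq _ _ _)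
    _ = ww e K ^ 2 * (3 * (((∑ f, cn (cu e K) A f ^ 2 : ℕ) : ℝ) +
        ((∑ f, cn (cu e K) B f ^ 2 : ℕ) : ℝ) + ((∑ f, cn (cu e K) D f ^ 2 : ℕ) : ℝ))) := by
        push_cast
        rw [← Finset.mul_sum, ← Finset.mul_sum, Finset.sum_add_distrib, Finset.sum_add_distrib]
    _ ≤ _ := mul_le_mul_of_nonneg_left (by linarith) (sq_nonneg _)

lemma j_one (Lf A : (Fin (e + 3) → ℕ) → List (Ed (e + 3) (2 * m)))
    (h : ∀ f z, f ∈ Lf z → f ∈ A z) {X : ℝ}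
    (hA : ((∑ f, cn (cu e K) A f ^ 2 : ℕ) : ℝ) ≤ X) :
    ∑ f : Ed (e + 3) (2 * m), (∑ z ∈ (cu e K).filter (fun z => f ∈ Lf z), ww e K) ^ 2 ≤
      ww e K ^ 2 * X := by
  have h0 := (ww_pos e K).le
  calc _ ≤ ∑ f : Ed (e + 3) (2 * m), ww e K ^ 2 * (cn (cu e K) A f : ℝ) ^ 2 := by
        refine Finset.sum_le_sum fun f _ => ?_
        rw [Finset.sum_const, nsmul_eq_mul, mul_pow, mul_comm (_ ^ 2) (ww e K ^ 2)]
        refine mul_le_mul_of_nonneg_left ?_ (sq_nonneg _)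
        have h1 := fil_le (cu e K) Lf A (fun _ => []) (fun _ => []) f
          (fun z hz => Or.inl (h f z hz))
        rw [cn_nil, add_zero, add_zero] at h1
        have h2 : (((cu e K).filter (fun z => f ∈ Lf z)).card : ℝ) ≤ cn (cu e K) A f := by
          exact_mod_cast h1
        exact pow_le_pow_left₀ (Nat.cast_nonneg _) h2 2
    _ = ww e K ^ 2 * ((∑ f, cn (cu e K) A f ^ 2 : ℕ) : ℝ) := by
        push_cast
        rw [← Finset.mul_sum]
    _ ≤ _ := mul_le_mul_of_nonneg_left hA (sq_nonneg _)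

lemma str_sq (hqK : q = 2 ^ K) (hl : 2 * q ≤ 2 * m) {i : Fin (e + 3)}
    (hi : i ≠ Fin.last (e + 2)) (x : Fin (e + 3) → ZMod (2 * m)) :
    ((∑ f, cn (cu e K) (fun z => lk eT (x + ct (2 * m) z) (List.replicate (3 * q) i)) f ^ 2 : ℕ) :
      ℝ) ≤ 3 * (q : ℝ) ^ 2 * (q : ℝ) ^ (e + 2) := by
  have h2 : 2 ^ (K + 1) = 2 * q := by rw [hqK]; ring
  have h1 : ∑ f, cn (cu e K) (fun z => lk eT (x + ct (2 * m) z) (List.replicate (3 * q) i)) f ^ 2 ≤
      2 ^ K * ((cu e K).card * (3 * q)) := by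
    refine cn_sq _ _ (fun f => cn_str hi (by rw [h2]; exact hl) (3 * q) f) fun z hz => ?_
    rw [lk_length, List.length_replicate]
  have h3 : ((∑ f, cn (cu e K) (fun z => lk eT (x + ct (2 * m) z)
      (List.replicate (3 * q) i)) f ^ 2 : ℕ) : ℝ) ≤ 2 ^ K * ((cu e K).card * (3 * q)) := by
    exact_mod_cast h1
  refine h3.trans (le_of_eq ?_)
  have h4 : (2 : ℝ) ^ K = q := by rw [hqK]; push_cast; rfl
  rw [card_cu, h4]
  ring

lemma ww_q (hqK : q = 2 ^ K) : ww e K = 1 / (q : ℝ) ^ (e + 2) := by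
  have h4 : (2 : ℝ) ^ K = q := by rw [hqK]; push_cast; rfl
  rw [ww_eq, h4]

/-- direct middle part -/
lemma jm_sq (hq : 1 ≤ q) (hqK : q = 2 ^ K) (hl : 2 * q ≤ 2 * m) :
    ∑ f : Ed (e + 3) (2 * m),
      (∑ z ∈ (cu e K).filter (fun z => f ∈ lM m q z ++ []), ww e K) ^ 2 ≤
      3 * (1 / (q : ℝ) ^ e) := by
  have hq0 : (0 : ℝ) < q := by exact_mod_cast hq
  have h1 := j_one (fun z => lM m q z ++ []) (lM m q)
    (fun f z hf => by rwa [List.append_nil] at hf)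
    (str_sq (e := e) hqK hl zero_ne_last (bp e m))
  refine h1.trans (le_of_eq ?_)
  rw [ww_q hqK]
  field_simp
  ring

lemma jm_sq' (hq : 1 ≤ q) (hqK : q = 2 ^ K) (hl : 2 * q ≤ 2 * m) :
    ∑ f : Ed (e + 3) (2 * m),
      (∑ z ∈ (cu e K).filter (fun z => f ∈ lM' m q z ++ lM2' m q z), ww e K) ^ 2 ≤
      27 * (1 / (q : ℝ) ^ e) := by
  have hq0 : (0 : ℝ) < q := by exact_mod_cast hq
  have h1 := j_sq (fun z => lM' m q z ++ lM2' m q z)
    (fun z => lk eT (bp e m + ct (2 * m) z) (List.replicate (3 * q) 1))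
    (fun z => lk eT (bp e m + (3 * q) • eT 1 + ct (2 * m) z) (List.replicate (3 * q) 0))
    (lM2' m q)
    (fun f z hf => by
      unfold lM' at hf
      rw [List.mem_append, List.mem_append] at hf
      tauto)
    (str_sq (e := e) hqK hl one_ne_last (bp e m))
    (str_sq (e := e) hqK hl zero_ne_last (bp e m + (3 * q) • eT 1))
    (str_sq (e := e) hqK hl one_ne_last (bp e m + (3 * q) • eT 0))
  refine h1.trans (le_of_eq ?_)
  rw [ww_q hqK]
  field_simp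
  ring

lemma jc_sq (hq : 1 ≤ q) (hqK : q = 2 ^ K) (hl : 2 * q ≤ 2 * m) :
    ∑ f : Ed (e + 3) (2 * m),
      (∑ z ∈ (cu e K).filter (fun z => f ∈ lA m K z ++ lB m K q z), ww e K) ^ 2 ≤
      6 * ((e + 3 : ℕ) * 2 ^ (e + 3) * lam (e + 3) K) := by
  have hq0 : (0 : ℝ) < q := by exact_mod_cast hq
  have h2 : 2 ^ (K + 1) = 2 * q := by rw [hqK]; ring
  have h4 : (2 : ℝ) ^ K = q := by rw [hqK]; push_cast; rfl
  have f1 := fan_sq (d := e + 3) (l := 2 * m) (i := 0) (τ := Fin.last (e + 2)) (j₀ := 1) (K := K)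
    (x := bp e m) zero_ne_last one_ne one_ne_last (by rw [h2]; exact hl)
  have f2 := fan_sq (d := e + 3) (l := 2 * m) (i := 0) (τ := Fin.last (e + 2)) (j₀ := 1) (K := K)
    (x := bp e m + (3 * q) • eT 0) zero_ne_last one_ne one_ne_last (by rw [h2]; exact hl)
  have f3 : ((∑ f, cn (cu e K) (fun _ => ([] : List (Ed (e + 3) (2 * m)))) f ^ 2 : ℕ) : ℝ) ≤
      0 := by
    have h : ∀ f : Ed (e + 3) (2 * m), cn (cu e K) (fun _ => ([] : List (Ed (e + 3) (2 * m)))) f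
      ^ 2 = 0 := fun f => by rw [cn_nil]; rfl
    rw [Finset.sum_congr rfl fun f _ => h f]
    simp
  have h1 := j_sq (fun z => lA m K z ++ lB m K q z) (lA m K) (lB m K q) (fun _ => [])
    (fun f z hf => by
      rw [List.mem_append] at hf
      tauto) f1 f2 f3
  refine h1.trans (le_of_eq ?_)
  have e1 : e + 3 - 1 = e + 2 := rfl
  rw [ww_q hqK, e1, h4]
  field_simp
  ring

end cnt

variable {G : Type*} [Group G] [TopologicalSpace G] [IsTopologicalGroup G] [CompactSpace G]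
  [SecondCountableTopology G] [MeasurableSpace G] [BorelSpace G] (μ : Measure G)
  [IsProbabilityMeasure μ] [μ.IsMulLeftInvariant] [μ.IsMulRightInvariant] [μ.IsInvInvariant]
  {N n : ℕ} {L : LD G N n} {e m : ℕ} [NeZero m] {q K : ℕ} {β : ℝ}

/-- the constant of the variation -/
def CD (e N : ℕ) : ℝ := 540 * N ^ 2 +
  18 * N * (12 + 36 * N ^ 2 * (4 * e + 21)) * (6 * ((e + 3) * 2 ^ (e + 3)))

lemma CD_pos (hN : 1 ≤ N) : 0 < CD e N := by
  have : (1 : ℝ) ≤ N := by exact_mod_cast hN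
  unfold CD; positivity

lemma EX_dvr {b₀ : ℝ} (hb₀ : 0 ≤ b₀) (hb : RB μ L e m β b₀ K) (hqK : q = 2 ^ K)
    (x : Fin (e + 3) → ZMod (2 * m)) :
    EX μ L β (fun U : Ed (e + 3) (2 * m) → G => dv L (rect U x 0 1 (3 * q) (3 * q)) ^ 2) ≤
      4 * b₀ ^ 2 * q := by
  have h4 : (2 : ℝ) ^ K = q := by rw [hqK]; push_cast; rfl
  have h1 := hb (K + 2) (by omega) 0 1 (Ne.symm one_ne) (3 * q) (3 * q)
    (by rw [hqK, pow_add]; omega) (by rw [hqK, pow_add]; omega)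
  rw [← sR_x μ 0 1 (3 * q) (3 * q) x] at h1
  rw [← en_sq]
  refine (pow_le_pow_left₀ (en_nonneg μ _) h1 2).trans (le_of_eq ?_)
  rw [mul_pow, Real.sq_sqrt (by positivity), pow_add, h4]
  ring

lemma EX_Hb {b₀ : ℝ} (hb₀ : 0 ≤ b₀) (hb : RB μ L e m β b₀ K) (hN : 1 ≤ N) (hβ : 0 < β)
    (hq : 1 ≤ q) (hqK : q = 2 ^ K) (hl : 2 * q ≤ 2 * m)
    (hlam : (b₀ ^ 2 + 1 / β) * (lam (e + 3) K * (q : ℝ) ^ (e + 1)) ≤ 1) :
    EX μ L β (fun U : Ed (e + 3) (2 * m) → G => Hb L K q β U) ≤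
      CD e N * (q / (β * (q : ℝ) ^ (e + 1))) := by
  have hq1 : (1 : ℝ) ≤ q := by exact_mod_cast hq
  have hq0 : (0 : ℝ) < q := by linarith
  have hN0 : (0 : ℝ) ≤ N := Nat.cast_nonneg N
  obtain ⟨c2, hc2⟩ : ∃ c : ℝ, c = 18 * N * (2 * N / β) * ((4 * e + 21) * q : ℕ) := ⟨_, rfl⟩
  have hc20 : 0 ≤ c2 := by rw [hc2]; positivity
  -- the shape of the terms
  have c1 : ∀ z : Fin (e + 3) → ℕ, Continuous fun U : Ed (e + 3) (2 * m) → G =>
      ww e K * (3 * dv L (rect U (bp e m + ct (2 * m) z) 0 1 (3 * q) (3 * q)) ^ 2 + c2) :=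
    fun z => continuous_const.mul ((continuous_const.mul (dvr_cont z)).add continuous_const)
  have E1 : ∀ z : Fin (e + 3) → ℕ, EX μ L β (fun U : Ed (e + 3) (2 * m) → G =>
      ww e K * (3 * dv L (rect U (bp e m + ct (2 * m) z) 0 1 (3 * q) (3 * q)) ^ 2 + c2)) ≤
      ww e K * (12 * b₀ ^ 2 * q + c2) := by
    intro z
    have c3 : Continuous fun U : Ed (e + 3) (2 * m) → G =>
      3 * dv L (rect U (bp e m + ct (2 * m) z) 0 1 (3 * q) (3 * q)) ^ 2 :=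
      continuous_const.mul (dvr_cont z)
    rw [EX_smul, EX_add μ c3 continuous_const, EX_smul, EX_const]
    refine mul_le_mul_of_nonneg_left ?_ (ww_pos e K).le
    have := EX_dvr μ hb₀ hb hqK (bp e m + ct (2 * m) z)
    linarith
  have E2 : ∀ f : Ed (e + 3) (2 * m), EX μ L β (fun U : Ed (e + 3) (2 * m) → G =>
      ∑ z ∈ (cu e K).filter (fun z => f ∈ lA m K z ++ lB m K q z), ww e K *
        (3 * dv L (rect U (bp e m + ct (2 * m) z) 0 1 (3 * q) (3 * q)) ^ 2 + c2)) ≤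
      (∑ z ∈ (cu e K).filter (fun z => f ∈ lA m K z ++ lB m K q z), ww e K) *
        (12 * b₀ ^ 2 * q + c2) := by
    intro f
    rw [EX_fsum μ _ c1, Finset.sum_mul]
    exact Finset.sum_le_sum fun z _ => E1 z
  have c2' : ∀ f : Ed (e + 3) (2 * m), Continuous fun U : Ed (e + 3) (2 * m) → G =>
      ∑ z ∈ (cu e K).filter (fun z => f ∈ lA m K z ++ lB m K q z), ww e K *
        (3 * dv L (rect U (bp e m + ct (2 * m) z) 0 1 (3 * q) (3 * q)) ^ 2 + c2) := fun f =>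
    continuous_finsetSum _ fun z _ => c1 z
  obtain ⟨J, hJ⟩ : ∃ J : Ed (e + 3) (2 * m) → ℝ, J = fun f =>
    ∑ z ∈ (cu e K).filter (fun z => f ∈ lA m K z ++ lB m K q z), ww e K := ⟨_, rfl⟩
  have hJ0 : ∀ f, 0 ≤ J f := fun f => by
    rw [hJ]; exact Finset.sum_nonneg fun z _ => (ww_pos e K).le
  obtain ⟨A, hA⟩ : ∃ A : Ed (e + 3) (2 * m) → ℝ, A = fun f =>
    (∑ z ∈ (cu e K).filter (fun z => f ∈ lM m q z ++ []), ww e K) ^ 2 +
      (∑ z ∈ (cu e K).filter (fun z => f ∈ lM' m q z ++ lM2' m q z), ww e K) ^ 2 := ⟨_, rfl⟩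
  have e1 : ∀ U : Ed (e + 3) (2 * m) → G, Hb L K q β U = ∑ f : Ed (e + 3) (2 * m),
      (9 * N * (2 * N / β) * A f + 9 * (2 * N / β) * J f *
        ∑ z ∈ (cu e K).filter (fun z => f ∈ lA m K z ++ lB m K q z), ww e K *
        (3 * dv L (rect U (bp e m + ct (2 * m) z) 0 1 (3 * q) (3 * q)) ^ 2 + c2)) := by
    intro U
    unfold Hb
    rw [hA, hJ, hc2]
    refine Finset.sum_congr rfl fun f _ => ?_
    simp only
    rw [mul_assoc (9 * (2 * (N : ℝ) / β))]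
  have c3 : ∀ f : Ed (e + 3) (2 * m), Continuous fun U : Ed (e + 3) (2 * m) → G =>
      9 * (2 * N / β) * J f *
        ∑ z ∈ (cu e K).filter (fun z => f ∈ lA m K z ++ lB m K q z), ww e K *
        (3 * dv L (rect U (bp e m + ct (2 * m) z) 0 1 (3 * q) (3 * q)) ^ 2 + c2) := fun f =>
    continuous_const.mul (c2' f)
  have c4 : ∀ f : Ed (e + 3) (2 * m), Continuous fun U : Ed (e + 3) (2 * m) → G =>
      9 * N * (2 * N / β) * A f + 9 * (2 * N / β) * J f *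
        ∑ z ∈ (cu e K).filter (fun z => f ∈ lA m K z ++ lB m K q z), ww e K *
        (3 * dv L (rect U (bp e m + ct (2 * m) z) 0 1 (3 * q) (3 * q)) ^ 2 + c2) := fun f =>
    continuous_const.add (c3 f)
  have E3 : ∀ f : Ed (e + 3) (2 * m), EX μ L β (fun U : Ed (e + 3) (2 * m) → G =>
      9 * N * (2 * N / β) * A f + 9 * (2 * N / β) * J f *
        ∑ z ∈ (cu e K).filter (fun z => f ∈ lA m K z ++ lB m K q z), ww e K *
        (3 * dv L (rect U (bp e m + ct (2 * m) z) 0 1 (3 * q) (3 * q)) ^ 2 + c2)) ≤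
      9 * N * (2 * N / β) * A f + 9 * (2 * N / β) * (12 * b₀ ^ 2 * q + c2) * J f ^ 2 := by
    intro f
    rw [EX_add μ continuous_const (c3 f), EX_const, EX_smul]
    have h1 := E2 f
    have h2 : (∑ z ∈ (cu e K).filter (fun z => f ∈ lA m K z ++ lB m K q z), ww e K) = J f := by
      rw [hJ]
    rw [h2] at h1
    have h3 := mul_le_mul_of_nonneg_left h1
      (show 0 ≤ 9 * (2 * (N : ℝ) / β) * J f by have := hJ0 f; positivity)
    have h4 : 9 * (2 * (N : ℝ) / β) * J f * (J f * (12 * b₀ ^ 2 * q + c2)) =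
      9 * (2 * N / β) * (12 * b₀ ^ 2 * q + c2) * J f ^ 2 := by ring
    linarith
  have e2 : EX μ L β (fun U : Ed (e + 3) (2 * m) → G => Hb L K q β U) ≤
      9 * N * (2 * N / β) * (∑ f, A f) + 9 * (2 * N / β) * (12 * b₀ ^ 2 * q + c2) *
        ∑ f, J f ^ 2 := by
    have e3 : (fun U : Ed (e + 3) (2 * m) → G => Hb L K q β U) = fun U =>
        ∑ f : Ed (e + 3) (2 * m),
      (9 * N * (2 * N / β) * A f + 9 * (2 * N / β) * J f *
        ∑ z ∈ (cu e K).filter (fun z => f ∈ lA m K z ++ lB m K q z), ww e K *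
        (3 * dv L (rect U (bp e m + ct (2 * m) z) 0 1 (3 * q) (3 * q)) ^ 2 + c2)) :=
      funext e1
    rw [e3, EX_fsum μ Finset.univ c4]
    refine (Finset.sum_le_sum fun f _ => E3 f).trans (le_of_eq ?_)
    rw [Finset.sum_add_distrib, ← Finset.mul_sum, ← Finset.mul_sum]
  have hA1 : ∑ f, A f ≤ 30 * (1 / (q : ℝ) ^ e) := by
    rw [hA, Finset.sum_add_distrib]
    have h1 := jm_sq (e := e) hq hqK hl
    have h2 := jm_sq' (e := e) hq hqK hl
    linarith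
  have hJ1 : ∑ f, J f ^ 2 ≤ 6 * ((e + 3 : ℕ) * 2 ^ (e + 3) * lam (e + 3) K) := by
    rw [hJ]
    exact jc_sq (e := e) hq hqK hl
  have hlam0 := lam_nonneg (e + 3) K
  have hc2e : c2 = 36 * N ^ 2 * (4 * e + 21) * (q * (1 / β)) := by
    rw [hc2]; push_cast; ring
  have h12 : 12 * b₀ ^ 2 * q + c2 ≤ (12 + 36 * N ^ 2 * (4 * e + 21)) * (q * (b₀ ^ 2 + 1 / β)) := by
    rw [hc2e]
    have h1 : 0 ≤ (q : ℝ) * (1 / β) := by positivity
    have h2 : 0 ≤ (q : ℝ) * b₀ ^ 2 := by positivity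
    have h3 : 0 ≤ 36 * (N : ℝ) ^ 2 * (4 * e + 21) := by positivity
    have h4 := mul_nonneg h3 h2
    nlinarith
  refine e2.trans ?_
  have t1 : 9 * N * (2 * N / β) * (∑ f, A f) ≤ 540 * N ^ 2 * (1 / (β * (q : ℝ) ^ e)) := by
    have h1 := mul_le_mul_of_nonneg_left hA1 (show 0 ≤ 9 * N * (2 * (N : ℝ) / β) by positivity)
    refine h1.trans (le_of_eq ?_)
    field_simp
    ring
  have t2 : 9 * (2 * N / β) * (12 * b₀ ^ 2 * q + c2) * ∑ f, J f ^ 2 ≤
      18 * N * (12 + 36 * N ^ 2 * (4 * e + 21)) * (6 * ((e + 3) * 2 ^ (e + 3))) *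
        (1 / (β * (q : ℝ) ^ e)) := by
    have hs : 0 ≤ ∑ f, J f ^ 2 := Finset.sum_nonneg fun f _ => sq_nonneg _
    have h1 : 9 * (2 * N / β) * (12 * b₀ ^ 2 * q + c2) * ∑ f, J f ^ 2 ≤
        9 * (2 * N / β) * ((12 + 36 * N ^ 2 * (4 * e + 21)) * (q * (b₀ ^ 2 + 1 / β))) *
          (6 * ((e + 3 : ℕ) * 2 ^ (e + 3) * lam (e + 3) K)) := by
      refine mul_le_mul ?_ hJ1 hs (by positivity)
      exact mul_le_mul_of_nonneg_left h12 (by positivity)
    refine h1.trans ?_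
    have h2 : 9 * (2 * N / β) * ((12 + 36 * N ^ 2 * (4 * e + 21)) * (q * (b₀ ^ 2 + 1 / β))) *
          (6 * ((e + 3 : ℕ) * 2 ^ (e + 3) * lam (e + 3) K)) =
        18 * N * (12 + 36 * N ^ 2 * (4 * e + 21)) * (6 * ((e + 3) * 2 ^ (e + 3))) *
        (1 / (β * (q : ℝ) ^ e)) * ((b₀ ^ 2 + 1 / β) * (lam (e + 3) K * (q : ℝ) ^ (e + 1))) := by
      push_cast
      field_simp
      ring
    rw [h2]
    exact mul_le_of_le_one_right (by positivity) hlam
  have t0 : (q : ℝ) / (β * (q : ℝ) ^ (e + 1)) = 1 / (β * (q : ℝ) ^ e) := by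
    rw [pow_succ]; field_simp
  rw [t0]
  unfold CD
  rw [add_mul]
  exact add_le_add t1 t2

/-- **the variation of the observable in the time** -/
theorem dif_bound {b₀ : ℝ} (hb₀ : 0 ≤ b₀) (hb : RB μ L e m β b₀ K) (hm : 2 ≤ m) (hN : 1 ≤ N)
    (hβ : 0 < β) (hq : 1 ≤ q) (hqK : q = 2 ^ K) (hl : (4 * e + 21) * q < 2 * m)
    (hqβ : 2 * N * (4 * e + 21) * q ≤ β)
    (hlam : (b₀ ^ 2 + 1 / β) * (lam (e + 3) K * (q : ℝ) ^ (e + 1)) ≤ 1) :
    EX μ L β (fun U : Ed (e + 3) (2 * m) → G =>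
      (Fq L K q (tr (eT (Fin.last (e + 2))) U) - Fq L K q U) ^ 2) ≤
      CD e N * (q / (β * (q : ℝ) ^ (e + 1))) := by
  have h2 : 2 * N / β * ((4 * e + 21) * q : ℕ) ≤ 1 := by
    have h3 : 2 * N / β * ((4 * e + 21) * q : ℕ) = (2 * N * (4 * e + 21) * q) / β := by
      push_cast; ring
    rw [h3, div_le_one hβ]
    exact hqβ
  refine le_trans ?_ (EX_Hb μ (L := L) hb₀ hb hN hβ hq hqK (by nlinarith) hlam)
  unfold EX
  exact div_le_div_of_nonneg_right (dif_Zt μ hm hβ hq hqK hl h2) (Zt_pos μ β).le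

end

end Pool.Agent.V11322
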