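import Mathlib
import Pool.Agent.V11260.Dseq

/-!
# The choice of the scale
-/

open Filter
open Pool.Agent.V11260

namespace Pool.Agent.V11322

set_option linter.unusedSectionVars false
set_option linter.unusedVariables false

noncomputable section

/-- the exponent -/
def PP (e : ℕ) : ℕ := max 2 (e + 1)

/-- the logarithmic factor -/
def Lf (e : ℕ) (β : ℝ) : ℝ :=
  if e = 0 then Real.log β else if e = 1 then Real.sqrt (Real.log β) else 1

lemma log_one {β : ℝ} (hβ : 3 ≤ β) : 1 ≤ Real.log β := by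
  rw [Real.le_log_iff_exp_le (by linarith)]
  have := Real.exp_one_lt_d9
  linarith

lemma Lf_one {e : ℕ} {β : ℝ} (hβ : 3 ≤ β) : 1 ≤ Lf e β := by
  have h := log_one hβ
  unfold Lf
  split_ifs
  · exact h
  · rw [Real.one_le_sqrt]; exact h
  · exact le_rfl

lemma Lf_log {e : ℕ} {β : ℝ} (hβ : 3 ≤ β) : Lf e β ≤ Real.log β := by
  have h := log_one hβ
  unfold Lf
  split_ifs
  · exact le_rfl
  · rw [Real.sqrt_le_left (by linarith)]
    nlinarith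
  · exact h

lemma Lg_Lf {e : ℕ} {β : ℝ} (hβ : 3 ≤ β) : Lg (e + 3) β ≤ Lf e β := by
  have h := Lf_one (e := e) hβ
  unfold Lg
  by_cases he : e = 0
  · subst he
    simp [Lf]
  · rw [if_neg (by omega)]
    exact h

lemma PP_two (e : ℕ) : 2 ≤ PP e := le_max_left _ _

lemma PP_e (e : ℕ) : e + 1 ≤ PP e := le_max_right _ _

section cond

variable {e K q : ℕ} {β : ℝ}

lemma T_pow (hq : 1 ≤ q) (hβ : 3 ≤ β) {k : ℕ} (hk : k ≤ PP e) :
    ((q : ℝ) * Lf e β) ^ k ≤ ((q : ℝ) * Lf e β) ^ PP e := by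
  have h1 := Lf_one (e := e) hβ
  have h2 : (1 : ℝ) ≤ q := by exact_mod_cast hq
  have h3 : 1 ≤ (q : ℝ) * Lf e β := by nlinarith
  exact pow_le_pow_right₀ h3 hk

lemma T_q (hq : 1 ≤ q) (hβ : 3 ≤ β) {k : ℕ} (hk : k ≤ PP e) :
    (q : ℝ) ^ k ≤ ((q : ℝ) * Lf e β) ^ PP e := by
  have h1 := Lf_one (e := e) hβ
  have h2 : (1 : ℝ) ≤ q := by exact_mod_cast hq
  refine (pow_le_pow_left₀ (by positivity) ?_ k).trans (T_pow hq hβ hk)
  nlinarith

lemma T_Lg (hq : 1 ≤ q) (hβ : 3 ≤ β) :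
    Lg (e + 3) β ^ 2 * (q : ℝ) ^ (e + 1) ≤ ((q : ℝ) * Lf e β) ^ PP e := by
  have h2 : (1 : ℝ) ≤ q := by exact_mod_cast hq
  by_cases he : e = 0
  · subst he
    have h3 := T_pow (e := 0) hq hβ (PP_two 0)
    refine le_trans ?_ h3
    have h4 : Lg (0 + 3) β = Lf 0 β := by simp [Lg, Lf]
    rw [h4, mul_pow, zero_add, pow_one]
    have h5 := sq_nonneg (Lf 0 β)
    nlinarith
  · have h4 : Lg (e + 3) β = 1 := by
      unfold Lg; rw [if_neg (by omega)]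
    rw [h4, one_pow, one_mul]
    exact T_q hq hβ (PP_e e)

lemma K_log (hK : (2 : ℝ) ^ K ≤ β) (hβ : 3 ≤ β) : (2 * K + 7 : ℝ) ≤ 11 * Real.log β := by
  have h1 := log_one hβ
  have h2 : (K : ℝ) * Real.log 2 ≤ Real.log β := by
    rw [← Real.log_pow]
    exact Real.log_le_log (by positivity) hK
  have h3 := Real.log_two_gt_d9
  have h4 : (0 : ℝ) ≤ K := Nat.cast_nonneg K
  nlinarith

lemma T_K (hqK : q = 2 ^ K) (hβ : 3 ≤ β) (hqβ : (q : ℝ) ≤ β) :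
    (2 * K + 7 : ℝ) * Lg (e + 3) β * (q : ℝ) ^ 2 ≤ 11 * ((q : ℝ) * Lf e β) ^ PP e := by
  have hq : 1 ≤ q := by rw [hqK]; exact Nat.one_le_two_pow
  have h2 : (1 : ℝ) ≤ q := by exact_mod_cast hq
  have h4 : (2 : ℝ) ^ K = q := by rw [hqK]; push_cast; rfl
  have hl := log_one hβ
  have h5 := K_log (K := K) (by rw [h4]; exact hqβ) hβ
  have h3 := T_pow (e := e) hq hβ (PP_two e)
  have hK0 : (0 : ℝ) ≤ K := Nat.cast_nonneg K
  by_cases he : e = 0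
  · subst he
    have h6 : Lg (0 + 3) β = Real.log β := by simp [Lg]
    have h7 : Lf 0 β = Real.log β := by simp [Lf]
    rw [h7] at h3 ⊢
    rw [h6]
    calc (2 * K + 7 : ℝ) * Real.log β * (q : ℝ) ^ 2 ≤
          11 * Real.log β * Real.log β * (q : ℝ) ^ 2 := by
          refine mul_le_mul_of_nonneg_right (mul_le_mul_of_nonneg_right h5 (by linarith))
            (by positivity)
      _ = 11 * ((q : ℝ) * Real.log β) ^ 2 := by ring
      _ ≤ _ := by linarith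
  · have h6 : Lg (e + 3) β = 1 := by
      unfold Lg; rw [if_neg (by omega)]
    rw [h6, mul_one]
    by_cases he1 : e = 1
    · subst he1
      have h7 : Lf 1 β = Real.sqrt (Real.log β) := by simp [Lf]
      refine le_trans ?_ (mul_le_mul_of_nonneg_left h3 (by norm_num))
      rw [h7, mul_pow, Real.sq_sqrt (by linarith)]
      calc (2 * K + 7 : ℝ) * (q : ℝ) ^ 2 ≤ 11 * Real.log β * (q : ℝ) ^ 2 :=
            mul_le_mul_of_nonneg_right h5 (by positivity)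
        _ = _ := by ring
    · have h8 : (K : ℝ) < 2 ^ K := by exact_mod_cast Nat.lt_two_pow_self
      have h9 : (2 * K + 7 : ℝ) ≤ 9 * q := by
        rw [h4] at h8
        linarith
      have h10 := T_q (e := e) (k := 3) hq hβ (by
        have := PP_e e
        omega)
      have h11 : (0 : ℝ) ≤ (q : ℝ) ^ 3 := by positivity
      calc (2 * K + 7 : ℝ) * (q : ℝ) ^ 2 ≤ 9 * q * (q : ℝ) ^ 2 :=
            mul_le_mul_of_nonneg_right h9 (by positivity)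
        _ = 9 * (q : ℝ) ^ 3 := by ring
        _ ≤ 11 * (q : ℝ) ^ 3 := by linarith
        _ ≤ _ := by linarith

end cond

/-- the choice of the scale -/
lemma scale {C2 C4 : ℝ} (hC2 : 0 < C2) (hC4 : 0 < C4) (e : ℕ) :
    ∃ β₀ C5 : ℝ, 3 ≤ β₀ ∧ 0 < C5 ∧ ∀ β : ℝ, β₀ ≤ β → ∃ K : ℕ, C4 ≤ 2 ^ K ∧
      C2 * (2 ^ K * Lf e β) ^ PP e ≤ β ∧
      (2 : ℝ) ^ K ≤ C5 * (β ^ (1 / (PP e : ℝ)) / Lf e β) ∧
      C4 / 2 ^ K ≤ C5 * (Lf e β * β ^ (-(1 / (PP e : ℝ)))) := by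
  obtain ⟨P, hP⟩ : ∃ P : ℕ, P = PP e := ⟨_, rfl⟩
  have hP2 : 2 ≤ P := by rw [hP]; exact PP_two e
  have hP0 : (0 : ℝ) < P := by
    have : (2 : ℝ) ≤ P := by exact_mod_cast hP2
    linarith
  rw [← hP]
  obtain ⟨κ, hκ⟩ : ∃ κ : ℝ, κ = 1 / (P : ℝ) := ⟨_, rfl⟩
  have hκ0 : 0 < κ := by rw [hκ]; positivity
  have hκP : κ * P = 1 := by rw [hκ]; field_simp
  rw [← hκ]
  have hc : 0 < C2 ^ κ := Real.rpow_pos_of_pos hC2 κ
  have ho := isLittleO_log_rpow_atTop hκ0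
  have h0 := ho.def (c := 1 / (C2 ^ κ * (2 * C4 + 2))) (by positivity)
  obtain ⟨β₁, hβ₁⟩ := eventually_atTop.1 h0
  refine ⟨max 3 β₁, 1 / C2 ^ κ + 2 * C4 * C2 ^ κ, le_max_left _ _, by positivity,
    fun β hβ => ?_⟩
  have hβ3 : 3 ≤ β := (le_max_left _ _).trans hβ
  have hβ0 : 0 < β := by linarith
  have h1 := hβ₁ β ((le_max_right _ _).trans hβ)
  have hlog := log_one hβ3
  have hp : 0 < β ^ κ := Real.rpow_pos_of_pos hβ0 κ
  rw [Real.norm_of_nonneg (by linarith), Real.norm_of_nonneg hp.le] at h1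
  have hL1 := Lf_one (e := e) hβ3
  have hL2 := Lf_log (e := e) hβ3
  have hL0 : 0 < Lf e β := by linarith
  obtain ⟨ρ, hρ⟩ : ∃ ρ : ℝ, ρ = β ^ κ / C2 ^ κ / Lf e β := ⟨_, rfl⟩
  have hρ0 : 0 < ρ := by rw [hρ]; positivity
  have hρ1 : 2 * C4 + 2 ≤ ρ := by
    rw [hρ, div_div, le_div_iff₀ (by positivity)]
    calc (2 * C4 + 2) * (C2 ^ κ * Lf e β) ≤ (2 * C4 + 2) * (C2 ^ κ * Real.log β) := by
          refine mul_le_mul_of_nonneg_left (mul_le_mul_of_nonneg_left hL2 hc.le) (by positivity)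
      _ ≤ (2 * C4 + 2) * (C2 ^ κ * (1 / (C2 ^ κ * (2 * C4 + 2)) * β ^ κ)) := by
          refine mul_le_mul_of_nonneg_left (mul_le_mul_of_nonneg_left h1 hc.le) (by positivity)
      _ = β ^ κ := by field_simp
  have hf1 : 1 ≤ ⌊ρ⌋₊ := by
    rw [Nat.one_le_floor_iff]
    linarith
  obtain ⟨K, hK⟩ : ∃ K : ℕ, K = Nat.log 2 ⌊ρ⌋₊ := ⟨_, rfl⟩
  have hK1 : (2 : ℝ) ^ K ≤ ρ := by
    have h2 : 2 ^ K ≤ ⌊ρ⌋₊ := by rw [hK]; exact Nat.pow_log_le_self 2 (by omega)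
    have h3 : ((2 ^ K : ℕ) : ℝ) ≤ ⌊ρ⌋₊ := by exact_mod_cast h2
    push_cast at h3
    exact h3.trans (Nat.floor_le hρ0.le)
  have hK2 : ρ ≤ 2 * 2 ^ K := by
    have h2 : ⌊ρ⌋₊ < 2 ^ (K + 1) := by rw [hK]; exact Nat.lt_pow_succ_log_self (by norm_num) _
    have h3 : ((⌊ρ⌋₊ + 1 : ℕ) : ℝ) ≤ ((2 ^ (K + 1) : ℕ) : ℝ) := by exact_mod_cast h2
    push_cast at h3
    have h4 := Nat.lt_floor_add_one ρ
    rw [pow_succ] at h3
    linarith
  have hK0 : (0 : ℝ) < 2 ^ K := by positivity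
  refine ⟨K, by linarith, ?_, ?_, ?_⟩
  · have h2 : (2 : ℝ) ^ K * Lf e β ≤ β ^ κ / C2 ^ κ := by
      calc (2 : ℝ) ^ K * Lf e β ≤ ρ * Lf e β := mul_le_mul_of_nonneg_right hK1 hL0.le
        _ = _ := by rw [hρ]; field_simp
    have h3 : (β ^ κ / C2 ^ κ) ^ P = β / C2 := by
      rw [← Real.div_rpow hβ0.le hC2.le, ← Real.rpow_natCast, ← Real.rpow_mul (by positivity),
        hκP, Real.rpow_one]
    calc C2 * (2 ^ K * Lf e β) ^ P ≤ C2 * (β ^ κ / C2 ^ κ) ^ P :=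
          mul_le_mul_of_nonneg_left (pow_le_pow_left₀ (by positivity) h2 P) hC2.le
      _ = β := by rw [h3]; field_simp
  · refine hK1.trans ?_
    have h2 : ρ = 1 / C2 ^ κ * (β ^ κ / Lf e β) := by rw [hρ]; ring
    rw [h2]
    refine mul_le_mul_of_nonneg_right ?_ (by positivity)
    have : 0 < 2 * C4 * C2 ^ κ := by positivity
    linarith
  · have h2 : C4 / 2 ^ K ≤ 2 * C4 / ρ := by
      rw [div_le_div_iff₀ hK0 hρ0]
      nlinarith
    refine h2.trans ?_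
    have h3 : 2 * C4 / ρ = 2 * C4 * C2 ^ κ * (Lf e β * β ^ (-κ)) := by
      rw [hρ, Real.rpow_neg hβ0.le]
      field_simp
    rw [h3]
    refine mul_le_mul_of_nonneg_right ?_ (by positivity)
    have : 0 < 1 / C2 ^ κ := by positivity
    linarith

end

end Pool.Agent.V11322
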