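import Mathlib
import Pool.Agent.Y14.Fin
import Pool.Agent.V11322.YM.Df2
import Pool.Agent.V11322.YM.Var
import Pool.Agent.V11322.YM.Sc

/-!
# Slow decay of the time correlations
-/

open MeasureTheory Matrix Filter
open scoped Matrix.Norms.Frobenius Topology
open Pool.Agent.H906R3.YM hiding Pl
open Pool.Agent.W793.YM Pool.Agent.TH618.YM Pool.Agent.Y14 Pool.Agent.V11260

namespace Pool.Agent.V11322

set_option linter.unusedSectionVars false
set_option linter.unusedVariables false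

noncomputable section

variable {G : Type*} [Group G] [TopologicalSpace G] [IsTopologicalGroup G] [CompactSpace G]
  [SecondCountableTopology G] [MeasurableSpace G] [BorelSpace G] (μ : Measure G)
  [IsProbabilityMeasure μ] [μ.IsMulLeftInvariant] [μ.IsMulRightInvariant] [μ.IsInvInvariant]
  {N n : ℕ} {L : LD G N n}

lemma Fq_Sp {e m K q : ℕ} [NeZero m] (hqK : q = 2 ^ K) :
    Sp (Fin.last (e + 2)) fun U : Ed (e + 3) (2 * m) → G => Fq L K q U := by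
  intro U U' h
  show ‖phi eT L K q U 0‖ = ‖phi eT L K q U' 0‖
  rw [phi_congr (U := U) (U' := U') hqK fun w1 hw1 hw2 i hi => ?_]
  refine h _ _ ?_ hi
  rw [zero_add, dsp_apply, hw2, Nat.cast_zero]

/-- the variance of the observable -/
lemma var_Fq {e m K q : ℕ} [NeZero m] {β cv : ℝ} {a : ℝ} (ha : 0 < a)
    (ha2 : a ^ 2 * ((q : ℝ) ^ 2 / (β * (q : ℝ) ^ (e + 1))) = 1)
    (hv : ∀ c : ℝ, cv * ((q : ℝ) ^ 2 / (β * (q : ℝ) ^ (e + 1))) ≤
      EX μ L β (fun U : Ed (e + 3) (2 * m) → G => (‖psi L K q U‖ - c) ^ 2)) (c : ℝ) :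
    cv * Zt μ L β (fun _ : Ed (e + 3) (2 * m) → G => 1) ≤
      Zt μ L β (fun U : Ed (e + 3) (2 * m) → G => (a * Fq L K q U - c) ^ 2) := by
  have k1 := hv (c / a)
  have k2 : EX μ L β (fun U : Ed (e + 3) (2 * m) → G => (‖psi L K q U‖ - c / a) ^ 2) =
      EX μ L β (fun U : Ed (e + 3) (2 * m) → G => (Fq L K q U - c / a) ^ 2) := by
    have k0 : (fun U : Ed (e + 3) (2 * m) → G => (‖psi L K q U‖ - c / a) ^ 2) =
        fun U => (Fq L K q (tr ((2 * q) • eT (Fin.last (e + 2))) U) - c / a) ^ 2 := by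
      funext U
      rw [Fq_tr, norm_psi]
    rw [k0]
    exact EX_tr μ ((2 * q) • eT (Fin.last (e + 2)))
      (fun U : Ed (e + 3) (2 * m) → G => (Fq L K q U - c / a) ^ 2)
  rw [k2] at k1
  have k3 : EX μ L β (fun U : Ed (e + 3) (2 * m) → G => (a * Fq L K q U - c) ^ 2) =
      a ^ 2 * EX μ L β (fun U : Ed (e + 3) (2 * m) → G => (Fq L K q U - c / a) ^ 2) := by
    rw [← EX_smul]
    have k0 : (fun U : Ed (e + 3) (2 * m) → G => (a * Fq L K q U - c) ^ 2) =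
        fun U => a ^ 2 * (Fq L K q U - c / a) ^ 2 := by
      funext U
      rw [← mul_pow, mul_sub, mul_div_cancel₀ c ha.ne']
    rw [k0]
  have k4 : cv ≤ EX μ L β (fun U : Ed (e + 3) (2 * m) → G => (a * Fq L K q U - c) ^ 2) := by
    rw [k3]
    calc cv = a ^ 2 * (cv * ((q : ℝ) ^ 2 / (β * (q : ℝ) ^ (e + 1)))) := by
          rw [mul_left_comm, ha2, mul_one]
      _ ≤ _ := mul_le_mul_of_nonneg_left k1 (sq_nonneg a)
  unfold EX at k4
  rwa [le_div_iff₀ (Zt_pos μ β)] at k4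

/-- the variation of the observable -/
lemma dif_Fq {e m K q : ℕ} [NeZero m] {β C3 : ℝ} {a : ℝ}
    (ha3 : a ^ 2 * (q / (β * (q : ℝ) ^ (e + 1))) = 1 / q)
    (hD : EX μ L β (fun U : Ed (e + 3) (2 * m) → G =>
      (Fq L K q (tr (eT (Fin.last (e + 2))) U) - Fq L K q U) ^ 2) ≤
      C3 * (q / (β * (q : ℝ) ^ (e + 1)))) :
    Zt μ L β (fun U : Ed (e + 3) (2 * m) → G =>
      (a * Fq L K q (tr (eT (Fin.last (e + 2))) U) - a * Fq L K q U) ^ 2) ≤
      C3 / q * Zt μ L β (fun _ : Ed (e + 3) (2 * m) → G => 1) := by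
  have k3 : EX μ L β (fun U : Ed (e + 3) (2 * m) → G =>
      (a * Fq L K q (tr (eT (Fin.last (e + 2))) U) - a * Fq L K q U) ^ 2) =
      a ^ 2 * EX μ L β (fun U : Ed (e + 3) (2 * m) → G =>
        (Fq L K q (tr (eT (Fin.last (e + 2))) U) - Fq L K q U) ^ 2) := by
    rw [← EX_smul]
    congr 1
    funext U
    ring
  have k4 : EX μ L β (fun U : Ed (e + 3) (2 * m) → G =>
      (a * Fq L K q (tr (eT (Fin.last (e + 2))) U) - a * Fq L K q U) ^ 2) ≤ C3 / q := by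
    rw [k3]
    calc _ ≤ a ^ 2 * (C3 * (q / (β * (q : ℝ) ^ (e + 1)))) :=
          mul_le_mul_of_nonneg_left hD (sq_nonneg a)
      _ = C3 / q := by rw [mul_left_comm, ha3]; ring
  unfold EX at k4
  rwa [div_le_iff₀ (Zt_pos μ β)] at k4

/-- the rectangles are close to the identity -/
lemma RB_core {e m : ℕ} [NeZero m] (hm : 2 ≤ m) (hN : 1 ≤ N) {β : ℝ} (hβ : 3 ≤ β) {K : ℕ}
    (hK : 2 ^ (K + 3) < m) : RB μ L e m β (Real.sqrt (3 * Lg (e + 3) β / β) *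
      (cA N (e + 3) + cB N (e + 3))) K := by
  have hL := Lg_one (e := e + 3) hβ
  have hN1 : (1 : ℝ) ≤ (N : ℝ) := by exact_mod_cast hN
  have hcore := core μ (L := L) hm hN (d := e + 3) (by omega) (β := β) (by linarith)
    (Λ := 3 * Lg (e + 3) β) (by linarith)
    (fun K hK => lam_le (by omega) hβ ((le_mul_of_one_le_right (by positivity) hN1).trans hK))
    (X := 2 ^ (K + 3)) hK
  have hA1 := cA_one (N := N) (d := e + 3) hN
  have hAB := cA_cB (N := N) (d := e + 3) hN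
  intro k' hk' i j hij a b ha hb
  have h2 : 2 ^ k' ≤ 2 ^ (K + 3) := Nat.pow_le_pow_right (by norm_num) hk'
  refine (hcore a (ha.trans h2) i j hij b (hb.trans h2)).trans ?_
  rw [mul_assoc]
  refine mul_le_mul_of_nonneg_left ?_ (Real.sqrt_nonneg _)
  have ha' : Real.sqrt a ≤ Real.sqrt (2 ^ k') := Real.sqrt_le_sqrt (by exact_mod_cast ha)
  have hb' : Real.sqrt b ≤ Real.sqrt (2 ^ k') := Real.sqrt_le_sqrt (by exact_mod_cast hb)
  have h3 := mul_le_mul_of_nonneg_left hb' (show 0 ≤ cA N (e + 3) by linarith)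
  have h4 := mul_le_mul_of_nonneg_left ha' (show 0 ≤ cB N (e + 3) by linarith)
  linarith

/-- truncated correlations of the observable -/
theorem trunc' (hn : 1 ≤ n) (hN : 1 ≤ N) (e : ℕ) {C0 : ℝ} (hC0 : 0 < C0)
    (hcar : ∀ g : G, dv L g ^ 2 ≤ ∑ a, fi L a g ^ 2 + C0 * dv L g ^ 4) :
    ∃ C2 C4 cv : ℝ, 0 < C2 ∧ 0 < C4 ∧ 0 < cv ∧
    ∀ K q : ℕ, q = 2 ^ K → C4 ≤ q → ∀ β : ℝ, 3 ≤ β → C2 * ((q : ℝ) * Lf e β) ^ PP e ≤ β →
      ∀ (m : ℕ) [NeZero m], (4 * e + 21) * q < m →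
      cv ≤ Zt μ L β (fun U : Ed (e + 3) (2 * m) → G => (nc e q β * Fq L K q U) *
          (nc e q β * Fq L K q U)) / Zt μ L β (fun _ : Ed (e + 3) (2 * m) → G => 1) -
        (Zt μ L β (fun U : Ed (e + 3) (2 * m) → G => nc e q β * Fq L K q U) /
          Zt μ L β (fun _ : Ed (e + 3) (2 * m) → G => 1)) ^ 2 ∧
      ∀ k : ℕ, 1 ≤ k → k ≤ m →
      Real.exp (-(C4 / q * k)) *
        (Zt μ L β (fun U : Ed (e + 3) (2 * m) → G => (nc e q β * Fq L K q U) *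
          (nc e q β * Fq L K q U)) / Zt μ L β (fun _ : Ed (e + 3) (2 * m) → G => 1) -
        (Zt μ L β (fun U : Ed (e + 3) (2 * m) → G => nc e q β * Fq L K q U) /
          Zt μ L β (fun _ : Ed (e + 3) (2 * m) → G => 1)) ^ 2) ≤
        Zt μ L β (fun U : Ed (e + 3) (2 * m) → G => (nc e q β * Fq L K q U) *
          (nc e q β * Fq L K q (tr (sv (Fin.last (e + 2)) ((2 * k - 1 : ℕ) : ZMod (2 * m))) U))) /
          Zt μ L β (fun _ : Ed (e + 3) (2 * m) → G => 1) -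
        (Zt μ L β (fun U : Ed (e + 3) (2 * m) → G => nc e q β * Fq L K q U) /
          Zt μ L β (fun _ : Ed (e + 3) (2 * m) → G => 1)) ^ 2 := by
  obtain ⟨c1, cv, hc1, hc11, hcv, hvar⟩ := var_low μ (L := L) hn hN e hC0 hcar
  have hCD := CD_pos (e := e) hN
  have hN1 : (1 : ℝ) ≤ N := by exact_mod_cast hN
  have he0 : (0 : ℝ) ≤ e := Nat.cast_nonneg e
  have hA1 := cA_one (N := N) (d := e + 3) hN
  have hAB := cA_cB (N := N) (d := e + 3) hN
  obtain ⟨c₀, hc₀⟩ : ∃ c : ℝ, c = cA N (e + 3) + cB N (e + 3) := ⟨_, rfl⟩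
  have hc₀1 : 1 ≤ c₀ := by rw [hc₀]; linarith
  obtain ⟨C2, hC2⟩ : ∃ C : ℝ, C = 33 * c₀ ^ 2 / c1 + 1 / c1 + 9 * c₀ ^ 4 / c1 +
    2 * N * (4 * e + 21) + 18 * c₀ ^ 2 + 1 := ⟨_, rfl⟩
  have p1 : 0 < 33 * c₀ ^ 2 / c1 := by positivity
  have p2 : 0 < 1 / c1 := by positivity
  have p3 : 0 < 9 * c₀ ^ 4 / c1 := by positivity
  have p4 : 0 < 2 * (N : ℝ) * (4 * e + 21) := by positivity
  have p5 : 0 < 18 * c₀ ^ 2 := by positivity
  refine ⟨C2, 9 * CD e N / cv, cv, by rw [hC2]; linarith, by positivity, hcv,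
    fun K q hqK hq' β hβ hqβ m _ hm => ?_⟩
  have hq : 1 ≤ q := by rw [hqK]; exact Nat.one_le_two_pow
  have hq1 : (1 : ℝ) ≤ q := by exact_mod_cast hq
  have hq0 : (0 : ℝ) < q := by linarith
  have hβ0 : 0 < β := by linarith
  have hL := Lg_one (e := e + 3) hβ
  obtain ⟨T, hT⟩ : ∃ T : ℝ, T = ((q : ℝ) * Lf e β) ^ PP e := ⟨_, rfl⟩
  rw [← hT] at hqβ
  have t1 : (q : ℝ) ≤ T := by
    have := T_q (e := e) (k := 1) hq hβ (by have := PP_two e; omega)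
    rwa [pow_one, ← hT] at this
  have t2 : (q : ℝ) ^ 2 ≤ T := by rw [hT]; exact T_q hq hβ (PP_two e)
  have t3 : Lg (e + 3) β ^ 2 * (q : ℝ) ^ (e + 1) ≤ T := by rw [hT]; exact T_Lg hq hβ
  have hT0 : 0 < T := by linarith
  have hTC : ∀ {c : ℝ}, c ≤ C2 → c * T ≤ β := fun hc =>
    (mul_le_mul_of_nonneg_right hc hT0.le).trans hqβ
  have t0 : (q : ℝ) ≤ β := by
    have := hTC (c := 1) (by rw [hC2]; linarith)
    linarith
  have t4 : (2 * K + 7 : ℝ) * Lg (e + 3) β * (q : ℝ) ^ 2 ≤ 11 * T := by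
    rw [hT]; exact T_K hqK hβ t0
  obtain ⟨b₀, hb₀⟩ : ∃ b : ℝ, b = Real.sqrt (3 * Lg (e + 3) β / β) * c₀ := ⟨_, rfl⟩
  have hb0 : 0 ≤ b₀ := by rw [hb₀]; positivity
  have hb2 : b₀ ^ 2 = 3 * Lg (e + 3) β * c₀ ^ 2 / β := by
    rw [hb₀, mul_pow, Real.sq_sqrt (by positivity)]; ring
  have hm5 : 5 * q < 2 * m := by nlinarith
  have hm8 : 2 ^ (K + 3) < m := by
    have : 2 ^ (K + 3) = 8 * q := by rw [hqK]; ring
    rw [this]
    nlinarith
  have hml : (4 * e + 21) * q < 2 * m := by omega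
  have hm2 : 2 ≤ m := by nlinarith
  have hRB : RB μ L e m β b₀ K := by
    rw [hb₀, hc₀]
    exact RB_core μ hm2 hN hβ hm8
  have q1 : (2 * K + 7 : ℝ) * b₀ ^ 2 * (q : ℝ) ^ 2 ≤ c1 := by
    have h1 : (2 * K + 7 : ℝ) * b₀ ^ 2 * (q : ℝ) ^ 2 =
        3 * c₀ ^ 2 * ((2 * K + 7 : ℝ) * Lg (e + 3) β * (q : ℝ) ^ 2) / β := by
      rw [hb2]; ring
    rw [h1, div_le_iff₀ hβ0]
    have h2 := mul_le_mul_of_nonneg_left t4 (show 0 ≤ 3 * c₀ ^ 2 by positivity)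
    have h3 := mul_le_mul_of_nonneg_left (hTC (c := 33 * c₀ ^ 2 / c1) (by rw [hC2]; linarith))
      hc1.le
    have h4 : c1 * (33 * c₀ ^ 2 / c1 * T) = 3 * c₀ ^ 2 * (11 * T) := by field_simp; ring
    linarith
  have q2 : (q : ℝ) ^ 2 ≤ c1 * β := by
    have h3 := mul_le_mul_of_nonneg_left (hTC (c := 1 / c1) (by rw [hC2]; linarith)) hc1.le
    have h4 : c1 * (1 / c1 * T) = T := by field_simp
    linarith
  have q3 : β * b₀ ^ 4 * (q : ℝ) ^ (e + 1) ≤ c1 := by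
    have h1 : β * b₀ ^ 4 * (q : ℝ) ^ (e + 1) =
        9 * c₀ ^ 4 * (Lg (e + 3) β ^ 2 * (q : ℝ) ^ (e + 1)) / β := by
      have : b₀ ^ 4 = (b₀ ^ 2) ^ 2 := by ring
      rw [this, hb2]
      field_simp
      ring
    rw [h1, div_le_iff₀ hβ0]
    have h2 := mul_le_mul_of_nonneg_left t3 (show 0 ≤ 9 * c₀ ^ 4 by positivity)
    have h3 := mul_le_mul_of_nonneg_left (hTC (c := 9 * c₀ ^ 4 / c1) (by rw [hC2]; linarith))
      hc1.le
    have h4 : c1 * (9 * c₀ ^ 4 / c1 * T) = 9 * c₀ ^ 4 * T := by field_simp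
    linarith
  have q4 : 2 * N * (4 * e + 21) * q ≤ β := by
    have h3 := hTC (c := 2 * N * (4 * e + 21)) (by rw [hC2]; linarith)
    have h2 := mul_le_mul_of_nonneg_left t1 p4.le
    linarith
  have q5 : (b₀ ^ 2 + 1 / β) * (lam (e + 3) K * (q : ℝ) ^ (e + 1)) ≤ 1 := by
    have h4 : (2 : ℝ) ^ K = q := by rw [hqK]; push_cast; rfl
    have hlam := lam_le (e := e + 3) (by omega) hβ (K := K) (by rw [h4]; exact t0)
    have h1 : b₀ ^ 2 + 1 / β ≤ 6 * Lg (e + 3) β * c₀ ^ 2 / β := by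
      rw [hb2, ← add_div]
      refine div_le_div_of_nonneg_right ?_ hβ0.le
      nlinarith
    have h2 : lam (e + 3) K * (q : ℝ) ^ (e + 1) ≤ 3 * Lg (e + 3) β * (q : ℝ) ^ (e + 1) :=
      mul_le_mul_of_nonneg_right hlam (by positivity)
    have hl0 := lam_nonneg (e + 3) K
    calc (b₀ ^ 2 + 1 / β) * (lam (e + 3) K * (q : ℝ) ^ (e + 1)) ≤
        6 * Lg (e + 3) β * c₀ ^ 2 / β * (3 * Lg (e + 3) β * (q : ℝ) ^ (e + 1)) :=
          mul_le_mul h1 h2 (by positivity) (by positivity)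
      _ = 18 * c₀ ^ 2 * (Lg (e + 3) β ^ 2 * (q : ℝ) ^ (e + 1)) / β := by ring
      _ ≤ 1 := by
          rw [div_le_one hβ0]
          have h5 := mul_le_mul_of_nonneg_left t3 p5.le
          have h6 := hTC (c := 18 * c₀ ^ 2) (by rw [hC2]; linarith)
          linarith
  have hv := hvar K q β b₀ hqK hβ0 hb0 q1 q2 q3 m hm5 hRB
  have hD := dif_bound μ (L := L) (n := n) (e := e) hb0 hRB hm2 hN hβ0 hq hqK hml q4 q5
  have ha := nc_pos (e := e) hq hβ0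
  have ha2 := nc_sq (e := e) hq hβ0
  have ha3 := nc_sq' (e := e) hq hβ0
  refine trunc_gen μ (L := L) (τ := Fin.last (e + 2)) hm2 hβ0.le
    (O := fun U : Ed (e + 3) (2 * m) → G => nc e q β * Fq L K q U)
    (continuous_const.mul Fq_cont) (fun γ U => ?_) (fun U U' h => ?_) hcv hCD hq0 hq'
    (var_Fq μ ha ha2 hv) (dif_Fq μ ha3 hD)
  · have h1 : Fq L K q (gt γ U) = Fq L K q U := Fq_GI (L := L) (q := q) γ U
    show nc e q β * Fq L K q (gt γ U) = nc e q β * Fq L K q U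
    rw [h1]
  · have h1 : Fq L K q U = Fq L K q U' := Fq_Sp (L := L) (q := q) (e := e) (m := m) hqK U U' h
    show nc e q β * Fq L K q U = nc e q β * Fq L K q U'
    rw [h1]

end

end Pool.Agent.V11322
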